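import Mathlib

/-!
# NL: averages over short intervals

`avg`: if in `[a, a + L)` at most `L δ` of the integers `n ≡ b (mod ρ)` are outside `G` and `1 ≤ H ≤ L / 2`, `L ≥ 16 |ρ|`, then at least
`L / (8 |ρ|)` of the integers `n ≡ b (mod ρ)` of `[a, a + L / 2)` have at most `32 |ρ| δ H` multiples `h` of `ρ` in `[0, H]` with `n + h ∉ G`.
Double counting: `∑_n #{h : n + h ∉ G} = ∑_h #{n : n + h ∉ G} ≤ 2 H · L δ`.
-/

set_option autoImplicit false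

namespace Pool.Agent.Helper28.NL

open Finset Classical

/-- The integers of one class in an interval. -/
private theorem card_class {r : ℤ} (hr : 0 < r) (b : ℤ) (a L : ℝ) (hL : 16 * (r : ℝ) ≤ L) :
    3 * L / (8 * r) ≤ (((Ico ⌈a⌉ ⌈a + L / 2⌉).filter (fun n => n ≡ b [ZMOD r])).card : ℝ) := by
  have h1 := Int.Ico_filter_modEq_card ⌈a⌉ ⌈a + L / 2⌉ hr b
  have hrr : (0 : ℝ) < r := by exact_mod_cast hr
  have hr1 : (1 : ℝ) ≤ r := by exact_mod_cast hr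
  have h2 : (((Ico ⌈a⌉ ⌈a + L / 2⌉).filter (fun n => n ≡ b [ZMOD r])).card : ℝ) =
      ((max (⌈((⌈a + L / 2⌉ : ℤ) - b : ℚ) / r⌉ - ⌈((⌈a⌉ : ℤ) - b : ℚ) / r⌉) 0 : ℤ) : ℝ) := by
    rw [← h1]
    simp
  rw [h2]
  have h3 : ((⌈((⌈a + L / 2⌉ : ℤ) - b : ℚ) / r⌉ - ⌈((⌈a⌉ : ℤ) - b : ℚ) / r⌉ : ℤ) : ℝ) ≤
      ((max (⌈((⌈a + L / 2⌉ : ℤ) - b : ℚ) / r⌉ - ⌈((⌈a⌉ : ℤ) - b : ℚ) / r⌉) 0 : ℤ) : ℝ) := by
    exact_mod_cast le_max_left _ _
  refine le_trans ?_ h3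
  have h4 : (((⌈a + L / 2⌉ : ℤ) : ℝ) - b) / r ≤ (⌈((⌈a + L / 2⌉ : ℤ) - b : ℚ) / r⌉ : ℝ) := by
    have := Int.le_ceil (((⌈a + L / 2⌉ : ℤ) - b : ℚ) / r)
    exact_mod_cast this
  have h5 : (⌈((⌈a⌉ : ℤ) - b : ℚ) / r⌉ : ℝ) ≤ (((⌈a⌉ : ℤ) : ℝ) - b) / r + 1 := by
    have := (Int.ceil_lt_add_one (((⌈a⌉ : ℤ) - b : ℚ) / r)).le
    exact_mod_cast this
  have h6 := Int.le_ceil (a + L / 2)
  have h7 := (Int.ceil_lt_add_one a).le
  push_cast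
  have h8 : (L / 2 - 1) / r - 1 ≤ (((⌈a + L / 2⌉ : ℤ) : ℝ) - b) / r - ((((⌈a⌉ : ℤ) : ℝ) - b) / r + 1) := by
    have : (L / 2 - 1) / r ≤ ((((⌈a + L / 2⌉ : ℤ) : ℝ) - b) - (((⌈a⌉ : ℤ) : ℝ) - b)) / r :=
      div_le_div_of_nonneg_right (by linarith) hrr.le
    rw [sub_div (((⌈a + L / 2⌉ : ℤ) : ℝ) - b)] at this
    linarith
  have h9 : 3 * L / (8 * r) ≤ (L / 2 - 1) / r - 1 := by
    rw [div_sub_one hrr.ne', div_le_div_iff₀ (by positivity) hrr]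
    nlinarith
  linarith

/-- The multiples of `ρ` in `[0, H]`. -/
private theorem card_mult {r : ℤ} (hr : 0 < r) {H : ℝ} (hH : 1 ≤ H) :
    (((Icc 0 ⌊H⌋).filter (fun n : ℤ => r ∣ n)).card : ℝ) ≤ 2 * H := by
  have h1 : ((Icc 0 ⌊H⌋).filter (fun n : ℤ => r ∣ n)).card ≤ (Icc 0 ⌊H⌋).card := card_filter_le _ _
  have h2 : ((Icc 0 ⌊H⌋).card : ℝ) = ⌊H⌋ + 1 := by
    rw [Int.card_Icc]
    have h3 : (0 : ℤ) ≤ ⌊H⌋ + 1 - 0 := by
      have : (0 : ℤ) ≤ ⌊H⌋ := Int.floor_nonneg.2 (by linarith)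
      omega
    have h4 : (((⌊H⌋ + 1 - 0).toNat : ℤ) : ℝ) = ((⌊H⌋ + 1 - 0 : ℤ) : ℝ) := by
      rw [Int.toNat_of_nonneg h3]
    rw [← Int.cast_natCast, h4]
    push_cast
    ring
  have h3 : (((Icc 0 ⌊H⌋).filter (fun n : ℤ => r ∣ n)).card : ℝ) ≤ ((Icc 0 ⌊H⌋).card : ℝ) := by exact_mod_cast h1
  have h4 := Int.floor_le H
  linarith

theorem avg {ρ : ℤ} (hρ : ρ ≠ 0) (G : Set ℤ) (b : ℤ) (a L δ H : ℝ) (hL : 16 * |(ρ : ℝ)| ≤ L) (hH1 : 1 ≤ H)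
    (hH2 : H ≤ L / 2)
    (hb : ({n : ℤ | a ≤ n ∧ (n : ℝ) < a + L ∧ ρ ∣ n - b ∧ n ∉ G}.ncard : ℝ) ≤ L * δ) :
    L / (8 * |(ρ : ℝ)|) ≤ ({n : ℤ | a ≤ n ∧ (n : ℝ) < a + L / 2 ∧ ρ ∣ n - b ∧
      ({h : ℤ | 0 ≤ h ∧ (h : ℝ) ≤ H ∧ ρ ∣ h ∧ n + h ∉ G}.ncard : ℝ) ≤ 32 * |(ρ : ℝ)| * δ * H}.ncard : ℝ) := by
  have hr : 0 < |ρ| := abs_pos.2 hρ
  have hcast : ((|ρ| : ℤ) : ℝ) = |(ρ : ℝ)| := Int.cast_abs
  have hrr : 0 < |(ρ : ℝ)| := by rw [← hcast]; exact_mod_cast hr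
  have hL0 : 0 < L := by linarith
  have hδ : 0 ≤ δ := by
    have : 0 ≤ L * δ := (Nat.cast_nonneg _).trans hb
    exact nonneg_of_mul_nonneg_right this hL0
  set N := (Ico ⌈a⌉ ⌈a + L / 2⌉).filter (fun n => n ≡ b [ZMOD |ρ|]) with hN
  have hNmem : ∀ n : ℤ, n ∈ N ↔ a ≤ n ∧ (n : ℝ) < a + L / 2 ∧ ρ ∣ n - b := by
    intro n
    rw [hN, mem_filter, mem_Ico, Int.ceil_le, Int.lt_ceil, Int.modEq_comm, Int.modEq_iff_dvd, abs_dvd, and_assoc]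
  have hNcard : 3 * L / (8 * |(ρ : ℝ)|) ≤ (N.card : ℝ) := by
    have := card_class hr b a L (by rw [hcast]; exact hL)
    rwa [hcast] at this
  set K := (Icc 0 ⌊H⌋).filter (fun n : ℤ => ρ ∣ n) with hK
  have hKmem : ∀ h : ℤ, h ∈ K ↔ 0 ≤ h ∧ (h : ℝ) ≤ H ∧ ρ ∣ h := by
    intro h
    rw [hK, mem_filter, mem_Icc, Int.le_floor, and_assoc]
  have hKcard : (K.card : ℝ) ≤ 2 * H := by
    have := card_mult hr hH1
    have e : (Icc 0 ⌊H⌋).filter (fun n : ℤ => |ρ| ∣ n) = K := filter_congr fun n _ => abs_dvd ρ n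
    rwa [e] at this
  -- the bad elements
  set B := (Ico ⌈a⌉ ⌈a + L⌉).filter (fun n : ℤ => ρ ∣ n - b ∧ n ∉ G) with hB
  have hBmem : ∀ n : ℤ, n ∈ B ↔ a ≤ n ∧ (n : ℝ) < a + L ∧ ρ ∣ n - b ∧ n ∉ G := by
    intro n
    rw [hB, mem_filter, mem_Ico, Int.ceil_le, Int.lt_ceil, and_assoc]
  have hBcard : (B.card : ℝ) ≤ L * δ := by
    have e : {n : ℤ | a ≤ n ∧ (n : ℝ) < a + L ∧ ρ ∣ n - b ∧ n ∉ G} = (B : Set ℤ) := by
      ext n
      rw [mem_coe, hBmem]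
      rfl
    rw [e, Set.ncard_coe_finset] at hb
    exact hb
  let c : ℤ → ℕ := fun n => (K.filter (fun h => n + h ∉ G)).card
  have hc : ∀ n, ({h : ℤ | 0 ≤ h ∧ (h : ℝ) ≤ H ∧ ρ ∣ h ∧ n + h ∉ G}.ncard) = c n := by
    intro n
    have e : {h : ℤ | 0 ≤ h ∧ (h : ℝ) ≤ H ∧ ρ ∣ h ∧ n + h ∉ G} = (K.filter (fun h => n + h ∉ G) : Finset ℤ) := by
      ext h
      rw [mem_coe, mem_filter, hKmem, and_assoc, and_assoc]
      rfl
    rw [e, Set.ncard_coe_finset]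
  have hsum : ∑ n ∈ N, (c n : ℝ) ≤ 2 * H * (L * δ) := by
    have h1 : ∑ n ∈ N, c n = ∑ h ∈ K, (N.filter (fun n => n + h ∉ G)).card := by
      simp only [c, card_filter]
      exact sum_comm
    have h2 : ∀ h ∈ K, (N.filter (fun n => n + h ∉ G)).card ≤ B.card := by
      intro h hh
      refine card_le_card_of_injOn (fun n => n + h) ?_ ?_
      · intro n hn
        obtain ⟨h3, h4⟩ := mem_filter.1 hn
        obtain ⟨h5, h6, h7⟩ := (hNmem n).1 h3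
        obtain ⟨h8, h9, h10⟩ := (hKmem h).1 hh
        have h8' : (0 : ℝ) ≤ h := by exact_mod_cast h8
        refine (hBmem _).2 ⟨?_, ?_, ?_, h4⟩
        · push_cast
          linarith
        · push_cast
          linarith
        · have : n + h - b = (n - b) + h := by ring
          rw [this]
          exact dvd_add h7 h10
      · intro n _ n' _ h3
        exact add_right_cancel h3
    have h3 : ((∑ n ∈ N, c n : ℕ) : ℝ) ≤ K.card * B.card := by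
      rw [h1]
      have := sum_le_card_nsmul K _ _ h2
      rw [smul_eq_mul] at this
      exact_mod_cast this
    push_cast at h3
    exact h3.trans (mul_le_mul hKcard hBcard (Nat.cast_nonneg _) (by linarith))
  -- the exceptional integers
  set X := N.filter (fun n => 32 * |(ρ : ℝ)| * δ * H < c n) with hX
  have hXcard : (X.card : ℝ) ≤ L / (16 * |(ρ : ℝ)|) := by
    rcases hδ.eq_or_lt with h0 | h0
    · have h1 : ∀ n ∈ N, c n = 0 := by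
        intro n hn
        have h2 : (c n : ℝ) ≤ ∑ n ∈ N, (c n : ℝ) :=
          single_le_sum (f := fun n => (c n : ℝ)) (fun _ _ => Nat.cast_nonneg _) hn
        rw [← h0, mul_zero, mul_zero] at hsum
        have h3 : (c n : ℝ) ≤ 0 := h2.trans hsum
        exact_mod_cast le_antisymm h3 (Nat.cast_nonneg _)
      have h2 : X = ∅ := by
        rw [hX, filter_eq_empty_iff]
        intro n hn
        rw [h1 n hn, ← h0]
        simp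
      rw [h2, card_empty, Nat.cast_zero]
      positivity
    · have h1 : (X.card : ℝ) * (32 * |(ρ : ℝ)| * δ * H) ≤ 2 * H * (L * δ) := by
        refine le_trans ?_ hsum
        rw [← nsmul_eq_mul]
        refine (card_nsmul_le_sum X (fun n => (c n : ℝ)) _ fun n hn => (mem_filter.1 hn).2.le).trans ?_
        exact sum_le_sum_of_subset_of_nonneg (filter_subset _ _) fun _ _ _ => Nat.cast_nonneg _
      have hpos : 0 < 32 * |(ρ : ℝ)| * δ * H := by positivity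
      rw [le_div_iff₀ (by positivity)]
      have h2 : (X.card : ℝ) * (16 * |(ρ : ℝ)|) * (2 * δ * H) ≤ L * (2 * δ * H) := by
        calc (X.card : ℝ) * (16 * |(ρ : ℝ)|) * (2 * δ * H) = (X.card : ℝ) * (32 * |(ρ : ℝ)| * δ * H) := by ring
          _ ≤ 2 * H * (L * δ) := h1
          _ = L * (2 * δ * H) := by ring
      exact le_of_mul_le_mul_right h2 (by positivity)
  -- conclusion
  have hY : {n : ℤ | a ≤ n ∧ (n : ℝ) < a + L / 2 ∧ ρ ∣ n - b ∧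
      ({h : ℤ | 0 ≤ h ∧ (h : ℝ) ≤ H ∧ ρ ∣ h ∧ n + h ∉ G}.ncard : ℝ) ≤ 32 * |(ρ : ℝ)| * δ * H} =
      (N.filter (fun n => ¬ 32 * |(ρ : ℝ)| * δ * H < c n) : Finset ℤ) := by
    ext n
    rw [mem_coe, mem_filter, hNmem, not_lt, ← hc, and_assoc, and_assoc]
    rfl
  rw [hY, Set.ncard_coe_finset]
  have h1 : (X.card : ℝ) + ((N.filter (fun n => ¬ 32 * |(ρ : ℝ)| * δ * H < c n)).card : ℝ) = N.card := by
    rw [← Nat.cast_add, hX]
    congr 1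
    exact card_filter_add_card_filter_not (s := N) (fun n => 32 * |(ρ : ℝ)| * δ * H < c n)
  have h2 : 3 * L / (8 * |(ρ : ℝ)|) - L / (16 * |(ρ : ℝ)|) ≥ L / (8 * |(ρ : ℝ)|) := by
    have e : 3 * L / (8 * |(ρ : ℝ)|) - L / (16 * |(ρ : ℝ)|) - L / (8 * |(ρ : ℝ)|) = 3 * L / (16 * |(ρ : ℝ)|) := by
      field_simp
      ring
    have : 0 ≤ 3 * L / (16 * |(ρ : ℝ)|) := by positivity
    linarith
  linarith

end Pool.Agent.Helper28.NL
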