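import Pool.Agent.Helper28.NL.Def3
import Pool.Agent.Helper28.NL.Avg

/-!
# NL: `Avg ρ`
-/

set_option autoImplicit false

namespace Pool.Agent.Helper28.NL

theorem avg_prop {ρ : ℤ} (hρ : Odd ρ) : Avg ρ := by
  intro G b a L δ H hH1 hH2 hL hb
  have hρ0 : ρ ≠ 0 := by
    rintro rfl
    exact absurd hρ (by decide)
  refine (avg hρ0 G b a L δ H hL hH1 hH2 (by rw [mul_comm]; exact hb)).trans ?_
  have hfin : {n : ℤ | a ≤ n ∧ (n : ℝ) < a + L / 2 ∧ nb ρ G H n ≤ 32 * |(ρ : ℝ)| * δ * H}.Finite := by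
    refine (Set.finite_Icc ⌈a⌉ ⌊a + L / 2⌋).subset ?_
    rintro n ⟨h1, h2, -⟩
    exact ⟨Int.ceil_le.2 h1, Int.le_floor.2 h2.le⟩
  have hsub : {n : ℤ | a ≤ n ∧ (n : ℝ) < a + L / 2 ∧ ρ ∣ n - b ∧
      ({h : ℤ | 0 ≤ h ∧ (h : ℝ) ≤ H ∧ ρ ∣ h ∧ n + h ∉ G}.ncard : ℝ) ≤ 32 * |(ρ : ℝ)| * δ * H} ⊆
      {n : ℤ | a ≤ n ∧ (n : ℝ) < a + L / 2 ∧ nb ρ G H n ≤ 32 * |(ρ : ℝ)| * δ * H} := by
    rintro n ⟨h1, h2, -, h3⟩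
    exact ⟨h1, h2, h3⟩
  exact_mod_cast Set.ncard_le_ncard hsub hfin

end Pool.Agent.Helper28.NL
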