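import Pool.Agent.Helper28.NL.Def3
import Pool.Agent.Helper8.PW.Fin

/-!
# NL: the equivalences

The exceptional set is finite, or all orbits of `3x + 1` reach `1`, as soon as every interval `[n, n + n ^ θ]` contains `n ^ θ / (log n) ^ A` integers
whose orbits go below `B` (reach `1`), or every interval `[n, n + H_n]`, `H_n = n exp (-C √(log n))`, a proportion `ε` of such integers.
-/

set_option autoImplicit false

namespace Pool.Agent.Helper28.NL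

open Pool.Agent.Helper68.Moeller Pool.Agent.Helper52.Tao Pool.Agent.Helper8.ND Pool.Agent.Helper8.CO Pool.Agent.Helper8.PW
  Pool.Agent.Helper28 Pool.Agent.Helper91 Filter Topology

variable {ρ : ℤ}

/-- The multiples of `ρ` in `[0, H]`. -/
private theorem mult_count (hρ : ρ ≠ 0) {H : ℝ} (hH : 0 ≤ H) :
    H / |(ρ : ℝ)| ≤ ({h : ℤ | 0 ≤ h ∧ (h : ℝ) ≤ H ∧ ρ ∣ h}.ncard : ℝ) := by
  have hr : 0 < |ρ| := abs_pos.2 hρ
  have hcast : ((|ρ| : ℤ) : ℝ) = |(ρ : ℝ)| := Int.cast_abs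
  have hrr : 0 < |(ρ : ℝ)| := by rw [← hcast]; exact_mod_cast hr
  set m : ℕ := ⌊H / |(ρ : ℝ)|⌋₊ with hm
  have h1 : H / |(ρ : ℝ)| < m + 1 := Nat.lt_floor_add_one _
  have h2 : (m : ℝ) ≤ H / |(ρ : ℝ)| := Nat.floor_le (by positivity)
  have hfin : {h : ℤ | 0 ≤ h ∧ (h : ℝ) ≤ H ∧ ρ ∣ h}.Finite := by
    refine (Set.finite_Icc 0 ⌊H⌋).subset ?_
    rintro n ⟨h1, h2, -⟩
    exact ⟨h1, Int.le_floor.2 h2⟩
  have h3 : (((Finset.range (m + 1)).image (fun i : ℕ => |ρ| * (i : ℤ)) : Finset ℤ) : Set ℤ) ⊆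
      {h : ℤ | 0 ≤ h ∧ (h : ℝ) ≤ H ∧ ρ ∣ h} := by
    intro h hh
    rw [Finset.mem_coe, Finset.mem_image] at hh
    obtain ⟨i, hi, rfl⟩ := hh
    have hi' : (i : ℝ) ≤ m := by
      have := Nat.lt_succ_iff.1 (Finset.mem_range.1 hi)
      exact_mod_cast this
    refine ⟨by positivity, ?_, Dvd.dvd.mul_right ((dvd_abs _ _).2 dvd_rfl) _⟩
    push_cast
    calc |(ρ : ℝ)| * i ≤ |(ρ : ℝ)| * (H / |(ρ : ℝ)|) := mul_le_mul_of_nonneg_left (hi'.trans h2) hrr.le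
      _ = H := mul_div_cancel₀ H hrr.ne'
  have h4 := Set.ncard_le_ncard h3 hfin
  rw [Set.ncard_coe_finset, Finset.card_image_of_injective, Finset.card_range] at h4
  · have h5 : ((m + 1 : ℕ) : ℝ) ≤ ({h : ℤ | 0 ≤ h ∧ (h : ℝ) ≤ H ∧ ρ ∣ h}.ncard : ℝ) := by exact_mod_cast h4
    push_cast at h5
    linarith
  · intro i j hij
    have := mul_left_cancel₀ hr.ne' hij
    exact_mod_cast this

private theorem fin_h (H : ℝ) (P : ℤ → Prop) : {h : ℤ | 0 ≤ h ∧ (h : ℝ) ≤ H ∧ P h}.Finite := by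
  refine (Set.finite_Icc 0 ⌊H⌋).subset ?_
  rintro n ⟨h1, h2, -⟩
  exact ⟨h1, Int.le_floor.2 h2⟩

/-- Intervals of length `n ^ θ` in which almost all elements are in `G`. -/
theorem F2_bad (h2 : F2 ρ) {θ A : ℝ} (hθ : 0 < θ) (hθ1 : θ < 1) (hA : 0 ≤ A) {z η : ℝ} (hz : 0 ≤ z)
    (hη : 0 < η) {G : Set ℤ} (hG : TInv 2 3 (fun _ => ρ) G z) (hd : ∀ᶠ x in atTop, η ≤ fd G x) (N : ℝ) :
    ∃ n : ℤ, N ≤ n ∧ nb ρ G ((n : ℝ) ^ θ) n < (n : ℝ) ^ θ / Real.log n ^ A := by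
  obtain ⟨X, hX⟩ := h2 θ (A + 1) (1 / 2) hθ hθ1 (by linarith) (by norm_num) z η hz hη
  have h1 := hX G hG hd (max (max X N) (Real.exp 2)) ((le_max_left _ _).trans (le_max_left _ _))
  have h3 : (0 : ℝ) < (max (max X N) (Real.exp 2)) ^ (1 - (1 / 2 : ℝ)) :=
    Real.rpow_pos_of_pos (lt_max_of_lt_right (Real.exp_pos _)) _
  have h4 : ({n : ℤ | max (max X N) (Real.exp 2) ≤ n ∧ (n : ℝ) < 2 * max (max X N) (Real.exp 2) ∧
      nb ρ G ((n : ℝ) ^ θ) n ≤ (n : ℝ) ^ θ / Real.log n ^ (A + 1)}).Nonempty := by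
    by_contra hcon
    rw [Set.not_nonempty_iff_eq_empty] at hcon
    rw [hcon, Set.ncard_empty, Nat.cast_zero] at h1
    linarith
  obtain ⟨n, hn1, -, hn2⟩ := h4
  refine ⟨n, ((le_max_right X N).trans (le_max_left _ _)).trans hn1, hn2.trans_lt ?_⟩
  have hn3 : Real.exp 2 ≤ n := (le_max_right _ _).trans hn1
  have hn0 : (0 : ℝ) < n := (Real.exp_pos 2).trans_le hn3
  have hl : 2 ≤ Real.log n := (Real.le_log_iff_exp_le hn0).2 hn3
  have hl0 : 0 < Real.log n := by linarith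
  have hp : 0 < Real.log n ^ A := Real.rpow_pos_of_pos hl0 A
  refine div_lt_div_of_pos_left (Real.rpow_pos_of_pos hn0 θ) hp ?_
  rw [Real.rpow_add hl0, Real.rpow_one]
  nlinarith

/-- Intervals of length `n exp (-C √(log n))` in which almost all elements are in `G`. -/
theorem F1_bad (h1 : F1 ρ) {ε : ℝ} (hε : 0 < ε) : ∃ C : ℝ, 0 < C ∧ ∀ z η : ℝ, 0 ≤ z →
    0 < η → ∀ G : Set ℤ, TInv 2 3 (fun _ => ρ) G z → (∀ᶠ x in atTop, η ≤ fd G x) → ∀ N : ℝ,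
    ∃ n : ℤ, N ≤ n ∧ nb ρ G (n * Real.exp (-(C * Real.sqrt (Real.log n)))) n <
      ε * (n * Real.exp (-(C * Real.sqrt (Real.log n)))) := by
  obtain ⟨C, hC, h1⟩ := h1 (ε / 8) (by linarith)
  refine ⟨C + 1, by linarith, fun z η hz hη G hG hd N => ?_⟩
  obtain ⟨X, hX⟩ := h1 z η hz hη
  -- the size of `x`
  have hev : ∀ᶠ x : ℝ in atTop, 1 ≤ Real.sqrt (Real.log x) ∧ C + 1 ≤ Real.sqrt (Real.log x) ∧
      (C + 1) * Real.sqrt (Real.log x) ≤ Real.log x / 2 ∧ 2 ≤ x := by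
    have h2 : Tendsto (fun x : ℝ => Real.sqrt (Real.log x)) atTop atTop :=
      Real.tendsto_sqrt_atTop.comp Real.tendsto_log_atTop
    filter_upwards [h2.eventually_ge_atTop 1, h2.eventually_ge_atTop (2 * (C + 1)), eventually_ge_atTop 2] with x h3 h4 h5
    refine ⟨h3, by linarith, ?_, h5⟩
    have h6 : 0 ≤ Real.log x := Real.log_nonneg (by linarith)
    have h7 := Real.mul_self_sqrt h6
    nlinarith
  obtain ⟨X₁, hX₁⟩ := eventually_atTop.1 hev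
  set x : ℝ := max (max X N) X₁ with hx
  obtain ⟨hs1, hs2, hs3, hx2⟩ := hX₁ x (le_max_right _ _)
  set s : ℝ := Real.sqrt (Real.log x) with hs
  have hx0 : 0 < x := by linarith
  have hlx : 0 ≤ Real.log x := Real.log_nonneg (by linarith)
  have hss : s ^ 2 = Real.log x := Real.sq_sqrt hlx
  set H : ℝ := 2 * x * Real.exp (-((C + 1) * s)) with hH
  have hH0 : 0 < H := by positivity
  have hH1 : 1 ≤ H := by
    have h2 : 1 ≤ x * Real.exp (-((C + 1) * s)) := by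
      rw [← Real.exp_log hx0, ← Real.exp_add]
      apply Real.one_le_exp
      linarith
    rw [hH]
    linarith
  have hH2 : H ≤ x * Real.exp (-(C * s)) := by
    have e : -((C + 1) * s) = -(C * s) + -s := by ring
    rw [hH, e, Real.exp_add]
    have h2 : 2 * Real.exp (-s) ≤ 1 := by
      have h3 : Real.exp (-s) ≤ Real.exp (-1) := Real.exp_le_exp.2 (by linarith)
      have h4 : Real.exp (-1) ≤ 1 / 2 := by
        rw [Real.exp_neg, inv_le_comm₀ (Real.exp_pos 1) (by norm_num)]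
        have := Real.add_one_le_exp (1 : ℝ)
        norm_num at this ⊢
        linarith
      linarith
    calc 2 * x * (Real.exp (-(C * s)) * Real.exp (-s)) = x * Real.exp (-(C * s)) * (2 * Real.exp (-s)) := by ring
      _ ≤ x * Real.exp (-(C * s)) * 1 := mul_le_mul_of_nonneg_left h2 (by positivity)
      _ = _ := mul_one _
  have h2 := hX G hG hd x ((le_max_left _ _).trans (le_max_left _ _)) H hH1 hH2
  have h3 : 0 < x * Real.exp (-(C * s)) := by positivity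
  have h4 : ({n : ℤ | x ≤ n ∧ (n : ℝ) < 2 * x ∧ nb ρ G H n ≤ ε / 8 * H}).Nonempty := by
    by_contra hcon
    rw [Set.not_nonempty_iff_eq_empty] at hcon
    rw [hcon, Set.ncard_empty, Nat.cast_zero] at h2
    linarith
  obtain ⟨n, hn1, hn2, hn3⟩ := h4
  refine ⟨n, ((le_max_right X N).trans (le_max_left _ _)).trans hn1, ?_⟩
  have hn0 : (0 : ℝ) < n := by linarith
  set Hn : ℝ := n * Real.exp (-((C + 1) * Real.sqrt (Real.log n))) with hHn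
  -- comparison of `Hn` and `H`
  have hsn : s ≤ Real.sqrt (Real.log n) := Real.sqrt_le_sqrt (Real.log_le_log hx0 hn1)
  have hle : Hn ≤ H := by
    rw [hHn, hH]
    refine mul_le_mul hn2.le (Real.exp_le_exp.2 ?_) (Real.exp_pos _).le (by linarith)
    have := mul_le_mul_of_nonneg_left hsn (by linarith : 0 ≤ C + 1)
    linarith
  have hsn2 : Real.sqrt (Real.log n) ≤ s + 1 / (2 * s) := by
    have hs0 : 0 < s := by linarith
    apply Real.sqrt_le_iff.2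
    refine ⟨by positivity, ?_⟩
    have h5 : Real.log n ≤ Real.log 2 + Real.log x := by
      rw [← Real.log_mul (by norm_num) hx0.ne']
      exact Real.log_le_log hn0 hn2.le
    have h6 : Real.log 2 ≤ 1 := by
      have := Real.log_two_lt_d9
      linarith
    have h7 : (s + 1 / (2 * s)) ^ 2 = s ^ 2 + 1 + (1 / (2 * s)) ^ 2 := by
      field_simp
      ring
    have h8 : 0 ≤ (1 / (2 * s)) ^ 2 := sq_nonneg _
    linarith
  have hge : H / 4 ≤ Hn := by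
    have hs0 : 0 < s := by linarith
    have h5 : (C + 1) * Real.sqrt (Real.log n) ≤ (C + 1) * s + 1 / 2 := by
      have h6 := mul_le_mul_of_nonneg_left hsn2 (by linarith : 0 ≤ C + 1)
      have h7 : (C + 1) * (1 / (2 * s)) ≤ 1 / 2 := by
        rw [mul_one_div, div_le_div_iff₀ (by positivity) (by norm_num)]
        linarith
      linarith
    have h6 : Real.exp (-((C + 1) * s)) * Real.exp (-(1 / 2)) ≤ Real.exp (-((C + 1) * Real.sqrt (Real.log n))) := by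
      rw [← Real.exp_add]
      apply Real.exp_le_exp.2
      linarith
    have h7 : 1 / 2 ≤ Real.exp (-(1 / 2)) := by
      have := Real.add_one_le_exp (-(1 / 2) : ℝ)
      linarith
    have h8 : Real.exp (-((C + 1) * s)) * (1 / 2) ≤ Real.exp (-((C + 1) * Real.sqrt (Real.log n))) :=
      (mul_le_mul_of_nonneg_left h7 (Real.exp_pos _).le).trans h6
    calc H / 4 = x * (Real.exp (-((C + 1) * s)) * (1 / 2)) := by rw [hH]; ring
      _ ≤ n * Real.exp (-((C + 1) * Real.sqrt (Real.log n))) :=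
          mul_le_mul hn1 h8 (by positivity) hn0.le
  have h5 : nb ρ G Hn n ≤ nb ρ G H n := by
    unfold nb
    refine Nat.cast_le.2 (Set.ncard_le_ncard ?_ (fin_h _ _))
    rintro h ⟨a1, a2, a3⟩
    exact ⟨a1, a2.trans hle, a3⟩
  have hHn0 : 0 < Hn := by positivity
  have h6 : nb ρ G Hn n ≤ ε / 8 * H := h5.trans hn3
  have h7 : ε / 8 * H ≤ ε / 2 * Hn := by nlinarith
  have h8 : ε / 2 * Hn < ε * Hn := by nlinarith
  linarith

/-- The set of the integers whose orbit stays above `B`, if the exceptional set is infinite. -/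
theorem exc_above {r : ℤ → ℤ} (hr : Admissible 2 3 r) (hinf : ¬ (E 2 3 r).Finite) (B : ℝ) :
    ∃ (G : Set ℤ) (z η : ℝ), 0 ≤ z ∧ 0 < η ∧ TInv 2 3 (fun _ => r 1) G z ∧ (∀ᶠ x in atTop, η ≤ fd G x) ∧
      ∀ n ∈ G, ∀ t : ℕ, B < ((T 2 3 r)^[t] n : ℝ) := by
  have hstd : POSB.Std 2 3 r := ⟨le_refl 2, by norm_num, by norm_num, Pool.Agent.Helper8.POS.three_hyp.1, hr⟩
  have hTc : T 2 3 r = T 2 3 (fun _ => r 1) := T_eq
  obtain ⟨β, hβ, hE⟩ := POSB.above hstd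
  have hβ0 : β (max B 0) ≠ 0 := fun h0 => hinf (hE.2 ⟨_, h0⟩)
  have hβ1 : 0 < β (max B 0) := by
    refine lt_of_le_of_ne (ge_of_tendsto (hβ (max B 0)) ?_) hβ0.symm
    filter_upwards [eventually_gt_atTop 0] with x hx
    exact div_nonneg (cN_nonneg _ x) hx.le
  have hti := POSB.tinv_Above (d := 2) (m := 3) (r := r) (max B 0)
  have hdens : PL.dens (POSB.Above 2 3 r (max B 0)) = β (max B 0) :=
    tendsto_nhds_unique (POSB.tendsto_dens hstd hti) (hβ (max B 0))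
  have hfd := (PL.stab_tendsto hstd.hd hstd.hdm hstd.hco hstd.hr hstd.gam hstd.mix hti).eventually
    (lt_mem_nhds (by rw [hdens]; linarith : β (max B 0) / 2 < PL.dens (POSB.Above 2 3 r (max B 0))))
  refine ⟨POSB.Above 2 3 r (max B 0), max B 0, β (max B 0) / 2, le_max_right _ _, by linarith,
    fun n hn => by rw [hti n hn, hTc], hfd.mono fun x hx => hx.le, fun n hn t => ?_⟩
  exact lt_of_le_of_lt (le_max_left B 0) (hn t)

/-- (E) The exceptional set, intervals of length `n ^ θ`. -/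
theorem exc_theta {r : ℤ → ℤ} (hr : Admissible 2 3 r) (h2 : F2 (r 1)) {θ A : ℝ} (hθ : 0 < θ) (hθ1 : θ < 1)
    (hA : 0 < A) : (E 2 3 r).Finite ↔ ∃ B N : ℝ, ∀ n : ℤ, N ≤ n → (n : ℝ) ^ θ / Real.log n ^ A ≤
      ({h : ℤ | 0 ≤ h ∧ (h : ℝ) ≤ (n : ℝ) ^ θ ∧ r 1 ∣ h ∧ ∃ t : ℕ, ((T 2 3 r)^[t] (n + h) : ℝ) ≤ B}.ncard : ℝ) := by
  have hρ : Odd (r 1) := odd_of_adm hr
  have hρ0 : r 1 ≠ 0 := by
    intro h
    rw [h] at hρ
    exact absurd hρ (by decide)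
  constructor
  · intro hfin
    obtain ⟨B, hB⟩ := Pool.Agent.Helper8.PRE.stay_empty (le_refl 2) hr hfin
    have hev : ∀ᶠ x : ℝ in atTop, |((r 1 : ℤ) : ℝ)| ≤ Real.log x ^ A ∧ 1 ≤ x :=
      (((tendsto_rpow_atTop hA).comp Real.tendsto_log_atTop).eventually_ge_atTop _).and (eventually_ge_atTop 1)
    obtain ⟨N, hN⟩ := eventually_atTop.1 hev
    refine ⟨B, N, fun n hn => ?_⟩
    obtain ⟨h3, h4⟩ := hN n hn
    have hn0 : (0 : ℝ) < n := by linarith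
    have hθ0 : 0 < (n : ℝ) ^ θ := Real.rpow_pos_of_pos hn0 θ
    have hrr : 0 < |((r 1 : ℤ) : ℝ)| := abs_pos.2 (by exact_mod_cast hρ0)
    have h5 : {h : ℤ | 0 ≤ h ∧ (h : ℝ) ≤ (n : ℝ) ^ θ ∧ r 1 ∣ h ∧ ∃ t : ℕ, ((T 2 3 r)^[t] (n + h) : ℝ) ≤ B} =
        {h : ℤ | 0 ≤ h ∧ (h : ℝ) ≤ (n : ℝ) ^ θ ∧ r 1 ∣ h} := by
      ext h
      simp only [Set.mem_ofPred_eq]
      constructor
      · rintro ⟨a1, a2, a3, -⟩
        exact ⟨a1, a2, a3⟩
      · rintro ⟨a1, a2, a3⟩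
        refine ⟨a1, a2, a3, ?_⟩
        have h6 := hB (n + h)
        push Not at h6
        obtain ⟨t, -, ht⟩ := h6 0
        exact ⟨t, ht⟩
    rw [h5]
    refine le_trans ?_ (mult_count hρ0 hθ0.le)
    exact div_le_div_of_nonneg_left hθ0.le hrr h3
  · rintro ⟨B, N, hBN⟩
    by_contra hinf
    obtain ⟨G, z, η, hz, hη, hG, hd, hGB⟩ := exc_above hr hinf B
    obtain ⟨n, hn, hlt⟩ := F2_bad h2 hθ hθ1 hA.le hz hη hG hd N
    have h3 := hBN n hn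
    have h4 : ({h : ℤ | 0 ≤ h ∧ (h : ℝ) ≤ (n : ℝ) ^ θ ∧ r 1 ∣ h ∧ ∃ t : ℕ, ((T 2 3 r)^[t] (n + h) : ℝ) ≤ B}.ncard : ℝ)
        ≤ nb (r 1) G ((n : ℝ) ^ θ) n := by
      unfold nb
      refine Nat.cast_le.2 (Set.ncard_le_ncard ?_ (fin_h _ _))
      rintro h ⟨a1, a2, a3, t, ht⟩
      exact ⟨a1, a2, a3, fun hG => absurd (hGB _ hG t) (not_lt.2 ht)⟩
    linarith

/-- (E) The exceptional set, intervals of length `n exp (-C √(log n))`. -/
theorem exc_exp {r : ℤ → ℤ} (hr : Admissible 2 3 r) (h1 : F1 (r 1)) {ε : ℝ} (hε : 0 < ε)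
    (hε1 : ε * |((r 1 : ℤ) : ℝ)| ≤ 1) : ∃ C : ℝ, 0 < C ∧ ((E 2 3 r).Finite ↔ ∃ B N : ℝ, ∀ n : ℤ, N ≤ n →
      ε * (n * Real.exp (-(C * Real.sqrt (Real.log n)))) ≤
      ({h : ℤ | 0 ≤ h ∧ (h : ℝ) ≤ n * Real.exp (-(C * Real.sqrt (Real.log n))) ∧ r 1 ∣ h ∧
        ∃ t : ℕ, ((T 2 3 r)^[t] (n + h) : ℝ) ≤ B}.ncard : ℝ)) := by
  have hρ : Odd (r 1) := odd_of_adm hr
  have hρ0 : r 1 ≠ 0 := by
    intro h
    rw [h] at hρ
    exact absurd hρ (by decide)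
  obtain ⟨C, hC, hbad⟩ := F1_bad h1 hε
  refine ⟨C, hC, ?_⟩
  constructor
  · intro hfin
    obtain ⟨B, hB⟩ := Pool.Agent.Helper8.PRE.stay_empty (le_refl 2) hr hfin
    refine ⟨B, 1, fun n hn => ?_⟩
    have hn0 : (0 : ℝ) < n := by linarith
    set Hn : ℝ := n * Real.exp (-(C * Real.sqrt (Real.log n))) with hHn
    have hHn0 : 0 < Hn := by positivity
    have hrr : 0 < |((r 1 : ℤ) : ℝ)| := abs_pos.2 (by exact_mod_cast hρ0)
    have h5 : {h : ℤ | 0 ≤ h ∧ (h : ℝ) ≤ Hn ∧ r 1 ∣ h ∧ ∃ t : ℕ, ((T 2 3 r)^[t] (n + h) : ℝ) ≤ B} =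
        {h : ℤ | 0 ≤ h ∧ (h : ℝ) ≤ Hn ∧ r 1 ∣ h} := by
      ext h
      simp only [Set.mem_ofPred_eq]
      constructor
      · rintro ⟨a1, a2, a3, -⟩
        exact ⟨a1, a2, a3⟩
      · rintro ⟨a1, a2, a3⟩
        refine ⟨a1, a2, a3, ?_⟩
        have h6 := hB (n + h)
        push Not at h6
        obtain ⟨t, -, ht⟩ := h6 0
        exact ⟨t, ht⟩
    rw [h5]
    refine le_trans ?_ (mult_count hρ0 hHn0.le)
    rw [le_div_iff₀ hrr]
    nlinarith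
  · rintro ⟨B, N, hBN⟩
    by_contra hinf
    obtain ⟨G, z, η, hz, hη, hG, hd, hGB⟩ := exc_above hr hinf B
    obtain ⟨n, hn, hlt⟩ := hbad z η hz hη G hG hd N
    have h3 := hBN n hn
    have h4 : ({h : ℤ | 0 ≤ h ∧ (h : ℝ) ≤ n * Real.exp (-(C * Real.sqrt (Real.log n))) ∧ r 1 ∣ h ∧
        ∃ t : ℕ, ((T 2 3 r)^[t] (n + h) : ℝ) ≤ B}.ncard : ℝ)
        ≤ nb (r 1) G (n * Real.exp (-(C * Real.sqrt (Real.log n)))) n := by
      unfold nb
      refine Nat.cast_le.2 (Set.ncard_le_ncard ?_ (fin_h _ _))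
      rintro h ⟨a1, a2, a3, t, ht⟩
      exact ⟨a1, a2, a3, fun hG => absurd (hGB _ hG t) (not_lt.2 ht)⟩
    linarith

/-- The complement of the set of the integers which reach `1`. -/
theorem three_compl (hall : ¬ ∀ n : ℤ, 0 < n → ∃ t : ℕ, (T 2 3 (fun _ => -1))^[t] n = 1) :
    ∃ η : ℝ, 0 < η ∧ TInv 2 3 (fun _ => (-1 : ℤ)) {n : ℤ | ∃ t : ℕ, (T 2 3 (fun _ => -1))^[t] n = 1}ᶜ 0 ∧
      ∀ᶠ x in atTop, η ≤ fd {n : ℤ | ∃ t : ℕ, (T 2 3 (fun _ => -1))^[t] n = 1}ᶜ x := by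
  have hstd := POSB.std_three
  set G : Set ℤ := {n : ℤ | ∃ t : ℕ, (T 2 3 (fun _ => -1))^[t] n = 1} with hGd
  have hG : POSB.Inv 2 3 (fun _ => (-1 : ℤ)) G := inv_reach
  obtain ⟨p, hp0, hp, hp1⟩ := POSB.three
  have hpne : p ≠ 1 := fun h => hall (hp1.1 h)
  have hple : p ≤ 1 := by
    refine le_of_tendsto hp ?_
    filter_upwards [eventually_gt_atTop 0] with x hx
    rw [div_le_one hx]
    exact cN_le G hx.le
  have hplt : 0 < 1 - p := by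
    have := lt_of_le_of_ne hple hpne
    linarith
  have hA : Tendsto (fun x : ℝ => cN Gᶜ x / x) atTop (𝓝 (1 - p)) := by
    have h1 := (POSB.cN_univ_tendsto (G := G ∪ Gᶜ) fun n _ => by
      rw [Set.union_compl_self]
      exact Set.mem_univ n).sub hp
    refine h1.congr fun x => ?_
    rw [POSB.cN_union disjoint_compl_right]
    ring
  have hdc : PL.dens Gᶜ = 1 - p :=
    tendsto_nhds_unique (POSB.tendsto_dens hstd hG.tinv.compl) hA
  have hfd := (PL.stab_tendsto hstd.hd hstd.hdm hstd.hco hstd.hr hstd.gam hstd.mix hG.tinv.compl).eventually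
    (lt_mem_nhds (by rw [hdc]; linarith : (1 - p) / 2 < PL.dens Gᶜ))
  exact ⟨(1 - p) / 2, by linarith, hG.tinv.compl, hfd.mono fun x hx => hx.le⟩

/-- (E) `3x + 1`, intervals of length `n ^ θ`. -/
theorem three_theta (h2 : F2 (-1)) {θ A : ℝ} (hθ : 0 < θ) (hθ1 : θ < 1) (hA : 0 ≤ A) :
    (∀ n : ℤ, 0 < n → ∃ t : ℕ, (T 2 3 (fun _ => -1))^[t] n = 1) ↔
      ∃ N : ℝ, ∀ n : ℤ, N ≤ n → (n : ℝ) ^ θ / Real.log n ^ A ≤
        ({h : ℤ | 0 ≤ h ∧ (h : ℝ) ≤ (n : ℝ) ^ θ ∧ ∃ t : ℕ, (T 2 3 (fun _ => -1))^[t] (n + h) = 1}.ncard : ℝ) := by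
  constructor
  · intro hall
    refine ⟨Real.exp 1, fun n hn => ?_⟩
    have hn0 : (0 : ℝ) < n := (Real.exp_pos 1).trans_le hn
    have hθ0 : 0 < (n : ℝ) ^ θ := Real.rpow_pos_of_pos hn0 θ
    have hl : 1 ≤ Real.log n := (Real.le_log_iff_exp_le hn0).2 hn
    have h5 : {h : ℤ | 0 ≤ h ∧ (h : ℝ) ≤ (n : ℝ) ^ θ ∧ ∃ t : ℕ, (T 2 3 (fun _ => -1))^[t] (n + h) = 1} =
        {h : ℤ | 0 ≤ h ∧ (h : ℝ) ≤ (n : ℝ) ^ θ ∧ (-1 : ℤ) ∣ h} := by
      ext h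
      simp only [Set.mem_ofPred_eq]
      constructor
      · rintro ⟨a1, a2, -⟩
        exact ⟨a1, a2, ⟨-h, by ring⟩⟩
      · rintro ⟨a1, a2, -⟩
        have : (0 : ℤ) < n := by exact_mod_cast hn0
        exact ⟨a1, a2, hall (n + h) (by omega)⟩
    rw [h5]
    have h6 := mult_count (ρ := -1) (by norm_num) hθ0.le
    have e : |(((-1 : ℤ) : ℤ) : ℝ)| = 1 := by norm_num
    rw [e, div_one] at h6
    refine le_trans ?_ h6
    exact div_le_self hθ0.le (Real.one_le_rpow hl hA)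
  · rintro ⟨N, hN⟩
    by_contra hall
    obtain ⟨η, hη, hG, hd⟩ := three_compl hall
    obtain ⟨n, hn, hlt⟩ := F2_bad h2 hθ hθ1 hA le_rfl hη hG hd N
    have h3 := hN n hn
    have h4 : ({h : ℤ | 0 ≤ h ∧ (h : ℝ) ≤ (n : ℝ) ^ θ ∧ ∃ t : ℕ, (T 2 3 (fun _ => -1))^[t] (n + h) = 1}.ncard : ℝ)
        ≤ nb (-1) {n : ℤ | ∃ t : ℕ, (T 2 3 (fun _ => -1))^[t] n = 1}ᶜ ((n : ℝ) ^ θ) n := by
      unfold nb
      refine Nat.cast_le.2 (Set.ncard_le_ncard ?_ (fin_h _ _))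
      rintro h ⟨a1, a2, a3⟩
      exact ⟨a1, a2, ⟨-h, by ring⟩, fun h5 => h5 a3⟩
    linarith

/-- (E) `3x + 1`, intervals of length `n exp (-C √(log n))`. -/
theorem three_exp (h1 : F1 (-1)) {ε : ℝ} (hε : 0 < ε) (hε1 : ε ≤ 1) : ∃ C : ℝ, 0 < C ∧
    ((∀ n : ℤ, 0 < n → ∃ t : ℕ, (T 2 3 (fun _ => -1))^[t] n = 1) ↔
      ∃ N : ℝ, ∀ n : ℤ, N ≤ n → ε * (n * Real.exp (-(C * Real.sqrt (Real.log n)))) ≤
        ({h : ℤ | 0 ≤ h ∧ (h : ℝ) ≤ n * Real.exp (-(C * Real.sqrt (Real.log n))) ∧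
          ∃ t : ℕ, (T 2 3 (fun _ => -1))^[t] (n + h) = 1}.ncard : ℝ)) := by
  obtain ⟨C, hC, hbad⟩ := F1_bad h1 hε
  refine ⟨C, hC, ?_⟩
  constructor
  · intro hall
    refine ⟨1, fun n hn => ?_⟩
    have hn0 : (0 : ℝ) < n := by linarith
    set Hn : ℝ := n * Real.exp (-(C * Real.sqrt (Real.log n))) with hHn
    have hHn0 : 0 < Hn := by positivity
    have h5 : {h : ℤ | 0 ≤ h ∧ (h : ℝ) ≤ Hn ∧ ∃ t : ℕ, (T 2 3 (fun _ => -1))^[t] (n + h) = 1} =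
        {h : ℤ | 0 ≤ h ∧ (h : ℝ) ≤ Hn ∧ (-1 : ℤ) ∣ h} := by
      ext h
      simp only [Set.mem_ofPred_eq]
      constructor
      · rintro ⟨a1, a2, -⟩
        exact ⟨a1, a2, ⟨-h, by ring⟩⟩
      · rintro ⟨a1, a2, -⟩
        have : (0 : ℤ) < n := by exact_mod_cast hn0
        exact ⟨a1, a2, hall (n + h) (by omega)⟩
    rw [h5]
    have h6 := mult_count (ρ := -1) (by norm_num) hHn0.le
    have e : |(((-1 : ℤ) : ℤ) : ℝ)| = 1 := by norm_num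
    rw [e, div_one] at h6
    refine le_trans ?_ h6
    nlinarith
  · rintro ⟨N, hN⟩
    by_contra hall
    obtain ⟨η, hη, hG, hd⟩ := three_compl hall
    obtain ⟨n, hn, hlt⟩ := hbad 0 η le_rfl hη _ hG hd N
    have h3 := hN n hn
    have h4 : ({h : ℤ | 0 ≤ h ∧ (h : ℝ) ≤ n * Real.exp (-(C * Real.sqrt (Real.log n))) ∧
          ∃ t : ℕ, (T 2 3 (fun _ => -1))^[t] (n + h) = 1}.ncard : ℝ)
        ≤ nb (-1) {n : ℤ | ∃ t : ℕ, (T 2 3 (fun _ => -1))^[t] n = 1}ᶜ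
          (n * Real.exp (-(C * Real.sqrt (Real.log n)))) n := by
      unfold nb
      refine Nat.cast_le.2 (Set.ncard_le_ncard ?_ (fin_h _ _))
      rintro h ⟨a1, a2, a3⟩
      exact ⟨a1, a2, ⟨-h, by ring⟩, fun h5 => h5 a3⟩
    linarith

end Pool.Agent.Helper28.NL
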