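import Pool.Agent.Helper28.NL.Def3

/-!
# NL3: F1 and F2 from `Near` and `Avg`

* `f1`: `J = K √(log x)`, `4 exp (-K² / C₂) ≤ ε / (64 |ρ|)`, `C = C₁ K + 1`.
* `f2`: `J = c log x`, `c = min (1, ε / 2, (1 - θ) / 2) / C₂`, exponent `A + 2`, `H = (2 x) ^ θ`.
-/

set_option autoImplicit false

namespace Pool.Agent.Helper28.NL

open Pool.Agent.Helper68.Moeller Pool.Agent.Helper8.ND Filter Topology

variable {ρ : ℤ}

private theorem abs_ge85 (hρ : Odd ρ) : (1 : ℝ) ≤ |(ρ : ℝ)| := by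
  have h1 : ρ ≠ 0 := by
    rintro rfl
    exact absurd hρ (by decide)
  have h2 : (1 : ℤ) ≤ |ρ| := Int.one_le_abs h1
  exact_mod_cast h2

theorem nb_mono (G : Set ℤ) {H H' : ℝ} (h : H ≤ H') (n : ℤ) : nb ρ G H n ≤ nb ρ G H' n := by
  unfold nb
  refine Nat.cast_le.2 (Set.ncard_le_ncard ?_ ?_)
  · rintro k ⟨h1, h2, h3, h4⟩
    exact ⟨h1, h2.trans h, h3, h4⟩
  · refine (Set.finite_Icc (0 : ℤ) ⌊H'⌋).subset ?_
    rintro k ⟨h1, h2, -, -⟩
    exact ⟨h1, Int.le_floor.2 h2⟩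

private theorem fin85 (x : ℝ) (P : ℤ → Prop) : {n : ℤ | x ≤ n ∧ (n : ℝ) < 2 * x ∧ P n}.Finite := by
  refine (Set.finite_Icc ⌈x⌉ ⌊2 * x⌋).subset ?_
  rintro n ⟨h1, h2, -⟩
  exact ⟨Int.ceil_le.2 h1, Int.le_floor.2 h2.le⟩

theorem f1 (hρ : Odd ρ) (hN : Near ρ) (hA : Avg ρ) : F1 ρ := by
  intro ε hε
  obtain ⟨C₁, C₂, hC₁, hC₁₂, hN⟩ := hN 4 (by norm_num)
  have hR := abs_ge85 hρ
  obtain ⟨R, hRd⟩ : ∃ R : ℝ, R = |(ρ : ℝ)| := ⟨_, rfl⟩
  rw [← hRd] at hR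
  have hC₂ : 1 ≤ C₂ := hC₁.trans hC₁₂
  have hR0 : 0 < R := by linarith
  obtain ⟨δ₁, hδ₁⟩ : ∃ δ₁ : ℝ, δ₁ = ε / (32 * R) := ⟨_, rfl⟩
  have hδ₁0 : 0 < δ₁ := by rw [hδ₁]; positivity
  obtain ⟨K, hK⟩ : ∃ K : ℝ, K = 1 + C₂ * (8 / δ₁) := ⟨_, rfl⟩
  have hK1 : 1 ≤ K := by
    rw [hK]
    have : 0 ≤ C₂ * (8 / δ₁) := by positivity
    linarith
  have hKexp : 4 * Real.exp (-(K ^ 2 / C₂)) ≤ δ₁ / 2 := by
    have h1 : 8 / δ₁ ≤ K ^ 2 / C₂ := by
      rw [le_div_iff₀ (by linarith)]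
      have h2 : K ≤ K ^ 2 := by nlinarith
      have h3 : 8 / δ₁ * C₂ ≤ K := by rw [hK]; linarith
      linarith
    have h2 : Real.exp (-(K ^ 2 / C₂)) ≤ δ₁ / 8 := by
      rw [Real.exp_neg, inv_le_comm₀ (Real.exp_pos _) (by positivity)]
      have h3 := Real.add_one_le_exp (K ^ 2 / C₂)
      have h4 : (δ₁ / 8)⁻¹ = 8 / δ₁ := by rw [inv_div]
      rw [h4]
      linarith
    linarith
  refine ⟨C₁ * K + 1, by positivity, fun z η hz hη => ?_⟩
  obtain ⟨J₀, hJ₀⟩ := hN z η hz hη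
  obtain ⟨s₀, hs₀⟩ : ∃ s₀ : ℝ, s₀ = |J₀| + C₂ * K + 2 * C₂ / δ₁ + C₁ * K + 1 + 16 * R + Real.log (8 * R) := ⟨_, rfl⟩
  have hl8 : 0 ≤ Real.log (8 * R) := Real.log_nonneg (by linarith)
  have p1 := abs_nonneg J₀
  have p2 : 0 ≤ C₂ * K := by positivity
  have p3 : 0 ≤ 2 * C₂ / δ₁ := by positivity
  have p4 : 0 ≤ C₁ * K := by positivity
  have hs₀0 : 0 ≤ s₀ := by rw [hs₀]; positivity
  refine ⟨Real.exp (s₀ ^ 2), fun G hG hfd x hx H hH hHx => ?_⟩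
  have hx0 : 0 < x := lt_of_lt_of_le (Real.exp_pos _) hx
  have hlx : s₀ ^ 2 ≤ Real.log x := by
    rw [Real.le_log_iff_exp_le hx0]
    exact hx
  obtain ⟨s, hs⟩ : ∃ s : ℝ, s = Real.sqrt (Real.log x) := ⟨_, rfl⟩
  have hss₀ : s₀ ≤ s := by rw [hs]; exact Real.le_sqrt_of_sq_le hlx
  have hlog : Real.log x = s ^ 2 := by
    rw [hs, Real.sq_sqrt ((sq_nonneg s₀).trans hlx)]
  rw [← hs] at hHx ⊢
  have hs1 : 1 ≤ s := by linarith
  have hsp : 0 < s := by linarith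
  have g1 : J₀ ≤ K * s := by
    have : |J₀| ≤ s := by linarith
    have := le_abs_self J₀
    nlinarith
  have g2 : C₂ * (K * s) ≤ Real.log x := by
    rw [hlog]
    have : C₂ * K ≤ s := by linarith
    nlinarith
  obtain ⟨a, b, ha, haL, hbad⟩ := hJ₀ G hG hfd x (K * s) hx0 g1 g2
  obtain ⟨L, hL⟩ : ∃ L : ℝ, L = x * Real.exp (-(C₁ * (K * s))) := ⟨_, rfl⟩
  obtain ⟨δ, hδ⟩ : ∃ δ : ℝ, δ = 4 * Real.exp (-(K * s) ^ 2 / (C₂ * Real.log x)) + C₂ * Real.log x * (K * s) ^ (-(4 : ℝ)) :=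
    ⟨_, rfl⟩
  rw [← hL] at haL hbad
  rw [← hδ] at hbad
  have hL0 : 0 < L := by rw [hL]; positivity
  have hLC : x * Real.exp (-((C₁ * K + 1) * s)) = L * Real.exp (-s) := by
    rw [hL, mul_assoc, ← Real.exp_add]
    congr 2
    ring
  have hes : Real.exp (-s) ≤ 1 / (8 * R) := by
    rw [Real.exp_neg, ← one_div]
    refine one_div_le_one_div_of_le (by positivity) ?_
    rw [← Real.log_le_iff_le_exp (by positivity)]
    linarith
  have hes2 : Real.exp (-s) ≤ 1 / 2 := hes.trans (one_div_le_one_div_of_le (by norm_num) (by linarith))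
  have hL16 : 16 * R ≤ L := by
    have h1 : L = Real.exp (s * (s - C₁ * K)) := by
      rw [hL]
      nth_rewrite 1 [← Real.exp_log hx0]
      rw [hlog, ← Real.exp_add]
      congr 1
      ring
    rw [h1]
    have h2 := Real.add_one_le_exp (s * (s - C₁ * K))
    have h3 : 1 ≤ s - C₁ * K := by linarith
    nlinarith
  have hδle : δ ≤ δ₁ := by
    have h1 : -(K * s) ^ 2 / (C₂ * Real.log x) = -(K ^ 2 / C₂) := by
      rw [hlog]
      field_simp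
    have h2 : C₂ * Real.log x * (K * s) ^ (-(4 : ℝ)) ≤ δ₁ / 2 := by
      have h3 : (K * s) ^ (-(4 : ℝ)) = 1 / (K * s) ^ 4 := by
        rw [Real.rpow_neg (by positivity), one_div]
        congr 1
        exact_mod_cast Real.rpow_natCast (K * s) 4
      rw [h3, hlog, mul_one_div, div_le_iff₀ (by positivity)]
      have h4 : 2 * C₂ / δ₁ ≤ s := by linarith
      rw [div_le_iff₀ hδ₁0] at h4
      have h5 : (1 : ℝ) ≤ K ^ 4 := one_le_pow₀ hK1
      have h6 : C₂ * s ^ 2 ≤ δ₁ / 2 * s ^ 3 := by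
        have : C₂ ≤ δ₁ / 2 * s := by linarith
        calc C₂ * s ^ 2 ≤ δ₁ / 2 * s * s ^ 2 := mul_le_mul_of_nonneg_right this (by positivity)
          _ = δ₁ / 2 * s ^ 3 := by ring
      have h7 : s ^ 3 ≤ (K * s) ^ 4 := by
        rw [mul_pow]
        have h8 : s ^ 3 ≤ s ^ 4 := pow_le_pow_right₀ hs1 (by norm_num)
        have h9 : s ^ 4 ≤ K ^ 4 * s ^ 4 := le_mul_of_one_le_left (by positivity) h5
        linarith
      exact h6.trans (mul_le_mul_of_nonneg_left h7 (by positivity))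
    rw [hδ, h1]
    linarith
  have hHL : H ≤ L / 2 := by
    refine hHx.trans ?_
    rw [hLC]
    have := mul_le_mul_of_nonneg_left hes2 hL0.le
    linarith
  have h1 := hA G b a L δ H hH hHL (by rw [← hRd]; exact hL16) (by rw [mul_comm]; exact hbad)
  rw [← hRd] at h1
  rw [hLC]
  have h2 : L * Real.exp (-s) ≤ L / (8 * R) := by
    have := mul_le_mul_of_nonneg_left hes hL0.le
    rwa [mul_one_div] at this
  refine h2.trans (h1.trans ?_)
  refine Nat.cast_le.2 (Set.ncard_le_ncard ?_ (fin85 _ _))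
  rintro n ⟨h3, h4, h5⟩
  refine ⟨ha.trans h3, by linarith, h5.trans ?_⟩
  refine mul_le_mul_of_nonneg_right ?_ (by linarith)
  calc 32 * R * δ ≤ 32 * R * δ₁ := mul_le_mul_of_nonneg_left hδle (by positivity)
    _ = ε := by rw [hδ₁]; field_simp

theorem f2 (hρ : Odd ρ) (hN : Near ρ) (hA : Avg ρ) : F2 ρ := by
  intro θ A ε hθ0 hθ1 hA0 hε z η hz hη
  obtain ⟨C₁, C₂, hC₁, hC₁₂, hN⟩ := hN (A + 2) (by linarith)
  have hR := abs_ge85 hρ
  obtain ⟨R, hRd⟩ : ∃ R : ℝ, R = |(ρ : ℝ)| := ⟨_, rfl⟩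
  rw [← hRd] at hR
  have hC₂ : 1 ≤ C₂ := hC₁.trans hC₁₂
  have hC₂0 : 0 < C₂ := by linarith
  have hR0 : 0 < R := by linarith
  obtain ⟨J₀, hJ₀⟩ := hN z η hz hη
  obtain ⟨c, hc⟩ : ∃ c : ℝ, c = min 1 (min ε (1 - θ) / 2) / C₂ := ⟨_, rfl⟩
  have hm0 : 0 < min ε (1 - θ) := lt_min hε (by linarith)
  have hc0 : 0 < c := by
    rw [hc]
    exact div_pos (lt_min one_pos (by linarith)) hC₂0
  have hcC : C₂ * c = min 1 (min ε (1 - θ) / 2) := by
    rw [hc]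
    field_simp
  have hc1 : C₂ * c ≤ 1 := by rw [hcC]; exact min_le_left _ _
  have hc2 : C₂ * c ≤ ε / 2 := by
    rw [hcC]
    have := min_le_left ε (1 - θ)
    exact (min_le_right _ _).trans (by linarith)
  have hc3 : C₂ * c ≤ (1 - θ) / 2 := by
    rw [hcC]
    have := min_le_right ε (1 - θ)
    exact (min_le_right _ _).trans (by linarith)
  have hc12 : C₁ * c ≤ C₂ * c := mul_le_mul_of_nonneg_right hC₁₂ hc0.le
  have hC₁c0 : 0 < C₁ * c := by positivity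
  -- the limits
  have e1 : ∀ᶠ x : ℝ in atTop, J₀ ≤ c * Real.log x :=
    (Real.tendsto_log_atTop.const_mul_atTop hc0).eventually_ge_atTop _
  have e2 : ∀ᶠ x : ℝ in atTop, 4 ≤ x ^ ((1 - θ) / 2) := (tendsto_rpow_atTop (by linarith)).eventually_ge_atTop _
  have e3 : ∀ᶠ x : ℝ in atTop, 16 * R ≤ x ^ (1 / 2 : ℝ) := (tendsto_rpow_atTop (by norm_num)).eventually_ge_atTop _
  have e4 : ∀ᶠ x : ℝ in atTop, 8 * R ≤ x ^ (ε / 2) := (tendsto_rpow_atTop (by linarith)).eventually_ge_atTop _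
  have hκ : 0 < c ^ 2 / C₂ := by positivity
  have hD : 0 < 64 * R * 2 ^ A * 8 := by positivity
  have e5 : ∀ᶠ x : ℝ in atTop, 64 * R * 2 ^ A * 8 * Real.log x ^ A ≤ x ^ (c ^ 2 / C₂) := by
    have h1 := (isLittleO_log_rpow_rpow_atTop A hκ).bound (show (0 : ℝ) < 1 / (64 * R * 2 ^ A * 8) by positivity)
    filter_upwards [h1, eventually_ge_atTop 1] with x hx hx1
    have hl : 0 ≤ Real.log x := Real.log_nonneg hx1
    rw [Real.norm_eq_abs, Real.norm_eq_abs, abs_of_nonneg (Real.rpow_nonneg hl _),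
      abs_of_nonneg (Real.rpow_nonneg (by linarith) _), one_div, ← div_eq_inv_mul, le_div_iff₀ hD] at hx
    linarith
  have e6 : ∀ᶠ x : ℝ in atTop, 64 * R * 2 ^ A * 2 * (C₂ * c ^ (-(A + 2))) ≤ Real.log x :=
    Real.tendsto_log_atTop.eventually_ge_atTop _
  have e7 : ∀ᶠ x : ℝ in atTop, 1 ≤ Real.log x := Real.tendsto_log_atTop.eventually_ge_atTop _
  obtain ⟨X, hX⟩ := eventually_atTop.1 (e1.and (e2.and (e3.and (e4.and (e5.and (e6.and (e7.and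
    (eventually_ge_atTop 2))))))))
  refine ⟨X, fun G hG hfd x hx => ?_⟩
  obtain ⟨x1, x2, x3, x4, x5, x6, x7, x8⟩ := hX x hx
  have hx0 : 0 < x := by linarith
  have hx1 : 1 ≤ x := by linarith
  have hl0 : 0 < Real.log x := by linarith
  obtain ⟨a, b, ha, haL, hbad⟩ := hJ₀ G hG hfd x (c * Real.log x) hx0 x1 (by
    rw [← mul_assoc]
    exact (mul_le_mul_of_nonneg_right hc1 hl0.le).trans (one_mul _).le)
  obtain ⟨L, hL⟩ : ∃ L : ℝ, L = x * Real.exp (-(C₁ * (c * Real.log x))) := ⟨_, rfl⟩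
  obtain ⟨δ, hδ⟩ : ∃ δ : ℝ, δ = 4 * Real.exp (-(c * Real.log x) ^ 2 / (C₂ * Real.log x)) +
    C₂ * Real.log x * (c * Real.log x) ^ (-(A + 2)) := ⟨_, rfl⟩
  rw [← hL] at haL hbad
  rw [← hδ] at hbad
  have hLx : L = x ^ (1 - C₁ * c) := by
    rw [hL, Real.rpow_sub hx0, Real.rpow_one, div_eq_mul_inv, ← Real.rpow_neg hx0.le,
      Real.rpow_def_of_pos hx0 (-(C₁ * c))]
    congr 2
    ring
  have hL0 : 0 < L := by rw [hLx]; positivity
  obtain ⟨H, hH⟩ : ∃ H : ℝ, H = (2 * x) ^ θ := ⟨_, rfl⟩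
  have hH1 : 1 ≤ H := by rw [hH]; exact Real.one_le_rpow (by linarith) hθ0.le
  have h2θ : (2 : ℝ) ^ θ ≤ 2 := by
    calc (2 : ℝ) ^ θ ≤ 2 ^ (1 : ℝ) := Real.rpow_le_rpow_of_exponent_le (by norm_num) hθ1.le
      _ = 2 := Real.rpow_one 2
  have hHx : H ≤ 2 * x ^ θ := by
    rw [hH, Real.mul_rpow (by norm_num) hx0.le]
    exact mul_le_mul_of_nonneg_right h2θ (by positivity)
  have hHL : H ≤ L / 2 := by
    have h1 : x ^ θ * x ^ ((1 - θ) / 2) ≤ L := by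
      rw [hLx, ← Real.rpow_add hx0]
      exact Real.rpow_le_rpow_of_exponent_le hx1 (by linarith)
    have h2 : x ^ θ * 4 ≤ x ^ θ * x ^ ((1 - θ) / 2) := mul_le_mul_of_nonneg_left x2 (by positivity)
    linarith
  have hL16 : 16 * R ≤ L := by
    refine x3.trans ?_
    rw [hLx]
    exact Real.rpow_le_rpow_of_exponent_le hx1 (by linarith)
  -- the error
  have hδle : 64 * R * δ * (2 * Real.log x) ^ A ≤ 1 := by
    have h1 : -(c * Real.log x) ^ 2 / (C₂ * Real.log x) = -(c ^ 2 / C₂) * Real.log x := by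
      field_simp
    have h2 : Real.exp (-(c ^ 2 / C₂) * Real.log x) = (x ^ (c ^ 2 / C₂))⁻¹ := by
      rw [← Real.rpow_neg hx0.le, Real.rpow_def_of_pos hx0]
      congr 1
      ring
    have h3 : (2 * Real.log x) ^ A = 2 ^ A * Real.log x ^ A := Real.mul_rpow (by norm_num) hl0.le
    have h4 : (c * Real.log x) ^ (-(A + 2)) = c ^ (-(A + 2)) * Real.log x ^ (-(A + 2)) :=
      Real.mul_rpow hc0.le hl0.le
    have h5 : Real.log x ^ A * (Real.log x * Real.log x ^ (-(A + 2))) = (Real.log x)⁻¹ := by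
      nth_rewrite 2 [← Real.rpow_one (Real.log x)]
      rw [← Real.rpow_add hl0, ← Real.rpow_add hl0, ← Real.rpow_neg_one]
      congr 1
      ring
    have h6 : 64 * R * 2 ^ A * 4 * Real.log x ^ A * (x ^ (c ^ 2 / C₂))⁻¹ ≤ 1 / 2 := by
      rw [← div_eq_mul_inv, div_le_iff₀ (by positivity)]
      linarith
    have h7 : 64 * R * 2 ^ A * (C₂ * c ^ (-(A + 2))) * (Real.log x)⁻¹ ≤ 1 / 2 := by
      rw [← div_eq_mul_inv, div_le_iff₀ hl0]
      linarith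
    rw [hδ, h1, h2, h3, h4]
    have e : 64 * R * (4 * (x ^ (c ^ 2 / C₂))⁻¹ + C₂ * Real.log x * (c ^ (-(A + 2)) * Real.log x ^ (-(A + 2)))) *
        (2 ^ A * Real.log x ^ A) = 64 * R * 2 ^ A * 4 * Real.log x ^ A * (x ^ (c ^ 2 / C₂))⁻¹ +
        64 * R * 2 ^ A * (C₂ * c ^ (-(A + 2))) * (Real.log x ^ A * (Real.log x * Real.log x ^ (-(A + 2)))) := by
      ring
    rw [e, h5]
    linarith
  have h1 := hA G b a L δ H hH1 hHL (by rw [← hRd]; exact hL16) (by rw [mul_comm]; exact hbad)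
  rw [← hRd] at h1
  have h2 : x ^ (1 - ε) ≤ L / (8 * R) := by
    rw [le_div_iff₀ (by positivity)]
    calc x ^ (1 - ε) * (8 * R) ≤ x ^ (1 - ε) * x ^ (ε / 2) := mul_le_mul_of_nonneg_left x4 (by positivity)
      _ = x ^ (1 - ε + ε / 2) := by rw [Real.rpow_add hx0]
      _ ≤ L := by
          rw [hLx]
          exact Real.rpow_le_rpow_of_exponent_le hx1 (by linarith)
  refine h2.trans (h1.trans ?_)
  refine Nat.cast_le.2 (Set.ncard_le_ncard ?_ (fin85 _ _))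
  rintro n ⟨h3, h4, h5⟩
  have hnx : x ≤ n := ha.trans h3
  have hn2x : (n : ℝ) < 2 * x := by linarith
  have hn0 : (0 : ℝ) < n := by linarith
  refine ⟨hnx, hn2x, ?_⟩
  have h6 : (n : ℝ) ^ θ ≤ H := by
    rw [hH]
    exact Real.rpow_le_rpow hn0.le hn2x.le hθ0.le
  refine (nb_mono G h6 n).trans (h5.trans ?_)
  have hln : 1 ≤ Real.log n := x7.trans (Real.log_le_log hx0 hnx)
  have hln2 : Real.log n ≤ 2 * Real.log x := by
    have h7 : (n : ℝ) ≤ x ^ 2 := by nlinarith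
    have h8 := Real.log_le_log hn0 h7
    rwa [Real.log_pow, Nat.cast_ofNat] at h8
  have hlA : Real.log n ^ A ≤ (2 * Real.log x) ^ A := Real.rpow_le_rpow (by linarith) hln2 hA0
  rw [le_div_iff₀ (by positivity)]
  have h7 : H ≤ 2 * (n : ℝ) ^ θ := by
    refine hHx.trans ?_
    have := Real.rpow_le_rpow hx0.le hnx hθ0.le
    linarith
  rcases le_or_gt δ 0 with hδ0 | hδ0
  · have h8 : 32 * R * δ * H * Real.log n ^ A ≤ 0 := by
      have : 0 ≤ 32 * R * H * Real.log n ^ A := by positivity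
      nlinarith
    have h9 : 0 ≤ (n : ℝ) ^ θ := by positivity
    linarith
  · calc 32 * R * δ * H * Real.log n ^ A ≤ 32 * R * δ * (2 * (n : ℝ) ^ θ) * (2 * Real.log x) ^ A := by gcongr
      _ = 64 * R * δ * (2 * Real.log x) ^ A * (n : ℝ) ^ θ := by ring
      _ ≤ 1 * (n : ℝ) ^ θ := mul_le_mul_of_nonneg_right hδle (by positivity)
      _ = (n : ℝ) ^ θ := one_mul _

end Pool.Agent.Helper28.NL
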