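import Pool.Agent.Helper28.NL.Part2
import Pool.Agent.Helper85.PW.S9

/-!
# S9b: multi-level windows synchronize

`swl_of`: `Start2 ρ → SWL ρ`. The particles of `Part2 ρ t J (t + t) a` have levels at most `3 t`; `exists_par` (`Helper85/PW/S9`) is used with the
constant `2 C` instead of `C` and with `K = K₁ + 1`: `2 t + K t = 3 t + K₁ t`, and `2 C (2 t) ≥ C (3 t) + κ / 8 t`. The digits of `sync_main` synchronize the
particles in `K₁ t` more steps.
-/

set_option autoImplicit false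

namespace Pool.Agent.Helper28.NL

open Pool.Agent.Helper68.Moeller Pool.Agent.Helper8.CO Pool.Agent.Helper8.PW Pool.Agent.Helper85.PW Finset Classical Filter

variable {ρ : ℤ}

theorem Part2_eq (L J t : ℕ) (a : ℤ) :
    Part2 ρ L J t a = (range (L + 1) ×ˢ range (J + 1)).image (fun q : ℕ × ℕ => run ρ t a (q.1, ρ * q.2)) := by
  unfold Part2
  refine image_congr fun q _ => ?_
  unfold run
  simp only
  rw [add_comm (3 ^ q.1 * a)]

theorem Cg_Part2 (hρ : Odd ρ) (L J t : ℕ) (a : ℤ) : Cg ρ (Part2 ρ L J t a) := by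
  have e : Part2 ρ L J t a = ((range (L + 1) ×ˢ range (J + 1)).image
      (fun q : ℕ × ℕ => ((q.1 : ℕ), ρ * (q.2 : ℤ)))).image (run ρ t a) := by
    rw [Part2_eq, image_image]
    rfl
  rw [e]
  refine Cg_run hρ t a ⟨1, 0, isCoprime_one_left, ?_⟩
  intro p hp
  obtain ⟨q, -, rfl⟩ := mem_image.1 hp
  exact ⟨q.2, by ring⟩

theorem fst_le_of_mem85 {L J t : ℕ} {a : ℤ} {p : ℕ × ℤ} (hp : p ∈ Part2 ρ L J t a) : p.1 ≤ L + t := by
  unfold Part2 at hp
  obtain ⟨q, hq, rfl⟩ := mem_image.1 hp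
  rw [mem_product, mem_range] at hq
  have := cnt_le_self (ρ := ρ) t (3 ^ q.1 * a + ρ * q.2)
  simp only
  omega

theorem sync_MM2 (hρ : Odd ρ) {L J t k : ℕ} {a : ℤ} (h : Sync ρ k (Part2 ρ L J t a)) :
    ∃ a' : ℤ, ∀ l i : ℕ, l ≤ L → i ≤ J → MM ρ (t + k) l a' (3 ^ l * a' + ρ * i) := by
  obtain ⟨j, hj⟩ := h
  refine ⟨a + 2 ^ t * j, fun l i hl hi => ?_⟩
  have hm : ∀ l i : ℕ, l ≤ L → i ≤ J → run ρ t a (l, ρ * i) ∈ Part2 ρ L J t a := by
    intro l i hl hi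
    rw [Part2_eq]
    exact mem_image.2 ⟨(l, i), mem_product.2 ⟨mem_range.2 (by omega), mem_range.2 (by omega)⟩, rfl⟩
  have h1 := hj _ (hm 0 0 (Nat.zero_le _) (Nat.zero_le _)) _ (hm l i hl hi)
  rw [← run_add hρ, ← run_add hρ] at h1
  unfold run at h1
  simp only [Nat.cast_zero, mul_zero, pow_zero, one_mul, zero_add, Prod.mk.injEq] at h1
  unfold MM
  rw [add_comm (3 ^ l * (a + 2 ^ t * j)) (ρ * (i : ℤ))]
  exact ⟨h1.2, by rw [add_comm _ l]; exact h1.1⟩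

theorem GoodX_two {X : ℕ × ℤ → ℝ} {κ C : ℝ} (h : GoodX X κ C) : GoodX X κ (2 * C) := by
  obtain ⟨h0, h1, h2, h3, h4, h5, h6⟩ := h
  refine ⟨h0, by linarith, h2, h3, h4, fun s => ?_, fun s s' k hk => ?_⟩
  · have := h5 s
    have h7 : (0 : ℝ) ≤ s.1 := Nat.cast_nonneg _
    nlinarith
  · have h7 := h6 s s' k hk
    have h8 : 0 ≤ Real.log ((s.1 : ℝ) + k + 3) := Real.log_nonneg (by
      have : (0 : ℝ) ≤ s.1 := Nat.cast_nonneg _
      have : (0 : ℝ) ≤ k := Nat.cast_nonneg _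
      linarith)
    have h9 : 0 ≤ C * ((k : ℝ) + 1) * Real.log ((s.1 : ℝ) + k + 3) := by positivity
    nlinarith

private theorem exp_poly85 : ∀ᶠ t : ℕ in atTop, (t : ℝ) + 1 ≤ Real.exp ((t : ℝ) / 400) := by
  have h1 := (Real.tendsto_pow_mul_exp_neg_atTop_nhds_zero 1)
  have h2 : Tendsto (fun t : ℕ => (t : ℝ) / 400) atTop atTop :=
    (tendsto_natCast_atTop_atTop (R := ℝ)).atTop_div_const (by norm_num)
  have h3 := h1.comp h2
  have h4 := h3.eventually (gt_mem_nhds (show (0 : ℝ) < 1 / 800 by norm_num))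
  filter_upwards [h4, eventually_ge_atTop 1] with t ht ht1
  simp only [Function.comp_apply, pow_one] at ht
  have ht' : (1 : ℝ) ≤ t := by exact_mod_cast ht1
  rw [Real.exp_neg, ← div_eq_mul_inv, div_lt_iff₀ (Real.exp_pos _)] at ht
  linarith

theorem swl_of (hρ : Odd ρ) (hst : Start2 ρ) : SWL ρ := by
  obtain ⟨X, κ, C, hκ1, hX⟩ := exists_goodX
  obtain ⟨CS, hCS, hstart⟩ := hst
  have hκ : 0 < κ := hX.1
  have hC : 1 ≤ C := hX.2.1
  obtain ⟨K₀, hpar⟩ := exists_par (C := 2 * C) hκ hκ1 (by linarith) hCS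
  obtain ⟨K₁, hK₁⟩ : ∃ K₁ : ℕ, K₁ = K₀ - 1 := ⟨_, rfl⟩
  refine ⟨K₁ + 2 + 400, by omega, ?_⟩
  filter_upwards [hpar, exp_poly85, eventually_ge_atTop 400] with t ht htp ht2
  obtain ⟨θ, m, η, Θ, k, N₀, hθ, hm, hη, h1, h2, h3, hk, h4, h5, hu, hN, hΨ⟩ := ht
  have ht' : (400 : ℝ) ≤ t := by exact_mod_cast ht2
  have hN1 : 1 ≤ N₀ := by
    have e1 : (1 : ℝ) ≤ (t : ℝ) ^ (3 / 5 : ℝ) := Real.one_le_rpow (by linarith) (by norm_num)
    have e2 : (1 : ℝ) ≤ N₀ := by nlinarith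
    exact_mod_cast e2
  -- `K₀ = K₁ + 1`
  have hK : K₀ = K₁ + 1 := by
    have e1 : 0 ≤ 1 / θ * Real.log N₀ := by
      have : 0 ≤ Real.log (N₀ : ℝ) := Real.log_nonneg (by exact_mod_cast hN1)
      positivity
    have e2 : 0 ≤ m * (N₀ : ℝ) := by positivity
    have e3 : 0 ≤ η * (CS * (t : ℝ) ^ 2) := by positivity
    have e4 : 0 < 2 * C * (2 * (t : ℝ)) := by positivity
    have e5 : 0 < κ / 8 * ((K₀ * t : ℕ) : ℝ) := by linarith
    rcases Nat.eq_zero_or_pos K₀ with h0 | h0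
    · rw [h0, zero_mul, Nat.cast_zero, mul_zero] at e5
      exact absurd e5 (lt_irrefl _)
    · omega
  obtain ⟨J, hJ⟩ : ∃ J : ℕ, J = ⌊Real.exp ((t : ℝ) / ((K₁ + 2 + 400 : ℕ) : ℝ))⌋₊ := ⟨_, rfl⟩
  have hJ2 : ((t : ℝ) + 1) * ((J : ℝ) + 1) ^ 2 * (98 / 100) ^ t ≤ 1 := by
    have e1 : (J : ℝ) ≤ Real.exp ((t : ℝ) / 400) := by
      rw [hJ]
      refine (Nat.floor_le (Real.exp_pos _).le).trans (Real.exp_le_exp.2 ?_)
      refine div_le_div_of_nonneg_left (by positivity) (by norm_num) ?_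
      push_cast
      have : (0 : ℝ) ≤ K₁ := by positivity
      linarith
    have e2 : (1 : ℝ) ≤ Real.exp ((t : ℝ) / 400) := Real.one_le_exp (by positivity)
    have e3 : (J : ℝ) + 1 ≤ 2 * Real.exp ((t : ℝ) / 400) := by linarith
    have e4 : ((J : ℝ) + 1) ^ 2 ≤ (2 * Real.exp ((t : ℝ) / 400)) ^ 2 :=
      pow_le_pow_left₀ (by positivity) e3 2
    have e5 : (98 / 100 : ℝ) ^ t ≤ Real.exp (-(t : ℝ) / 50) := by
      have : (98 / 100 : ℝ) ≤ Real.exp (-(1 : ℝ) / 50) := by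
        have := Real.add_one_le_exp (-(1 : ℝ) / 50)
        linarith
      calc (98 / 100 : ℝ) ^ t ≤ (Real.exp (-(1 : ℝ) / 50)) ^ t := pow_le_pow_left₀ (by norm_num) this t
        _ = Real.exp (-(t : ℝ) / 50) := by
            rw [← Real.exp_nat_mul]
            congr 1
            ring
    have e6 : (4 : ℝ) ≤ Real.exp ((t : ℝ) / 200) := by
      have e7 : Real.exp 2 ≤ Real.exp ((t : ℝ) / 200) := Real.exp_le_exp.2 (by linarith)
      have e8 : (4 : ℝ) ≤ Real.exp 2 := by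
        have := Real.add_one_le_exp (1 : ℝ)
        have e9 : Real.exp 2 = Real.exp 1 * Real.exp 1 := by
          rw [← Real.exp_add]; norm_num
        rw [e9]
        nlinarith
      linarith
    calc ((t : ℝ) + 1) * ((J : ℝ) + 1) ^ 2 * (98 / 100) ^ t
        ≤ Real.exp ((t : ℝ) / 400) * (2 * Real.exp ((t : ℝ) / 400)) ^ 2 * Real.exp (-(t : ℝ) / 50) :=
          mul_le_mul (mul_le_mul htp e4 (by positivity) (Real.exp_pos _).le) e5 (by positivity) (by positivity)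
      _ = 4 * Real.exp (-(t : ℝ) / 80) := by
          rw [mul_pow, ← Real.exp_nat_mul]
          have e7 : Real.exp ((t : ℝ) / 400) * (2 ^ 2 * Real.exp (((2 : ℕ) : ℝ) * ((t : ℝ) / 400))) *
              Real.exp (-(t : ℝ) / 50) = 4 * (Real.exp ((t : ℝ) / 400) * Real.exp (((2 : ℕ) : ℝ) * ((t : ℝ) / 400)) *
              Real.exp (-(t : ℝ) / 50)) := by ring
          rw [e7, ← Real.exp_add, ← Real.exp_add]
          congr 2
          push_cast
          ring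
      _ ≤ Real.exp ((t : ℝ) / 200) * Real.exp (-(t : ℝ) / 80) :=
          mul_le_mul_of_nonneg_right e6 (Real.exp_pos _).le
      _ ≤ 1 := by
          rw [← Real.exp_add, Real.exp_le_one_iff]
          linarith
  obtain ⟨a, hcard, hQQ⟩ := hstart t J (by omega) hJ2
  obtain ⟨P, hP⟩ : ∃ P, P = Part2 ρ t J (t + t) a := ⟨_, rfl⟩
  rw [← hP] at hcard hQQ
  have hne : P.Nonempty := by
    rw [hP, Part2_eq]
    exact ⟨_, mem_image.2 ⟨(0, 0), mem_product.2 ⟨mem_range.2 (by omega), mem_range.2 (by omega)⟩, rfl⟩⟩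
  obtain ⟨p₀, hp₀, hmax⟩ := exists_max_image P Prod.fst hne
  have hT : Top ρ P p₀ := ⟨by rw [hP]; exact Cg_Part2 hρ t J (t + t) a, hp₀, hmax⟩
  have hlev : p₀.1 ≤ 3 * t := by
    have := fst_le_of_mem85 (ρ := ρ) (L := t) (J := J) (t := t + t) (a := a) (p := p₀) (by rw [← hP]; exact hp₀)
    omega
  have hN' : P.card ≤ N₀ := by
    have : (P.card : ℝ) ≤ N₀ := hcard.trans hN
    exact_mod_cast this
  have hV := VV_init (ρ := ρ) hX hθ hp₀ hlev hN'
  have hPsi : Psi ρ X θ m η P p₀ ≤ κ / 8 * (K₁ * t : ℕ) := by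
    have e1 : m * (P.card : ℝ) ≤ m * N₀ := mul_le_mul_of_nonneg_left (by exact_mod_cast hN') hm.le
    have e2 := mul_le_mul_of_nonneg_left hQQ hη.le
    rw [hK] at hΨ
    unfold Psi
    push_cast at hV hΨ ⊢
    have e3 : κ / 8 * ((K₁ + 1) * t) = κ / 8 * (K₁ * t) + κ / 8 * t := by ring
    have e4 : κ / 8 * (t : ℝ) ≤ C * t := mul_le_mul_of_nonneg_right (by linarith) (by positivity)
    rw [e3] at hΨ
    linarith
  have hsync := sync_main hρ (GoodX_two hX) hκ1 (M := 2 * t + K₀ * t) hθ hm hη h1 h2 h3 hk h4 h5 hu (K₁ * t) hT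
    (by rw [hK]; nlinarith) hN' hPsi
  rw [hP] at hsync
  obtain ⟨a', ha'⟩ := sync_MM2 hρ hsync
  refine ⟨a', fun l j hl hj => MM_mono ?_ (ha' l j hl ?_)⟩
  · nlinarith
  · rw [hJ]
    exact Nat.le_floor hj

end Pool.Agent.Helper28.NL
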