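import Pool.Agent.Helper28.NL.Near
import Pool.Agent.Helper28.NL.Fin
import Pool.Agent.Helper28.NL.AvgP
import Pool.Agent.Helper28.NL.Equ
import Pool.Agent.Helper28.NL.S8b
import Pool.Agent.Helper28.NL.S9b
import Pool.Agent.Helper8.SI.Eq
import Pool.Agent.Helper8.PW.LD
import Pool.Agent.Helper8.PW.CF
import Pool.Agent.Helper8.PW.MIXa

/-!
# NL: everything together
-/

set_option autoImplicit false

namespace Pool.Agent.Helper28.NL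

open Pool.Agent.Helper68.Moeller Pool.Agent.Helper52.Tao Pool.Agent.Helper8 Pool.Agent.Helper8.ND Pool.Agent.Helper28
  Pool.Agent.Helper8.PW Pool.Agent.Helper91 Filter Topology

variable {ρ : ℤ}

theorem adm_const {r : ℤ → ℤ} (hr : Admissible 2 3 r) : Admissible 2 3 (fun _ => r 1) := by
  intro j hj hj2
  have : j = 1 := by
    push_cast at hj2
    omega
  subst this
  exact hr 1 hj hj2

theorem std_of {r : ℤ → ℤ} (hr : Admissible 2 3 r) : POSB.Std 2 3 r :=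
  ⟨le_refl 2, by norm_num, by norm_num, POS.three_hyp.1, hr⟩

theorem level_of {d m : ℕ} {r : ℤ → ℤ} (h : POSB.Std d m r) : LevelD d m r :=
  levelD h (class_flow h.hd h.hdm h.hco h.hr (mixS_std h))

theorem flow_of {d m : ℕ} {r : ℤ → ℤ} (h : POSB.Std d m r) : SI.FlowI d m r :=
  SI.flowI h.hd h.hdm h.hco h.hr h.mix

theorem near_of {r : ℤ → ℤ} (hr : Admissible 2 3 r) : Near (r 1) := by
  have hρ : Odd (r 1) := CO.odd_of_adm hr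
  have hstd : POSB.Std 2 3 (fun _ => r 1) := std_of (adm_const hr)
  exact near hρ (swlr hρ (swl_of hρ (start2 hρ))) (level_of hstd) hstd

theorem f1_of {r : ℤ → ℤ} (hr : Admissible 2 3 r) : F1 (r 1) :=
  f1 (CO.odd_of_adm hr) (near_of hr) (avg_prop (CO.odd_of_adm hr))

theorem f2_of {r : ℤ → ℤ} (hr : Admissible 2 3 r) : F2 (r 1) :=
  f2 (CO.odd_of_adm hr) (near_of hr) (avg_prop (CO.odd_of_adm hr))

/-- Intervals of length `n ^ θ`. -/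
theorem inv_theta {r : ℤ → ℤ} (hr : Admissible 2 3 r) {θ A ε : ℝ} (hθ0 : 0 < θ) (hθ1 : θ < 1) (hA : 0 ≤ A) (hε : 0 < ε)
    {D : ℝ} (hD : 0 < D) : ∃ X : ℝ, ∀ G : Set ℤ, POSB.Inv 2 3 r G →
      Tendsto (fun x : ℝ => cN G x / x) atTop (𝓝 D) → ∀ x : ℝ, X ≤ x →
      x ^ (1 - ε) ≤ ({n : ℤ | x ≤ n ∧ (n : ℝ) < 2 * x ∧
        nb (r 1) G ((n : ℝ) ^ θ) n ≤ (n : ℝ) ^ θ / Real.log n ^ A}.ncard : ℝ) := by
  obtain ⟨X, hX⟩ := f2_of hr θ A ε hθ0 hθ1 hA hε 0 (D / 2) le_rfl (by linarith)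
  refine ⟨X, fun G hG hGD x hx => ?_⟩
  have hG' : TInv 2 3 (fun _ => r 1) G 0 := by
    have h1 : TInv 2 3 r G 0 := hG.tinv
    rwa [TInv, CO.T_eq (r := r)] at h1
  exact hX G hG' (SI.good_of_fd (std_of (adm_const hr)) hG' hGD hD) x hx

/-- Intervals of length up to `x exp (-C √(log x))`. -/
theorem inv_exp {r : ℤ → ℤ} (hr : Admissible 2 3 r) {ε : ℝ} (hε : 0 < ε) : ∃ C : ℝ, 0 < C ∧ ∀ D : ℝ, 0 < D → ∃ X : ℝ,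
    ∀ G : Set ℤ, POSB.Inv 2 3 r G → Tendsto (fun x : ℝ => cN G x / x) atTop (𝓝 D) → ∀ x : ℝ, X ≤ x → ∀ H : ℝ, 1 ≤ H →
    H ≤ x * Real.exp (-(C * Real.sqrt (Real.log x))) →
      x * Real.exp (-(C * Real.sqrt (Real.log x))) ≤
        ({n : ℤ | x ≤ n ∧ (n : ℝ) < 2 * x ∧ nb (r 1) G H n ≤ ε * H}.ncard : ℝ) := by
  obtain ⟨C, hC, h⟩ := f1_of hr ε hε
  refine ⟨C, hC, fun D hD => ?_⟩
  obtain ⟨X, hX⟩ := h 0 (D / 2) le_rfl (by linarith)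
  refine ⟨X, fun G hG hGD x hx H hH1 hH => ?_⟩
  have hG' : TInv 2 3 (fun _ => r 1) G 0 := by
    have h1 : TInv 2 3 r G 0 := hG.tinv
    rwa [TInv, CO.T_eq (r := r)] at h1
  exact hX G hG' (SI.good_of_fd (std_of (adm_const hr)) hG' hGD hD) x hx H hH1 hH

theorem adm_three : Admissible 2 3 (fun _ => (-1 : ℤ)) := POSB.std_three.hr

/-- Intervals in which almost all integers reach `1`. -/
theorem three_most {θ A ε : ℝ} (hθ0 : 0 < θ) (hθ1 : θ < 1) (hA : 0 ≤ A) (hε : 0 < ε) : ∃ X : ℝ, ∀ x : ℝ, X ≤ x →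
    x ^ (1 - ε) ≤ ({n : ℤ | x ≤ n ∧ (n : ℝ) < 2 * x ∧
      ({h : ℤ | 0 ≤ h ∧ (h : ℝ) ≤ (n : ℝ) ^ θ ∧ ¬ ∃ t : ℕ, (T 2 3 (fun _ => -1))^[t] (n + h) = 1}.ncard : ℝ) ≤
        (n : ℝ) ^ θ / Real.log n ^ A}.ncard : ℝ) := by
  obtain ⟨p, hp0, hp, -⟩ := POSB.three
  obtain ⟨X, hX⟩ := inv_theta adm_three hθ0 hθ1 hA hε hp0
  refine ⟨X, fun x hx => (hX _ inv_reach hp x hx).trans (le_of_eq ?_)⟩
  congr 2
  ext n
  have e : {h : ℤ | 0 ≤ h ∧ (h : ℝ) ≤ (n : ℝ) ^ θ ∧ (-1 : ℤ) ∣ h ∧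
      n + h ∉ {n : ℤ | ∃ t : ℕ, (T 2 3 (fun _ => -1))^[t] n = 1}} =
      {h : ℤ | 0 ≤ h ∧ (h : ℝ) ≤ (n : ℝ) ^ θ ∧ ¬ ∃ t : ℕ, (T 2 3 (fun _ => -1))^[t] (n + h) = 1} := by
    ext h
    constructor
    · rintro ⟨h1, h2, -, h3⟩
      exact ⟨h1, h2, h3⟩
    · rintro ⟨h1, h2, h3⟩
      exact ⟨h1, h2, (Int.isUnit_iff.2 (Or.inr rfl)).dvd, h3⟩
  rw [Set.mem_ofPred_eq, Set.mem_ofPred_eq, nb, e]

/-- If not all positive integers reach `1`: intervals in which almost no integer reaches `1`. -/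
theorem three_few {θ A ε : ℝ} (hθ0 : 0 < θ) (hθ1 : θ < 1) (hA : 0 ≤ A) (hε : 0 < ε)
    (hno : ¬ ∀ n : ℤ, 0 < n → ∃ t : ℕ, (T 2 3 (fun _ => -1))^[t] n = 1) : ∃ X : ℝ, ∀ x : ℝ, X ≤ x →
    x ^ (1 - ε) ≤ ({n : ℤ | x ≤ n ∧ (n : ℝ) < 2 * x ∧
      ({h : ℤ | 0 ≤ h ∧ (h : ℝ) ≤ (n : ℝ) ^ θ ∧ ∃ t : ℕ, (T 2 3 (fun _ => -1))^[t] (n + h) = 1}.ncard : ℝ) ≤
        (n : ℝ) ^ θ / Real.log n ^ A}.ncard : ℝ) := by
  obtain ⟨η, hη, hG, hfd⟩ := three_compl hno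
  obtain ⟨X, hX⟩ := f2_of adm_three θ A ε hθ0 hθ1 hA hε 0 η le_rfl hη
  refine ⟨X, fun x hx => (hX _ hG hfd x hx).trans (le_of_eq ?_)⟩
  congr 2
  ext n
  have e : {h : ℤ | 0 ≤ h ∧ (h : ℝ) ≤ (n : ℝ) ^ θ ∧ (-1 : ℤ) ∣ h ∧
      n + h ∉ {n : ℤ | ∃ t : ℕ, (T 2 3 (fun _ => -1))^[t] n = 1}ᶜ} =
      {h : ℤ | 0 ≤ h ∧ (h : ℝ) ≤ (n : ℝ) ^ θ ∧ ∃ t : ℕ, (T 2 3 (fun _ => -1))^[t] (n + h) = 1} := by
    ext h
    constructor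
    · rintro ⟨h1, h2, -, h3⟩
      exact ⟨h1, h2, not_not.1 h3⟩
    · rintro ⟨h1, h2, h3⟩
      exact ⟨h1, h2, (Int.isUnit_iff.2 (Or.inr rfl)).dvd, not_not.2 h3⟩
  rw [Set.mem_ofPred_eq, Set.mem_ofPred_eq, nb, e]

end Pool.Agent.Helper28.NL
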