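import Pool.Agent.Helper28.NL.All

/-!
# Invariant sets in short intervals

`T n = n / d` if `d ∣ n`, `T n = (m n - r_j) / d` if `n ≡ j (mod d)`, `1 ≤ j ≤ d - 1`, as in the problem file; here `d = 2`, `m = 3`, `R = {r}`. A set `G` of
integers is invariant if `n ∈ G ↔ T n ∈ G` for all `n > 0`; such a set has a natural density `D` (`PositiveDensity`).

If `G` is invariant and `D > 0`, then for all `θ < 1`, `A` and `ε > 0`, for all large `x`, at least `x ^ (1 - ε)` of the `n ∈ [x, 2x)` have the property that all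
`n + h`, `0 ≤ h ≤ n ^ θ`, `r ∣ h`, but at most `n ^ θ / (log n) ^ A`, belong to `G`. Hence `E(2, 3, R)` is finite if and only if for some `B` and all large `n` at
least `n ^ θ / (log n) ^ A` of these `n + h` have an orbit which goes `≤ B`; in particular all positive integers reach `1` under the `3x + 1` map if and only if
at least `n ^ θ / (log n) ^ A` of the integers of each `[n, n + n ^ θ]`, `n` large, do.

Proof. `Helper28/NL`: for all intervals `[a, a + L)` the `T`-th iterates of all but few of the integers are where they should be (`Loc`, `LocV`: steps of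
`√(log x)` or `c log x` digits, `Step`, `FlowS`, Tao's estimate for the distribution of the end points of the words modulo `3 ^ S`; the number of the odd steps is
controlled by an exponential moment, `Pot`); windows of several levels: there is `a` such that the orbits of all `3 ^ l a + r j`, `l ≤ t`, `j ≤ exp (t / K)`, merge with the one of
`a` in `K t` steps (`SWL`: `Prt2`, `S8b`, `S9b`); by the level of distribution (`PowerIntervals`) some `y ∈ G` of size `exp (C J)` is in the class of `a`, and the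
interval which begins at `y 2 ^ N / 3 ^ S` is sent to the windows of `y` (`Win2`, `Near`); `Avg`, `Fin`, `Equ`, `All`.
-/

set_option autoImplicit false

namespace Pool.Agent.Helper28.NL.CutShort

open Pool.Agent.Helper68.Moeller Pool.Agent.Helper8 Pool.Agent.Helper28 Pool.Agent.Helper28.NL
  Pool.Agent.Helper8.ND Pool.Agent.Helper91 Filter Topology

/-- The natural density (in the positive integers). -/
def HasDensity (A : Set ℤ) (D : ℝ) : Prop :=
  Tendsto (fun x : ℝ => ({n : ℤ | n ∈ A ∧ 0 < n ∧ (n : ℝ) ≤ x}.ncard : ℝ) / x) atTop (𝓝 D)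

/-- `G` is invariant under `T`, in the positive integers. -/
def Inv (d m : ℕ) (r : ℤ → ℤ) (G : Set ℤ) : Prop := ∀ n : ℤ, 0 < n → (n ∈ G ↔ T d m r n ∈ G)

/-- The number of the `n ∈ [x, 2x)` with the property `P`. -/
noncomputable def num (P : ℤ → Prop) (x : ℝ) : ℝ := ({n : ℤ | x ≤ n ∧ (n : ℝ) < 2 * x ∧ P n}.ncard : ℝ)

/-- The number of the `h ∈ [0, H]` with the property `P`. -/
noncomputable def win (P : ℤ → Prop) (H : ℝ) : ℝ := ({h : ℤ | 0 ≤ h ∧ (h : ℝ) ≤ H ∧ P h}.ncard : ℝ)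

/-- **Invariant sets in short intervals.** -/
theorem result : ∀ θ A : ℝ, 0 < θ → θ < 1 → 0 < A →
    -- the maps `(3x - r) / 2`, `x / 2`: invariant sets, and the exceptional set
    (∀ r : ℤ → ℤ, Admissible 2 3 r →
      (∀ D ε : ℝ, 0 < D → 0 < ε → ∃ X : ℝ, ∀ G : Set ℤ, Inv 2 3 r G → HasDensity G D → ∀ x : ℝ, X ≤ x →
        x ^ (1 - ε) ≤ num (fun n => win (fun h => r 1 ∣ h ∧ n + h ∉ G) ((n : ℝ) ^ θ) ≤
          (n : ℝ) ^ θ / Real.log n ^ A) x) ∧
      ((E 2 3 r).Finite ↔ ∃ B N : ℝ, ∀ n : ℤ, N ≤ n → (n : ℝ) ^ θ / Real.log n ^ A ≤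
        win (fun h => r 1 ∣ h ∧ ∃ t : ℕ, ((T 2 3 r)^[t] (n + h) : ℝ) ≤ B) ((n : ℝ) ^ θ))) ∧
    -- the map `3x + 1`
    ((∀ n : ℤ, 0 < n → ∃ t : ℕ, (T 2 3 (fun _ => -1))^[t] n = 1) ↔ ∃ N : ℝ, ∀ n : ℤ, N ≤ n →
      (n : ℝ) ^ θ / Real.log n ^ A ≤ win (fun h => ∃ t : ℕ, (T 2 3 (fun _ => -1))^[t] (n + h) = 1) ((n : ℝ) ^ θ)) := by
  intro θ A hθ0 hθ1 hA
  refine ⟨?_, three_theta (f2_of (r := fun _ => -1) adm_three) hθ0 hθ1 hA.le⟩
  intro r hr
  refine ⟨?_, exc_theta hr (f2_of hr) hθ0 hθ1 hA⟩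
  intro D ε hD hε
  obtain ⟨X, hX⟩ := inv_theta hr hθ0 hθ1 hA.le hε hD
  exact ⟨X, fun G hG hGD x hx => hX G hG hGD x hx⟩

end Pool.Agent.Helper28.NL.CutShort
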