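import Pool.Agent.Helper8.CO.Def
import Pool.Agent.Helper8.ND.Flow

/-!
# Short intervals: the intermediate statements

* `SWL ρ` (NL2): multi-level windows: the orbits of all `3 ^ l a + ρ j`, `l ≤ t`, `j ≤ exp (t / K)`, merge with that of `a` in `K t` steps,
  with `l` odd steps less.
* `sd G a L`: the relative number of the elements of `G` in `[a, a + L)`.
* `cnt` is the number of the non-zero digits (`Helper68/Moeller`).
* `Loc d m r` (NL1): in all intervals `[a, a + L)` the `T`-th iterates, `T = k t`, are where they should be, and the number `S` of the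
  non-zero digits deviates by at most `J` from `(d - 1) T / d`.
-/

set_option autoImplicit false

namespace Pool.Agent.Helper28.NL

open Pool.Agent.Helper68.Moeller Pool.Agent.Helper8.CO

/-- Multi-level windows. -/
def SWL (ρ : ℤ) : Prop := ∃ K : ℕ, 0 < K ∧ ∀ᶠ t : ℕ in Filter.atTop, ∃ a : ℤ,
  ∀ l j : ℕ, l ≤ t → (j : ℝ) ≤ Real.exp (t / K) → MM ρ (K * t) l a (3 ^ l * a + ρ * j)

/-- The relative number of the elements of `G` in `[a, a + L)`. -/
noncomputable def sd (G : Set ℤ) (a L : ℝ) : ℝ :=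
  ({n : ℤ | a ≤ n ∧ (n : ℝ) < a + L ∧ n ∈ G}.ncard : ℝ) / L

/-- The points of the interval whose orbit is not where it should be after `T` steps. -/
def Bad (d m : ℕ) (r : ℤ → ℤ) (N : ℕ) (J a L : ℝ) : Set ℤ :=
  {n : ℤ | a ≤ n ∧ (n : ℝ) < a + L ∧ ¬ (
    |(cnt d m r N n : ℝ) - ((d : ℝ) - 1) / d * N| ≤ J ∧
    a * (m : ℝ) ^ cnt d m r N n / (d : ℝ) ^ N ≤ ((T d m r)^[N] n : ℝ) ∧
    ((T d m r)^[N] n : ℝ) < (a + L) * (m : ℝ) ^ cnt d m r N n / (d : ℝ) ^ N)}

/-- (NL1) The location of the iterates of the points of short intervals. -/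
def Loc (d m : ℕ) (r : ℤ → ℤ) : Prop := ∀ A : ℝ, ∃ C : ℝ, 0 < C ∧ ∀ t k : ℕ, 1 ≤ t → 1 ≤ k →
  ∀ J a L : ℝ, 0 ≤ J → J ≤ 2 * (k * t) →
    C * ((d : ℝ) * m) ^ (8 * t) * ((d : ℝ) ^ (k * t) * (m : ℝ) ^ (J - ((d : ℝ) - 1) / d * (k * t))) ≤ L →
      ((Bad d m r (k * t) J a L).ncard : ℝ) ≤
        L * (4 * Real.exp (-J ^ 2 / (4 * (k * t))) + k * (C * (t : ℝ) ^ (-A)))

end Pool.Agent.Helper28.NL
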