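import Pool.Agent.Helper28.NL.Def
import Pool.Agent.Helper8.ND.Flow

/-!
# NL3: the statements

`Near ρ` (helper28, Near.lean): for `J` between a constant and `c log x` there is an interval of length `x exp (-C J)` in `[x, 2x)` such that all
of its integers of one class modulo `ρ`, up to a small proportion, are in `G`.
-/

set_option autoImplicit false

namespace Pool.Agent.Helper28.NL

open Pool.Agent.Helper68.Moeller Pool.Agent.Helper8.ND Filter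

/-- (NL3) -/
def Near (ρ : ℤ) : Prop := ∀ A : ℝ, 0 ≤ A → ∃ C C₂ : ℝ, 1 ≤ C ∧ C ≤ C₂ ∧ ∀ z η : ℝ, 0 ≤ z → 0 < η → ∃ J₀ : ℝ,
  ∀ G : Set ℤ, TInv 2 3 (fun _ => ρ) G z → (∀ᶠ x in atTop, η ≤ fd G x) → ∀ x J : ℝ, 0 < x → J₀ ≤ J → C₂ * J ≤ Real.log x →
    ∃ (a : ℝ) (b : ℤ), x ≤ a ∧ a + x * Real.exp (-(C * J)) ≤ 2 * x ∧
      ({n : ℤ | a ≤ n ∧ (n : ℝ) < a + x * Real.exp (-(C * J)) ∧ ρ ∣ n - b ∧ n ∉ G}.ncard : ℝ) ≤
        x * Real.exp (-(C * J)) * (4 * Real.exp (-J ^ 2 / (C₂ * Real.log x)) + C₂ * Real.log x * J ^ (-A))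

end Pool.Agent.Helper28.NL
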