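import Pool.Agent.Helper28.NL.Def2

/-!
# NL3: the statements F1, F2

* `F1 ρ`: intervals of length up to `x exp (-C √(log x))`.
* `F2 ρ`: intervals of length `n ^ θ`.
Both follow from `Near ρ` and `Avg ρ` (file Fin, helper85). The equivalences (E) follow from them.
-/

set_option autoImplicit false

namespace Pool.Agent.Helper28.NL

open Pool.Agent.Helper68.Moeller Pool.Agent.Helper8.ND Filter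

/-- The number of the `h` with `0 ≤ h ≤ H`, `ρ ∣ h`, for which `n + h` is not in `G`. -/
noncomputable def nb (ρ : ℤ) (G : Set ℤ) (H : ℝ) (n : ℤ) : ℝ :=
  ({h : ℤ | 0 ≤ h ∧ (h : ℝ) ≤ H ∧ ρ ∣ h ∧ n + h ∉ G}.ncard : ℝ)

/-- (Avg) Double counting. -/
def Avg (ρ : ℤ) : Prop := ∀ (G : Set ℤ) (b : ℤ) (a L δ H : ℝ), 1 ≤ H → H ≤ L / 2 → 16 * |(ρ : ℝ)| ≤ L →
  ({n : ℤ | a ≤ n ∧ (n : ℝ) < a + L ∧ ρ ∣ n - b ∧ n ∉ G}.ncard : ℝ) ≤ δ * L →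
    L / (8 * |(ρ : ℝ)|) ≤ ({n : ℤ | a ≤ n ∧ (n : ℝ) < a + L / 2 ∧ nb ρ G H n ≤ 32 * |(ρ : ℝ)| * δ * H}.ncard : ℝ)

/-- (F1) -/
def F1 (ρ : ℤ) : Prop := ∀ ε : ℝ, 0 < ε → ∃ C : ℝ, 0 < C ∧ ∀ z η : ℝ, 0 ≤ z → 0 < η → ∃ X : ℝ,
  ∀ G : Set ℤ, TInv 2 3 (fun _ => ρ) G z → (∀ᶠ x in atTop, η ≤ fd G x) → ∀ x : ℝ, X ≤ x → ∀ H : ℝ, 1 ≤ H →
    H ≤ x * Real.exp (-(C * Real.sqrt (Real.log x))) →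
      x * Real.exp (-(C * Real.sqrt (Real.log x))) ≤
        ({n : ℤ | x ≤ n ∧ (n : ℝ) < 2 * x ∧ nb ρ G H n ≤ ε * H}.ncard : ℝ)

/-- (F2) -/
def F2 (ρ : ℤ) : Prop := ∀ θ A ε : ℝ, 0 < θ → θ < 1 → 0 ≤ A → 0 < ε → ∀ z η : ℝ, 0 ≤ z → 0 < η → ∃ X : ℝ,
  ∀ G : Set ℤ, TInv 2 3 (fun _ => ρ) G z → (∀ᶠ x in atTop, η ≤ fd G x) → ∀ x : ℝ, X ≤ x →
    x ^ (1 - ε) ≤ ({n : ℤ | x ≤ n ∧ (n : ℝ) < 2 * x ∧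
      nb ρ G ((n : ℝ) ^ θ) n ≤ (n : ℝ) ^ θ / Real.log n ^ A}.ncard : ℝ)

end Pool.Agent.Helper28.NL
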