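import Pool.Agent.Helper28.NL.Def

/-!
# NL: descent in every short interval

For all `δ ≤ 1`, `ε > 0`, `A` and all large `x` there is one `k ≤ C log x` such that `0 < T^[k] n < x ^ (1 - δ + ε)` for all but
`x ^ δ (log x) ^ (-A)` of the integers `n` of `[x, x + x ^ δ]`. From `Loc` with `t = ⌊c log x⌋`, `N = k t`, `k` constant, `J = e₁ log x / log m`.
-/

set_option autoImplicit false

namespace Pool.Agent.Helper28.NL

open Pool.Agent.Helper68.Moeller Pool.Agent.Helper8.CO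

theorem desc {d m : ℕ} {r : ℤ → ℤ} (hd : 2 ≤ d) (hdm : d < m) (hco : Nat.Coprime m d)
    (hw : (m : ℝ) ≤ (d : ℝ) ^ ((d : ℝ) / ((d : ℝ) - 1))) (hL : Loc d m r) {δ ε : ℝ} (hδ : 0 < δ) (hδ1 : δ ≤ 1) (hε : 0 < ε) (A : ℝ) :
    ∃ C X : ℝ, 0 < C ∧ ∀ x : ℝ, X ≤ x → ∃ k : ℕ, (k : ℝ) ≤ C * Real.log x ∧
      (({n : ℤ | x ≤ n ∧ (n : ℝ) ≤ x + x ^ δ ∧ ¬ (0 < (T d m r)^[k] n ∧ ((T d m r)^[k] n : ℝ) < x ^ (1 - δ + ε))}.ncard : ℕ) : ℝ) ≤
        x ^ δ * (Real.log x) ^ (-A) := by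
  have hd2 : (2 : ℝ) ≤ d := by exact_mod_cast hd
  have hd0 : (0 : ℝ) < d := by linarith
  have hdm' : (d : ℝ) < m := by exact_mod_cast hdm
  have hm0 : (0 : ℝ) < m := by linarith
  have hm1 : (1 : ℝ) < m := by linarith
  have hld : 0 < Real.log d := Real.log_pos (by linarith)
  have hlm : Real.log d < Real.log m := Real.log_lt_log hd0 hdm'
  have hlm0 : 0 < Real.log m := hld.trans hlm
  -- the drift
  obtain ⟨p, hp⟩ : ∃ p : ℝ, p = ((d : ℝ) - 1) / d := ⟨_, rfl⟩
  have hp0 : 0 < p := by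
    rw [hp]
    exact div_pos (by linarith) hd0
  obtain ⟨ν, hν⟩ : ∃ ν : ℝ, ν = Real.log d - p * Real.log m := ⟨_, rfl⟩
  have hν0 : 0 < ν := by
    have h1 := log_m_lt hd hdm hco hw
    have h2 : p * Real.log m = ((d : ℝ) - 1) * Real.log m / d := by
      rw [hp]
      ring
    rw [hν, h2, sub_pos, div_lt_iff₀ hd0]
    linarith
  have hνm : ν ≤ Real.log m := by
    have : 0 < p * Real.log m := by positivity
    linarith
  -- the constants
  obtain ⟨e, he⟩ : ∃ e : ℝ, e = min ε (δ / 2) / 8 := ⟨_, rfl⟩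
  have he0 : 0 < e := by
    rw [he]
    have := lt_min hε (half_pos hδ)
    positivity
  have he1 : 8 * e ≤ ε := by
    rw [he]
    linarith [min_le_left ε (δ / 2)]
  have he2 : 16 * e ≤ δ := by
    rw [he]
    linarith [min_le_right ε (δ / 2)]
  obtain ⟨LD, hLD⟩ : ∃ LD : ℝ, LD = Real.log ((d : ℝ) * m) := ⟨_, rfl⟩
  have hLD0 : 0 < LD := by
    rw [hLD]
    exact Real.log_pos (by nlinarith)
  obtain ⟨c, hc⟩ : ∃ c : ℝ, c = e / (8 * LD + ν) := ⟨_, rfl⟩
  have hden : 0 < 8 * LD + ν := by positivity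
  have hc0 : 0 < c := by
    rw [hc]
    positivity
  have hce : c * (8 * LD + ν) = e := by
    rw [hc, div_mul_cancel₀ _ hden.ne']
  have hcL : 8 * c * LD ≤ e := by
    have : 0 ≤ c * ν := by positivity
    linarith
  have hcν : ν * c ≤ e := by
    have : 0 ≤ 8 * c * LD := by positivity
    linarith
  obtain ⟨kk, hkk⟩ : ∃ kk : ℕ, kk = ⌊(δ - 4 * e) / (ν * c)⌋₊ := ⟨_, rfl⟩
  have hνc : 0 < ν * c := by positivity
  have hq0 : 0 ≤ (δ - 4 * e) / (ν * c) := div_nonneg (by linarith) hνc.le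
  have hkk1 : (kk : ℝ) * (ν * c) ≤ δ - 4 * e := by
    rw [← le_div_iff₀ hνc, hkk]
    exact Nat.floor_le hq0
  have hkk2 : δ - 4 * e < ((kk : ℝ) + 1) * (ν * c) := by
    rw [← div_lt_iff₀ hνc, hkk]
    exact Nat.lt_floor_add_one _
  have hkkp : 1 ≤ kk := by
    by_contra hcon
    have h1 : kk = 0 := by omega
    rw [h1] at hkk2
    push_cast at hkk2
    linarith
  obtain ⟨C₀, hC₀, hB⟩ := hL (|A| + 1)
  -- large values
  obtain ⟨c₂, hc₂⟩ : ∃ c₂ : ℝ, c₂ = e ^ 2 * ν / (4 * Real.log m ^ 2) := ⟨_, rfl⟩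
  have hc₂0 : 0 < c₂ := by
    rw [hc₂]
    positivity
  have hev : ∀ᶠ l : ℝ in Filter.atTop, l ^ A * Real.exp (-c₂ * l) < 1 / 16 :=
    (tendsto_rpow_mul_exp_neg_mul_atTop_nhds_zero A c₂ hc₂0).eventually (gt_mem_nhds (by norm_num))
  obtain ⟨l₁, hl₁⟩ := Filter.eventually_atTop.1 hev
  obtain ⟨K₁, hK₁⟩ : ∃ K₁ : ℝ, K₁ = 4 * (kk * C₀ * (c / 2) ^ (-(|A| + 1))) := ⟨_, rfl⟩
  have hK₁0 : 0 ≤ K₁ := by
    rw [hK₁]
    positivity
  obtain ⟨K₂, hK₂⟩ : ∃ K₂ : ℝ, K₂ = 3 * Real.exp (ν * kk) := ⟨_, rfl⟩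
  have hK₂0 : 0 < K₂ := by
    rw [hK₂]
    positivity
  obtain ⟨l₀, hl₀⟩ : ∃ l₀ : ℝ, l₀ = 1 + |l₁| + 2 / c + ν * kk / e + C₀ / (2 * e) + K₂ / (2 * e) + K₁ := ⟨_, rfl⟩
  have w1 : 0 ≤ |l₁| := abs_nonneg _
  have w2 : 0 ≤ 2 / c := by positivity
  have w3 : 0 ≤ ν * kk / e := by positivity
  have w4 : 0 ≤ C₀ / (2 * e) := by positivity
  have w5 : 0 ≤ K₂ / (2 * e) := by positivity
  refine ⟨1 / ν, Real.exp l₀, by positivity, fun x hx => ?_⟩
  have hx0 : 0 < x := (Real.exp_pos _).trans_le hx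
  obtain ⟨l, hl⟩ : ∃ l : ℝ, l = Real.log x := ⟨_, rfl⟩
  have hxl : x = Real.exp l := by
    rw [hl, Real.exp_log hx0]
  have hll : l₀ ≤ l := by
    rw [hxl] at hx
    exact Real.exp_le_exp.1 hx
  have hl1 : 1 ≤ l := by linarith
  have hlp : 0 < l := by linarith
  have hxpow : ∀ a : ℝ, x ^ a = Real.exp (a * l) := by
    intro a
    rw [hxl, ← Real.exp_mul]
    congr 1
    ring
  have v2 : 2 ≤ c * l := by
    have : 2 / c ≤ l := by linarith
    rw [div_le_iff₀ hc0] at this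
    linarith
  have v3 : ν * kk ≤ e * l := by
    have : ν * kk / e ≤ l := by linarith
    rw [div_le_iff₀ he0] at this
    linarith
  have v4 : C₀ ≤ Real.exp (2 * e * l) := by
    have h1 : C₀ / (2 * e) ≤ l := by linarith
    rw [div_le_iff₀ (by positivity)] at h1
    have := Real.add_one_le_exp (2 * e * l)
    linarith
  have v5 : K₂ ≤ Real.exp (2 * e * l) := by
    have h1 : K₂ / (2 * e) ≤ l := by linarith
    rw [div_le_iff₀ (by positivity)] at h1
    have := Real.add_one_le_exp (2 * e * l)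
    linarith
  obtain ⟨t, ht⟩ : ∃ t : ℕ, t = ⌊c * l⌋₊ := ⟨_, rfl⟩
  have ht1 : (t : ℝ) ≤ c * l := by
    rw [ht]
    exact Nat.floor_le (by positivity)
  have ht2 : c * l < t + 1 := by
    rw [ht]
    exact Nat.lt_floor_add_one _
  have htp : 1 ≤ t := by
    have : (1 : ℝ) ≤ t := by
      by_contra hcon
      push Not at hcon
      linarith
    exact_mod_cast this
  have htr : c / 2 * l ≤ t := by linarith
  have ht0 : (0 : ℝ) ≤ t := Nat.cast_nonneg _
  have hkk0 : (0 : ℝ) ≤ kk := Nat.cast_nonneg _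
  have hkkr : (1 : ℝ) ≤ kk := by exact_mod_cast hkkp
  have htr1 : (1 : ℝ) ≤ t := by exact_mod_cast htp
  -- the number of the steps
  obtain ⟨N, hN⟩ : ∃ N : ℝ, N = (kk : ℝ) * t := ⟨_, rfl⟩
  have hNp : 0 < N := by
    rw [hN]
    positivity
  have F1 : ν * N ≤ (δ - 4 * e) * l := by
    have h1 := mul_le_mul_of_nonneg_left ht1 (by positivity : 0 ≤ ν * kk)
    have h2 := mul_le_mul_of_nonneg_right hkk1 hlp.le
    rw [hN]
    calc ν * (kk * t) = ν * kk * t := by ring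
      _ ≤ ν * kk * (c * l) := h1
      _ = kk * (ν * c) * l := by ring
      _ ≤ _ := h2
  have F2 : (δ - 5 * e) * l - ν * kk ≤ ν * N := by
    have h1 : ν * kk * (c * l) ≤ ν * kk * (t + 1) := mul_le_mul_of_nonneg_left ht2.le (by positivity)
    have h2 := mul_le_mul_of_nonneg_right hkk2.le hlp.le
    have h3 : (ν * c) * l ≤ e * l := mul_le_mul_of_nonneg_right hcν hlp.le
    rw [hN]
    have e1 : ((kk : ℝ) + 1) * (ν * c) * l = ν * kk * (c * l) + ν * c * l := by ring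
    have e2 : ν * kk * ((t : ℝ) + 1) = ν * (kk * t) + ν * kk := by ring
    rw [e1] at h2
    rw [e2] at h1
    linarith
  obtain ⟨J, hJ⟩ : ∃ J : ℝ, J = e * l / Real.log m := ⟨_, rfl⟩
  have hJ0 : 0 ≤ J := by
    rw [hJ]
    positivity
  have hJm : J * Real.log m = e * l := by
    rw [hJ, div_mul_cancel₀ _ hlm0.ne']
  have hJ2 : J ≤ 2 * (kk * t) := by
    have h1 : e * l ≤ 2 * (ν * N) := by nlinarith
    have h2 : J * ν ≤ e * l := by
      rw [← hJm]
      exact mul_le_mul_of_nonneg_left hνm hJ0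
    have h3 : J * ν ≤ 2 * N * ν := by linarith
    have h4 := le_of_mul_le_mul_right h3 hν0
    rw [hN] at h4
    exact h4
  have hpowd : ∀ n : ℕ, (d : ℝ) ^ n = Real.exp (n * Real.log d) := by
    intro n
    rw [Real.exp_nat_mul, Real.exp_log hd0]
  have hpowm : ∀ a : ℝ, (m : ℝ) ^ a = Real.exp (a * Real.log m) := by
    intro a
    rw [Real.rpow_def_of_pos hm0]
    congr 1
    ring
  have hkt : ((kk * t : ℕ) : ℝ) = N := by
    rw [hN]
    push_cast
    ring
  have hLen : C₀ * ((d : ℝ) * m) ^ (8 * t) * ((d : ℝ) ^ (kk * t) * (m : ℝ) ^ (J - ((d : ℝ) - 1) / d * (kk * t))) ≤ 2 * x ^ δ := by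
    have h1 : ((d : ℝ) * m) ^ (8 * t) ≤ Real.exp (e * l) := by
      have h2 : ((d : ℝ) * m) ^ (8 * t) = Real.exp ((8 * t : ℕ) * LD) := by
        rw [Real.exp_nat_mul, hLD, Real.exp_log (by positivity)]
      rw [h2]
      refine Real.exp_le_exp.2 ?_
      push_cast
      have h3 := mul_le_mul_of_nonneg_right ht1 (by positivity : 0 ≤ 8 * LD)
      have h4 := mul_le_mul_of_nonneg_right hcL hlp.le
      linarith
    have h2 : (d : ℝ) ^ (kk * t) * (m : ℝ) ^ (J - ((d : ℝ) - 1) / d * (kk * t)) ≤ Real.exp ((δ - 3 * e) * l) := by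
      rw [hpowd, hpowm, ← Real.exp_add, ← hp, hkt, ← hN]
      refine Real.exp_le_exp.2 ?_
      have e1 : N * Real.log d + (J - p * N) * Real.log m = ν * N + J * Real.log m := by
        rw [hν]
        ring
      rw [e1, hJm]
      linarith
    rw [hxpow]
    calc C₀ * ((d : ℝ) * m) ^ (8 * t) * ((d : ℝ) ^ (kk * t) * (m : ℝ) ^ (J - ((d : ℝ) - 1) / d * (kk * t)))
        ≤ Real.exp (2 * e * l) * Real.exp (e * l) * Real.exp ((δ - 3 * e) * l) :=
          mul_le_mul (mul_le_mul v4 h1 (by positivity) (Real.exp_pos _).le) h2 (by positivity) (by positivity)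
      _ = Real.exp (δ * l) := by
          rw [← Real.exp_add, ← Real.exp_add]
          congr 1
          ring
      _ ≤ 2 * Real.exp (δ * l) := by linarith [Real.exp_pos (δ * l)]
  have hmain := hB t kk htp hkkp J x (2 * x ^ δ) hJ0 hJ2 hLen
  have hxδ : 0 < x ^ δ := Real.rpow_pos_of_pos hx0 _
  have hxδx : x ^ δ ≤ x := by
    rw [hxpow]
    calc Real.exp (δ * l) ≤ Real.exp l := Real.exp_le_exp.2 (by nlinarith)
      _ = x := hxl.symm
  refine ⟨kk * t, ?_, ?_⟩
  · rw [hkt, ← hl, div_mul_eq_mul_div, one_mul, le_div_iff₀ hν0]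
    have : (δ - 4 * e) * l ≤ 1 * l := mul_le_mul_of_nonneg_right (by linarith) hlp.le
    linarith
  · -- the exceptions are bad
    have hsub : {n : ℤ | x ≤ n ∧ (n : ℝ) ≤ x + x ^ δ ∧ ¬ (0 < (T d m r)^[kk * t] n ∧ ((T d m r)^[kk * t] n : ℝ) < x ^ (1 - δ + ε))} ⊆
        Bad d m r (kk * t) J x (2 * x ^ δ) := by
      rintro n ⟨hn1, hn2, hn3⟩
      refine ⟨hn1, by linarith, fun hgood => hn3 ?_⟩
      obtain ⟨g1, g2, g3⟩ := hgood
      rw [hkt, ← hp] at g1
      have hS : ((m : ℝ) ^ cnt d m r (kk * t) n) / (d : ℝ) ^ (kk * t) ≤ Real.exp (-(ν * N) + e * l) := by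
        have h1 : (m : ℝ) ^ cnt d m r (kk * t) n = Real.exp (cnt d m r (kk * t) n * Real.log m) := by
          rw [Real.exp_nat_mul, Real.exp_log hm0]
        rw [h1, hpowd, ← Real.exp_sub]
        refine Real.exp_le_exp.2 ?_
        have h2 := (abs_le.1 g1).2
        have h3 := mul_le_mul_of_nonneg_right h2 hlm0.le
        rw [sub_mul, hJm] at h3
        rw [hkt, hν]
        linarith
      have hS0 : 0 < ((m : ℝ) ^ cnt d m r (kk * t) n) / (d : ℝ) ^ (kk * t) := by positivity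
      constructor
      · have h1 : 0 < x * (m : ℝ) ^ cnt d m r (kk * t) n / (d : ℝ) ^ (kk * t) := by positivity
        have h2 := h1.trans_le g2
        exact_mod_cast h2
      · refine g3.trans_le ?_
        rw [mul_div_assoc]
        have h1 : x + 2 * x ^ δ ≤ 3 * x := by linarith
        calc (x + 2 * x ^ δ) * ((m : ℝ) ^ cnt d m r (kk * t) n / (d : ℝ) ^ (kk * t))
            ≤ 3 * x * Real.exp (-(ν * N) + e * l) := mul_le_mul h1 hS hS0.le (by positivity)
          _ ≤ 3 * x * Real.exp (-((δ - 5 * e) * l - ν * kk) + e * l) := by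
              refine mul_le_mul_of_nonneg_left (Real.exp_le_exp.2 ?_) (by positivity)
              linarith
          _ = K₂ * Real.exp ((1 - δ + 6 * e) * l) := by
              rw [hK₂, mul_assoc, mul_assoc, ← Real.exp_add]
              nth_rw 1 [hxl]
              rw [← Real.exp_add]
              congr 2
              ring
          _ ≤ Real.exp (2 * e * l) * Real.exp ((1 - δ + 6 * e) * l) := mul_le_mul_of_nonneg_right v5 (Real.exp_pos _).le
          _ = Real.exp ((1 - δ + 8 * e) * l) := by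
              rw [← Real.exp_add]
              congr 1
              ring
          _ ≤ x ^ (1 - δ + ε) := by
              rw [hxpow]
              refine Real.exp_le_exp.2 (mul_le_mul_of_nonneg_right ?_ hlp.le)
              linarith
    have hfin : (Bad d m r (kk * t) J x (2 * x ^ δ)).Finite := by
      refine (Set.finite_Icc ⌈x⌉ ⌊x + 2 * x ^ δ⌋).subset ?_
      rintro n ⟨h1, h2, -⟩
      exact ⟨Int.ceil_le.2 h1, Int.le_floor.2 h2.le⟩
    have hcard : (({n : ℤ | x ≤ n ∧ (n : ℝ) ≤ x + x ^ δ ∧ ¬ (0 < (T d m r)^[kk * t] n ∧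
        ((T d m r)^[kk * t] n : ℝ) < x ^ (1 - δ + ε))}.ncard : ℕ) : ℝ) ≤ ((Bad d m r (kk * t) J x (2 * x ^ δ)).ncard : ℝ) := by
      exact_mod_cast Set.ncard_le_ncard hsub hfin
    refine hcard.trans (hmain.trans ?_)
    rw [← hN, ← hl]
    have g1 : 4 * Real.exp (-J ^ 2 / (4 * N)) ≤ 1 / 4 * l ^ (-A) := by
      have h1 : c₂ * l ≤ J ^ 2 / (4 * N) := by
        rw [le_div_iff₀ (by positivity)]
        have h2 : N ≤ l / ν := by
          rw [le_div_iff₀ hν0]
          have : (δ - 4 * e) * l ≤ 1 * l := mul_le_mul_of_nonneg_right (by linarith) hlp.le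
          linarith
        have h3 : c₂ * l * (4 * N) ≤ c₂ * l * (4 * (l / ν)) := mul_le_mul_of_nonneg_left (by linarith) (by positivity)
        refine h3.trans (le_of_eq ?_)
        rw [hc₂, hJ]
        field_simp
      have h2 : -J ^ 2 / (4 * N) = -(J ^ 2 / (4 * N)) := by ring
      rw [h2]
      have h3 : Real.exp (-(J ^ 2 / (4 * N))) ≤ Real.exp (-c₂ * l) := Real.exp_le_exp.2 (by linarith)
      have h4 := hl₁ l (by linarith [le_abs_self l₁])
      have h5 : Real.exp (-c₂ * l) ≤ 1 / 16 * l ^ (-A) := by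
        have h6 : l ^ A * l ^ (-A) = 1 := by
          rw [← Real.rpow_add hlp, add_neg_cancel, Real.rpow_zero]
        have h7 : 0 < l ^ (-A) := Real.rpow_pos_of_pos hlp _
        calc Real.exp (-c₂ * l) = l ^ A * Real.exp (-c₂ * l) * l ^ (-A) := by
              calc Real.exp (-c₂ * l) = Real.exp (-c₂ * l) * 1 := (mul_one _).symm
                _ = Real.exp (-c₂ * l) * (l ^ A * l ^ (-A)) := by rw [h6]
                _ = _ := by ring
          _ ≤ 1 / 16 * l ^ (-A) := mul_le_mul_of_nonneg_right h4.le h7.le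
      linarith
    have g2 : (kk : ℝ) * (C₀ * (t : ℝ) ^ (-(|A| + 1))) ≤ 1 / 4 * l ^ (-A) := by
      have h1 : (t : ℝ) ^ (-(|A| + 1)) ≤ (c / 2 * l) ^ (-(|A| + 1)) :=
        Real.rpow_le_rpow_of_nonpos (by positivity) htr (by linarith [abs_nonneg A])
      have h2 : (c / 2 * l) ^ (-(|A| + 1)) = (c / 2) ^ (-(|A| + 1)) * l ^ (-(|A| + 1)) := Real.mul_rpow (by positivity) hlp.le
      have h3 : l ^ (-(|A| + 1)) ≤ l ^ (-A) * l⁻¹ := by
        have h4 : -(|A| + 1) = -|A| + -1 := by ring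
        rw [h4, Real.rpow_add hlp, Real.rpow_neg_one]
        refine mul_le_mul_of_nonneg_right ?_ (by positivity)
        exact Real.rpow_le_rpow_of_exponent_le hl1 (neg_le_neg (le_abs_self A))
      have h5 : (kk : ℝ) * (C₀ * (t : ℝ) ^ (-(|A| + 1))) ≤ K₁ / 4 * (l ^ (-A) * l⁻¹) := by
        rw [hK₁]
        calc (kk : ℝ) * (C₀ * (t : ℝ) ^ (-(|A| + 1))) ≤ kk * (C₀ * ((c / 2) ^ (-(|A| + 1)) * (l ^ (-A) * l⁻¹))) := by
              rw [h2] at h1
              have h6 : (c / 2) ^ (-(|A| + 1)) * l ^ (-(|A| + 1)) ≤ (c / 2) ^ (-(|A| + 1)) * (l ^ (-A) * l⁻¹) :=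
                mul_le_mul_of_nonneg_left h3 (by positivity)
              exact mul_le_mul_of_nonneg_left (mul_le_mul_of_nonneg_left (h1.trans h6) hC₀.le) hkk0
          _ = _ := by ring
      refine h5.trans ?_
      have h7 : K₁ * l⁻¹ ≤ 1 := by
        rw [← div_eq_mul_inv, div_le_one hlp]
        linarith
      have h8 : 0 < l ^ (-A) := Real.rpow_pos_of_pos hlp _
      have h9 := mul_le_mul_of_nonneg_right h7 h8.le
      linarith
    have g3 : 4 * Real.exp (-J ^ 2 / (4 * N)) + (kk : ℝ) * (C₀ * (t : ℝ) ^ (-(|A| + 1))) ≤ 1 / 2 * l ^ (-A) := by linarith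
    have g4 := mul_le_mul_of_nonneg_left g3 (by positivity : 0 ≤ 2 * x ^ δ)
    linarith

end Pool.Agent.Helper28.NL
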