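import Pool.Agent.Helper28.NL.Pot
import Pool.Agent.Helper52.Moeller.Passage

/-!
# NL1c: the location of the iterates of the points of short intervals
-/

set_option autoImplicit false

namespace Pool.Agent.Helper28.NL

open Pool.Agent.Helper68.Moeller Pool.Agent.Helper52.Tao Pool.Agent.Helper8.ND Pool.Agent.Helper28.BE
  Pool.Agent.Helper52.Moeller

variable {d m : ℕ} {r : ℤ → ℤ}

/-- The points which are not where they should be after `u` more steps; `s` non-zero digits before, `N` steps in total. -/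
def FailS (d m : ℕ) (r : ℤ → ℤ) (N : ℕ) (J a L : ℝ) (u s : ℕ) : Set ℤ := {z : ℤ | ¬ (
  |((s + cnt d m r u z : ℕ) : ℝ) - ((d : ℝ) - 1) / d * N| ≤ J ∧
  a * (m : ℝ) ^ (s + cnt d m r u z) / (d : ℝ) ^ N ≤ ((T d m r)^[u] z : ℝ) ∧
  ((T d m r)^[u] z : ℝ) < (a + L) * (m : ℝ) ^ (s + cnt d m r u z) / (d : ℝ) ^ N)}

theorem fail_add (N : ℕ) (J a L : ℝ) (u w s : ℕ) : FailS d m r N J a L (u + w) s =
    {z | (T d m r)^[w] z ∈ FailS d m r N J a L u (s + cnt d m r w z)} := by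
  ext z
  unfold FailS
  simp only [Set.mem_ofPred_eq]
  have h1 : cnt d m r (u + w) z = cnt d m r w z + cnt d m r u ((T d m r)^[w] z) := by
    rw [add_comm u w]
    exact cnt_add w u z
  rw [h1, Function.iterate_add_apply, ← add_assoc]

/-- The last stage. -/
theorem fail_base (hd : 2 ≤ d) (hdm : d < m) (hco : Nat.Coprime m d) (hr : Admissible d m r) {B : ℕ}
    (hB : ∀ j : ℤ, 0 < j → j < (d : ℤ) → |r j| ≤ B) {t N : ℕ} (htN : t ≤ N) {J a L μ : ℝ}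
    (hμ0 : 0 ≤ μ) (hμ : μ ≤ 1) (s : ℕ)
    (hl : ((d : ℝ) * m) ^ (8 * t) ≤ L * (m : ℝ) ^ s / (d : ℝ) ^ (N - t)) :
    sd (FailS d m r N J a L t s) (a * (m : ℝ) ^ s / (d : ℝ) ^ (N - t)) (L * (m : ℝ) ^ s / (d : ℝ) ^ (N - t)) ≤
      2 * Pot J μ (s - ((d : ℝ) - 1) / d * (N - t : ℕ)) t + (2 * B + 2) * (9 / 10) ^ t := by
  have hd1R : (1 : ℝ) ≤ d := by exact_mod_cast (by omega : 1 ≤ d)
  have hm1R : (1 : ℝ) ≤ m := by exact_mod_cast (by omega : 1 ≤ m)
  have hd2R : (2 : ℝ) ≤ d := by exact_mod_cast hd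
  have hm2R : (2 : ℝ) ≤ m := by exact_mod_cast (by omega : 2 ≤ m)
  obtain ⟨D, hD⟩ : ∃ D : ℝ, D = (d : ℝ) ^ t := ⟨_, rfl⟩
  obtain ⟨M, hM⟩ : ∃ M : ℝ, M = (m : ℝ) ^ t := ⟨_, rfl⟩
  have hD1 : 1 ≤ D := hD ▸ one_le_pow₀ hd1R
  have hM1 : 1 ≤ M := hM ▸ one_le_pow₀ hm1R
  have hD0 : 0 < D := by linarith
  have hM0 : 0 < M := by linarith
  have hDM1 : 1 ≤ D * M := one_le_mul_of_one_le_of_one_le hD1 hM1
  have hB0 : (0 : ℝ) ≤ (B : ℝ) := by positivity
  have hP8 : ((d : ℝ) * m) ^ (8 * t) = (D * M) ^ 8 := by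
    rw [hD, hM, ← mul_pow, ← pow_mul, mul_comm 8 t]
  rw [hP8] at hl
  obtain ⟨p, hp⟩ : ∃ p : ℝ, p = ((d : ℝ) - 1) / d := ⟨_, rfl⟩
  rw [← hp]
  obtain ⟨α, hα⟩ : ∃ α, α = a * (m : ℝ) ^ s / (d : ℝ) ^ (N - t) := ⟨_, rfl⟩
  obtain ⟨l, hll⟩ : ∃ l, l = L * (m : ℝ) ^ s / (d : ℝ) ^ (N - t) := ⟨_, rfl⟩
  rw [← hα, ← hll]
  rw [← hll] at hl
  have hl2 : (D * M) ^ 2 ≤ l := le_trans (pow_le_pow_right₀ hDM1 (by norm_num)) hl
  have hl1 : D ≤ l := by
    refine le_trans ?_ hl2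
    have h1 : D ≤ D * M := le_mul_of_one_le_right hD0.le hM1
    have h2 : D * M ≤ (D * M) ^ 2 := by rw [sq]; exact le_mul_of_one_le_left (by positivity) hDM1
    exact h1.trans h2
  have hl0 : 0 < l := by linarith
  have hdN : (d : ℝ) ^ N = (d : ℝ) ^ (N - t) * D := by
    rw [hD, ← pow_add]
    congr 1
    omega
  have hdN0 : (0 : ℝ) < (d : ℝ) ^ (N - t) := by positivity
  have hNt : ((N - t : ℕ) : ℝ) = N - t := by
    rw [Nat.cast_sub htN]
  -- the three parts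
  set S : Set ℕ := {k : ℕ | J < |((s + k : ℕ) : ℝ) - p * N|} with hS
  have hsub : {z : ℤ | α ≤ z ∧ (z : ℝ) < α + l ∧ z ∈ FailS d m r N J a L t s} ⊆
      {z : ℤ | α ≤ z ∧ (z : ℝ) < α + l ∧ cnt d m r t z ∈ S} ∪
      ({z : ℤ | α ≤ z ∧ (z : ℝ) < α + B * M * D} ∪
        {z : ℤ | α + l - B * M * D ≤ z ∧ (z : ℝ) < α + l - B * M * D + B * M * D}) := by
    rintro z ⟨h1, h2, h3⟩
    by_cases h4 : cnt d m r t z ∈ S
    · exact Or.inl ⟨h1, h2, h4⟩
    right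
    unfold FailS at h3
    simp only [Set.mem_ofPred_eq] at h3
    rw [hS, Set.mem_ofPred_eq, not_lt, hp] at h4
    obtain ⟨c, hc⟩ : ∃ c, c = cnt d m r t z := ⟨_, rfl⟩
    have hnear := abs_le.1 (iter_near hd hdm hr hB t z)
    rw [← hc] at h3 h4 hnear
    rw [← hD, ← hM] at hnear
    have hmc : (1 : ℝ) ≤ (m : ℝ) ^ c := one_le_pow₀ hm1R
    have hmc0 : (0 : ℝ) < (m : ℝ) ^ c := by linarith
    have e1 : a * (m : ℝ) ^ (s + c) / (d : ℝ) ^ N = α * (m : ℝ) ^ c / D := by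
      rw [hα, hdN, pow_add]
      field_simp
    have e2 : (a + L) * (m : ℝ) ^ (s + c) / (d : ℝ) ^ N = (α + l) * (m : ℝ) ^ c / D := by
      rw [hα, hll, hdN, pow_add]
      field_simp
    rw [e1, e2] at h3
    by_cases h5 : α * (m : ℝ) ^ c / D ≤ ((T d m r)^[t] z : ℝ)
    · have h6 : (α + l) * (m : ℝ) ^ c / D ≤ ((T d m r)^[t] z : ℝ) := by
        by_contra h7
        push Not at h7
        exact h3 ⟨h4, h5, h7⟩
      right
      refine ⟨?_, by linarith⟩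
      have h7 : (α + l) * (m : ℝ) ^ c / D ≤ z * (m : ℝ) ^ c / D + B * M := by linarith [hnear.2]
      have h8 : (α + l - z) * (m : ℝ) ^ c ≤ B * M * D := by
        have h9 : (α + l) * (m : ℝ) ^ c / D - z * (m : ℝ) ^ c / D = (α + l - z) * (m : ℝ) ^ c / D := by
          ring
        have h10 : (α + l - z) * (m : ℝ) ^ c / D ≤ B * M := by linarith
        rwa [div_le_iff₀ hD0] at h10
      have h9 : (α + l - z) * 1 ≤ (α + l - z) * (m : ℝ) ^ c :=
        mul_le_mul_of_nonneg_left hmc (by linarith)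
      linarith
    · push Not at h5
      left
      refine ⟨h1, ?_⟩
      have h7 : z * (m : ℝ) ^ c / D - B * M < α * (m : ℝ) ^ c / D := by linarith [hnear.1]
      have h8 : (z - α) * (m : ℝ) ^ c < B * M * D := by
        have h9 : z * (m : ℝ) ^ c / D - α * (m : ℝ) ^ c / D = (z - α) * (m : ℝ) ^ c / D := by
          ring
        have h10 : (z - α) * (m : ℝ) ^ c / D < B * M := by linarith
        rwa [div_lt_iff₀ hD0] at h10
      have h9 : (z - α) * 1 ≤ (z - α) * (m : ℝ) ^ c :=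
        mul_le_mul_of_nonneg_left hmc (by linarith)
      linarith
  have hBMD : 0 ≤ B * M * D := by positivity
  have hf1 : {z : ℤ | α ≤ z ∧ (z : ℝ) < α + l ∧ cnt d m r t z ∈ S}.Finite :=
    (finite_Ico α (α + l)).subset fun _ h => ⟨h.1, h.2.1⟩
  have hf2 := finite_Ico α (α + B * M * D)
  have hf3 := finite_Ico (α + l - B * M * D) (α + l - B * M * D + B * M * D)
  have hc1 := Set.ncard_le_ncard hsub (hf1.union (hf2.union hf3))
  have hc2 := Set.ncard_union_le {z : ℤ | α ≤ z ∧ (z : ℝ) < α + l ∧ cnt d m r t z ∈ S}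
    ({z : ℤ | α ≤ z ∧ (z : ℝ) < α + B * M * D} ∪
        {z : ℤ | α + l - B * M * D ≤ z ∧ (z : ℝ) < α + l - B * M * D + B * M * D})
  have hc3 := Set.ncard_union_le {z : ℤ | α ≤ z ∧ (z : ℝ) < α + B * M * D}
        {z : ℤ | α + l - B * M * D ≤ z ∧ (z : ℝ) < α + l - B * M * D + B * M * D}
  have hc4 := ncard_Ico_le α hBMD
  have hc5 := ncard_Ico_le (α + l - B * M * D) hBMD
  have hc6 := count_words hd hco hr t α hl0.le
    (fun k => Pot J μ (s - p * (N - t : ℕ) + (k - p * t)) 0) (fun k => (pot_pos _ _ _ _).le) S (by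
      intro k hk
      refine pot_ge_one hμ0 le_rfl ?_
      rw [hS, Set.mem_ofPred_eq] at hk
      have e : (s : ℝ) - p * (N - t : ℕ) + (k - p * t) = ((s + k : ℕ) : ℝ) - p * N := by
        rw [hNt]
        push_cast
        ring
      rw [e]
      exact hk)
  have hμ' : |μ| ≤ 1 := by rw [abs_of_nonneg hμ0]; exact hμ
  have hc7 := pot_step hd t (J := J) (δ := s - p * (N - t : ℕ)) (w := 0) hμ'
  rw [← hp, ← hD, zero_add] at hc7
  rw [← hD] at hc6
  have hc8 : ({z : ℤ | α ≤ z ∧ (z : ℝ) < α + l ∧ z ∈ FailS d m r N J a L t s}.ncard : ℝ) ≤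
      ({z : ℤ | α ≤ z ∧ (z : ℝ) < α + l ∧ cnt d m r t z ∈ S}.ncard : ℝ) +
        (({z : ℤ | α ≤ z ∧ (z : ℝ) < α + B * M * D}.ncard : ℝ) +
          ({z : ℤ | α + l - B * M * D ≤ z ∧ (z : ℝ) < α + l - B * M * D + B * M * D}.ncard : ℝ)) := by
    exact_mod_cast hc1.trans (hc2.trans (Nat.add_le_add_left hc3 _))
  obtain ⟨Q, hQ⟩ : ∃ Q : ℝ, Q = ∑ v ∈ W d t, Pot J μ (s - p * (N - t : ℕ) + (sg v - p * t)) 0 := ⟨_, rfl⟩
  have hQ0 : 0 ≤ Q := by
    rw [hQ]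
    exact Finset.sum_nonneg fun v _ => (pot_pos _ _ _ _).le
  rw [← hQ] at hc6 hc7
  have hc9 : (l / D + 1) * Q ≤ l * (2 * Pot J μ (s - p * (N - t : ℕ)) t) := by
    have h1 : 1 ≤ l / D := (one_le_div hD0).2 hl1
    calc (l / D + 1) * Q ≤ (2 * (l / D)) * Q := mul_le_mul_of_nonneg_right (by linarith) hQ0
      _ = l * (2 * (Q / D)) := by field_simp
      _ ≤ l * (2 * Pot J μ (s - p * (N - t : ℕ)) t) := by
          apply mul_le_mul_of_nonneg_left _ hl0.le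
          linarith
  have hc10 : 2 * (B * M * D + 1) ≤ l * ((2 * B + 2) * (9 / 10) ^ t) := by
    have h3 : 1 ≤ (9 / 10 : ℝ) ^ t * (D * M) := by
      rw [hD, hM, ← mul_pow, ← mul_pow]
      apply one_le_pow₀
      exact one_le_nine_tenths hd2R hm2R
    calc 2 * (B * M * D + 1) ≤ (2 * B + 2) * (D * M) := by
          have : 2 * (B * M * D + 1) = 2 * B * (D * M) + 2 := by ring
          rw [this]
          have h4 : (2 * B + 2) * (D * M) = 2 * B * (D * M) + 2 * (D * M) := by ring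
          rw [h4]
          linarith
      _ ≤ (2 * B + 2) * (D * M) * ((9 / 10 : ℝ) ^ t * (D * M)) :=
          le_mul_of_one_le_right (by positivity) h3
      _ = (D * M) ^ 2 * ((2 * B + 2) * (9 / 10) ^ t) := by ring
      _ ≤ l * ((2 * B + 2) * (9 / 10) ^ t) := mul_le_mul_of_nonneg_right hl2 (by positivity)
  unfold sd
  rw [div_le_iff₀ hl0]
  have h5 : (2 * Pot J μ (s - p * (N - t : ℕ)) t + (2 * B + 2) * (9 / 10) ^ t) * l =
      l * (2 * Pot J μ (s - p * (N - t : ℕ)) t) + l * ((2 * B + 2) * (9 / 10) ^ t) := by ring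
  rw [h5]
  linarith

/-- The lengths. -/
theorem level_len (hd : 2 ≤ d) (hdm : d < m) (hw : (m : ℝ) ≤ (d : ℝ) ^ ((d : ℝ) / ((d : ℝ) - 1)))
    {N w s : ℕ} (hwN : w ≤ N) {J L Λ : ℝ} (hΛ : 0 ≤ Λ)
    (hL : Λ * ((d : ℝ) ^ N * (m : ℝ) ^ (J - ((d : ℝ) - 1) / d * N)) ≤ L)
    (hs : -J ≤ s - ((d : ℝ) - 1) / d * (N - w : ℕ)) :
    Λ ≤ L * (m : ℝ) ^ s / (d : ℝ) ^ (N - w) := by
  have hd2R : (2 : ℝ) ≤ d := by exact_mod_cast hd
  have hd0 : (0 : ℝ) < d := by linarith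
  have hd10 : (0 : ℝ) < (d : ℝ) - 1 := by linarith
  have hm0 : (0 : ℝ) < m := by exact_mod_cast (by omega : 0 < m)
  have hm1 : (1 : ℝ) ≤ m := by exact_mod_cast (by omega : 1 ≤ m)
  obtain ⟨p, hp⟩ : ∃ p : ℝ, p = ((d : ℝ) - 1) / d := ⟨_, rfl⟩
  rw [← hp] at hL hs
  have hp0 : 0 < p := by rw [hp]; positivity
  have h1 : (m : ℝ) ^ p ≤ d := by
    calc (m : ℝ) ^ p ≤ ((d : ℝ) ^ ((d : ℝ) / ((d : ℝ) - 1))) ^ p := Real.rpow_le_rpow hm0.le hw hp0.le
      _ = (d : ℝ) ^ (1 : ℝ) := by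
          rw [← Real.rpow_mul hd0.le]
          congr 1
          rw [hp]
          field_simp
      _ = d := Real.rpow_one _
  have h2 : (m : ℝ) ^ (p * w) ≤ (d : ℝ) ^ w := by
    rw [Real.rpow_mul hm0.le, Real.rpow_natCast]
    exact pow_le_pow_left₀ (Real.rpow_nonneg hm0.le _) h1 w
  have hNw : ((N - w : ℕ) : ℝ) = N - w := by rw [Nat.cast_sub hwN]
  rw [hNw] at hs
  have h3 : (m : ℝ) ^ (-(p * w)) ≤ (m : ℝ) ^ (J - p * N + s) :=
    Real.rpow_le_rpow_of_exponent_le hm1 (by linarith)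
  have h4 : (1 : ℝ) ≤ (d : ℝ) ^ w * (m : ℝ) ^ (J - p * N + s) := by
    calc (1 : ℝ) = (m : ℝ) ^ (p * w) * (m : ℝ) ^ (-(p * w)) := by
          rw [← Real.rpow_add hm0, add_neg_cancel, Real.rpow_zero]
      _ ≤ (d : ℝ) ^ w * (m : ℝ) ^ (J - p * N + s) :=
          mul_le_mul h2 h3 (Real.rpow_nonneg hm0.le _) (by positivity)
  rw [le_div_iff₀ (by positivity)]
  have h5 : (d : ℝ) ^ N = (d : ℝ) ^ (N - w) * (d : ℝ) ^ w := by
    rw [← pow_add]
    congr 1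
    omega
  calc Λ * (d : ℝ) ^ (N - w) ≤ Λ * (d : ℝ) ^ (N - w) * ((d : ℝ) ^ w * (m : ℝ) ^ (J - p * N + s)) :=
        le_mul_of_one_le_right (by positivity) h4
    _ = Λ * ((d : ℝ) ^ N * (m : ℝ) ^ (J - p * N)) * (m : ℝ) ^ s := by
        rw [h5, Real.rpow_add hm0, Real.rpow_natCast]
        ring
    _ ≤ L * (m : ℝ) ^ s := mul_le_mul_of_nonneg_right hL (by positivity)

/-- All stages. -/
theorem fail_ind (hd : 2 ≤ d) (hdm : d < m) (hco : Nat.Coprime m d) (hr : Admissible d m r)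
    (hw : (m : ℝ) ≤ (d : ℝ) ^ ((d : ℝ) / ((d : ℝ) - 1))) (h1 : Mixing d m r) (A : ℝ) :
    ∃ C : ℝ, 1 ≤ C ∧ ∀ t : ℕ, 1 ≤ t → ∀ N : ℕ, ∀ J a L μ : ℝ, 0 ≤ μ → μ ≤ 1 →
      C * ((d : ℝ) * m) ^ (8 * t) * ((d : ℝ) ^ N * (m : ℝ) ^ (J - ((d : ℝ) - 1) / d * N)) ≤ L →
      ∀ i : ℕ, (i + 1) * t ≤ N → ∀ s : ℕ, 1 ≤ L * (m : ℝ) ^ s / (d : ℝ) ^ (N - (i + 1) * t) →
        sd (FailS d m r N J a L ((i + 1) * t) s) (a * (m : ℝ) ^ s / (d : ℝ) ^ (N - (i + 1) * t))
          (L * (m : ℝ) ^ s / (d : ℝ) ^ (N - (i + 1) * t)) ≤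
        2 * Pot J μ (s - ((d : ℝ) - 1) / d * (N - (i + 1) * t : ℕ)) ((i + 1) * t : ℕ) +
          (i + 1) * (C * (t : ℝ) ^ (-A)) := by
  obtain ⟨C1, hC1, hstep⟩ := short_step hd hdm hco hr h1 A
  obtain ⟨B, hB⟩ := FL_exists_B d r
  obtain ⟨C3, hC3, hexp⟩ := exists_C3 |A|
  have hB0 : (0 : ℝ) ≤ (B : ℝ) := by positivity
  have hBC : 0 ≤ (2 * B + 2) * C3 := by positivity
  refine ⟨C1 + (2 * B + 2) * C3, by linarith, ?_⟩
  obtain ⟨C, hC⟩ : ∃ C, C = C1 + (2 * B + 2) * C3 := ⟨_, rfl⟩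
  rw [← hC]
  have hCC1 : C1 ≤ C := by rw [hC]; linarith
  have hC1' : 1 ≤ C := hC1.trans hCC1
  intro t ht N J a L μ hμ0 hμ hL
  have ht1 : (1 : ℝ) ≤ t := by exact_mod_cast ht
  have hm0 : 0 < m := by omega
  have hd1R : (1 : ℝ) ≤ d := by exact_mod_cast (by omega : 1 ≤ d)
  have hm1R : (1 : ℝ) ≤ m := by exact_mod_cast (by omega : 1 ≤ m)
  have hdm1 : (1 : ℝ) ≤ (d : ℝ) * m := one_le_mul_of_one_le_of_one_le hd1R hm1R
  have hΛ1 : (1 : ℝ) ≤ ((d : ℝ) * m) ^ (8 * t) := one_le_pow₀ hdm1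
  have hΛ0 : (0 : ℝ) ≤ C * ((d : ℝ) * m) ^ (8 * t) := by positivity
  have hTA : (t : ℝ) ^ (-|A|) ≤ (t : ℝ) ^ (-A) :=
    Real.rpow_le_rpow_of_exponent_le ht1 (neg_le_neg (le_abs_self A))
  have hTA0 : 0 < (t : ℝ) ^ (-A) := Real.rpow_pos_of_pos (by linarith) _
  have hE0 : 0 ≤ C * (t : ℝ) ^ (-A) := by positivity
  have hμ' : |μ| ≤ 1 := by rw [abs_of_nonneg hμ0]; exact hμ
  -- the points with a small level
  have hsmall : ∀ (u w s : ℕ) (x : ℝ), w ≤ N → 1 ≤ L * (m : ℝ) ^ s / (d : ℝ) ^ (N - w) →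
      ¬ (C * ((d : ℝ) * m) ^ (8 * t) ≤ L * (m : ℝ) ^ s / (d : ℝ) ^ (N - w)) →
      sd (FailS d m r N J a L u s) x (L * (m : ℝ) ^ s / (d : ℝ) ^ (N - w)) ≤
        2 * Pot J μ (s - ((d : ℝ) - 1) / d * (N - w : ℕ)) w := by
    intro u w s x hwN h2 h3
    have h4 : s - ((d : ℝ) - 1) / d * (N - w : ℕ) < -J := by
      by_contra h5
      push Not at h5
      exact h3 (level_len hd hdm hw hwN hΛ0 hL h5)
    have h5 : 1 ≤ Pot J μ (s - ((d : ℝ) - 1) / d * (N - w : ℕ)) w := by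
      refine pot_ge_one hμ0 (Nat.cast_nonneg _) ?_
      have := neg_abs_le (s - ((d : ℝ) - 1) / d * (N - w : ℕ))
      linarith
    have h6 := sd_le (FailS d m r N J a L u s) x h2
    linarith
  intro i
  induction i with
  | zero =>
    intro hN s hs
    rw [zero_add, one_mul] at hN hs ⊢
    by_cases h3 : C * ((d : ℝ) * m) ^ (8 * t) ≤ L * (m : ℝ) ^ s / (d : ℝ) ^ (N - t)
    · have h4 : ((d : ℝ) * m) ^ (8 * t) ≤ L * (m : ℝ) ^ s / (d : ℝ) ^ (N - t) :=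
        le_trans (le_mul_of_one_le_left (by positivity) hC1') h3
      have h5 := fail_base (J := J) (a := a) hd hdm hco hr hB hN hμ0 hμ s h4
      refine h5.trans (add_le_add le_rfl ?_)
      rw [Nat.cast_zero, zero_add, one_mul]
      calc (2 * B + 2) * (9 / 10 : ℝ) ^ t ≤ (2 * B + 2) * (C3 * (t : ℝ) ^ (-A)) := by
            apply mul_le_mul_of_nonneg_left _ (by positivity)
            exact (hexp t ht).trans (mul_le_mul_of_nonneg_left hTA hC3.le)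
        _ = ((2 * B + 2) * C3) * (t : ℝ) ^ (-A) := by ring
        _ ≤ C * (t : ℝ) ^ (-A) := by
            apply mul_le_mul_of_nonneg_right _ hTA0.le
            rw [hC]
            linarith
    · have h4 := hsmall t t s (a * (m : ℝ) ^ s / (d : ℝ) ^ (N - t)) hN hs h3
      refine h4.trans (le_add_of_nonneg_right ?_)
      rw [Nat.cast_zero, zero_add, one_mul]
      exact hE0
  | succ i ih =>
    intro hN s hs
    by_cases h3 : C * ((d : ℝ) * m) ^ (8 * t) ≤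
        L * (m : ℝ) ^ s / (d : ℝ) ^ (N - (i + 1 + 1) * t)
    · have e0 : (i + 1 + 1) * t = i * t + (t + t) := by ring
      have e1 : (i + 1) * t = i * t + t := by ring
      have hN1 : (i + 1) * t ≤ N := by rw [e0] at hN; rw [e1]; omega
      have eN : N - (i + 1) * t = (N - (i + 1 + 1) * t) + t := by
        rw [e0] at hN ⊢
        rw [e1]
        omega
      have h4 : C1 * ((d : ℝ) * m) ^ (8 * t) ≤ L * (m : ℝ) ^ s / (d : ℝ) ^ (N - (i + 1 + 1) * t) :=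
        le_trans (mul_le_mul_of_nonneg_right hCC1 (by positivity)) h3
      have h5 := hstep t ht (a * (m : ℝ) ^ s / (d : ℝ) ^ (N - (i + 1 + 1) * t)) _ h4
        (fun c => FailS d m r N J a L (i * t) (s + c))
      have e2 : {n : ℤ | (T d m r)^[t + t] n ∈
          (fun c => FailS d m r N J a L (i * t) (s + c)) (cnt d m r (t + t) n)} =
          FailS d m r N J a L ((i + 1 + 1) * t) s := by
        rw [e0, fail_add]
      have e3 : ∀ v : List ℕ, {n : ℤ | (T d m r)^[t] n ∈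
          (fun c => FailS d m r N J a L (i * t) (s + c)) (sg v + cnt d m r t n)} =
          FailS d m r N J a L ((i + 1) * t) (s + sg v) := by
        intro v
        rw [e1, fail_add]
        simp only [add_assoc]
      rw [e2] at h5
      simp only [e3] at h5
      refine h5.trans ?_
      have hd0 : (0 : ℝ) < (d : ℝ) ^ t := by positivity
      have e4 : ∀ (x : ℝ) (v : List ℕ), x * (m : ℝ) ^ s / (d : ℝ) ^ (N - (i + 1 + 1) * t) *
          (m : ℝ) ^ sg v / (d : ℝ) ^ t = x * (m : ℝ) ^ (s + sg v) / (d : ℝ) ^ (N - (i + 1) * t) := by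
        intro x v
        rw [eN, pow_add, pow_add]
        field_simp
      simp only [e4]
      have h6 : ∀ v ∈ W d t, sd (FailS d m r N J a L ((i + 1) * t) (s + sg v))
          (a * (m : ℝ) ^ (s + sg v) / (d : ℝ) ^ (N - (i + 1) * t))
          (L * (m : ℝ) ^ (s + sg v) / (d : ℝ) ^ (N - (i + 1) * t)) ≤
          2 * Pot J μ (s - ((d : ℝ) - 1) / d * (N - (i + 1 + 1) * t : ℕ) +
            (sg v - ((d : ℝ) - 1) / d * t)) ((i + 1) * t : ℕ) + (i + 1) * (C * (t : ℝ) ^ (-A)) := by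
        intro v _
        have h7 : 1 ≤ L * (m : ℝ) ^ (s + sg v) / (d : ℝ) ^ (N - (i + 1) * t) := by
          rw [← e4 L v, one_le_div hd0]
          have h8 : (d : ℝ) ^ t ≤ ((d : ℝ) * m) ^ (8 * t) := by
            calc (d : ℝ) ^ t ≤ ((d : ℝ) * m) ^ t :=
                  pow_le_pow_left₀ (by linarith) (le_mul_of_one_le_right (by linarith) hm1R) t
              _ ≤ ((d : ℝ) * m) ^ (8 * t) := pow_le_pow_right₀ hdm1 (by omega)
          have h9 : (d : ℝ) ^ t ≤ L * (m : ℝ) ^ s / (d : ℝ) ^ (N - (i + 1 + 1) * t) :=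
            h8.trans (le_trans (le_mul_of_one_le_left (by positivity) hC1') h3)
          exact h9.trans (le_mul_of_one_le_right (le_trans hd0.le h9) (one_le_pow₀ hm1R))
        have h8 := ih hN1 (s + sg v) h7
        refine h8.trans (le_of_eq ?_)
        congr 3
        rw [eN]
        push_cast
        ring
      have h9 : (∑ v ∈ W d t, sd (FailS d m r N J a L ((i + 1) * t) (s + sg v))
          (a * (m : ℝ) ^ (s + sg v) / (d : ℝ) ^ (N - (i + 1) * t))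
          (L * (m : ℝ) ^ (s + sg v) / (d : ℝ) ^ (N - (i + 1) * t))) / (d : ℝ) ^ t ≤
          2 * Pot J μ (s - ((d : ℝ) - 1) / d * (N - (i + 1 + 1) * t : ℕ)) ((i + 1 + 1) * t : ℕ) +
            (i + 1) * (C * (t : ℝ) ^ (-A)) := by
        have h10 := pot_step hd t (J := J) (δ := s - ((d : ℝ) - 1) / d * (N - (i + 1 + 1) * t : ℕ))
          (w := ((i + 1) * t : ℕ)) hμ'
        have e5 : (((i + 1) * t : ℕ) : ℝ) + t = (((i + 1 + 1) * t : ℕ) : ℝ) := by
          push_cast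
          ring
        rw [e5] at h10
        refine (div_le_div_of_nonneg_right (Finset.sum_le_sum h6) hd0.le).trans ?_
        rw [Finset.sum_add_distrib, Finset.sum_const, card_W, nsmul_eq_mul, ← Finset.mul_sum, add_div,
          mul_div_assoc]
        refine add_le_add (mul_le_mul_of_nonneg_left h10 (by norm_num)) (le_of_eq ?_)
        push_cast
        field_simp
      have h10 : C1 * (t : ℝ) ^ (-A) ≤ C * (t : ℝ) ^ (-A) := mul_le_mul_of_nonneg_right hCC1 hTA0.le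
      push_cast at h9 ⊢
      linarith
    · have h4 := hsmall ((i + 1 + 1) * t) ((i + 1 + 1) * t) s
        (a * (m : ℝ) ^ s / (d : ℝ) ^ (N - (i + 1 + 1) * t)) hN hs h3
      refine h4.trans (le_add_of_nonneg_right ?_)
      positivity

/-- (NL1) -/
theorem loc (hd : 2 ≤ d) (hdm : d < m) (hco : Nat.Coprime m d) (hr : Admissible d m r)
    (hw : (m : ℝ) ≤ (d : ℝ) ^ ((d : ℝ) / ((d : ℝ) - 1))) (h1 : Mixing d m r) : Loc d m r := by
  intro A
  obtain ⟨C, hC1, h⟩ := fail_ind hd hdm hco hr hw h1 A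
  refine ⟨C, by linarith, ?_⟩
  intro t k ht hk J a L hJ hJ2 hL
  have ht1 : (1 : ℝ) ≤ t := by exact_mod_cast ht
  have hk1 : (1 : ℝ) ≤ k := by exact_mod_cast hk
  have hkt : (0 : ℝ) < k * t := by positivity
  have hd1R : (1 : ℝ) ≤ d := by exact_mod_cast (by omega : 1 ≤ d)
  have hm1R : (1 : ℝ) ≤ m := by exact_mod_cast (by omega : 1 ≤ m)
  obtain ⟨i, rfl⟩ : ∃ i, k = i + 1 := ⟨k - 1, by omega⟩
  have hμ1 : J / (2 * (((i + 1 : ℕ) : ℝ) * t)) ≤ 1 := by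
    rw [div_le_one (by positivity)]
    exact hJ2
  have hcast : (((i + 1) * t : ℕ) : ℝ) = ((i + 1 : ℕ) : ℝ) * t := by push_cast; ring
  have hL' : C * ((d : ℝ) * m) ^ (8 * t) * ((d : ℝ) ^ ((i + 1) * t) *
      (m : ℝ) ^ (J - ((d : ℝ) - 1) / d * ((i + 1) * t : ℕ))) ≤ L := by
    rw [hcast]
    exact hL
  have hlen := level_len (s := 0) (w := (i + 1) * t) hd hdm hw le_rfl (by positivity) hL' (by
    rw [Nat.sub_self, Nat.cast_zero, mul_zero, sub_zero]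
    linarith)
  rw [Nat.sub_self, pow_zero, pow_zero, mul_one, div_one] at hlen
  have hL1 : 1 ≤ L := by
    refine le_trans ?_ hlen
    exact one_le_mul_of_one_le_of_one_le hC1 (one_le_pow₀ (one_le_mul_of_one_le_of_one_le hd1R hm1R))
  have hL0 : 0 < L := by linarith
  have h2 := h t ht ((i + 1) * t) J a L (J / (2 * (((i + 1 : ℕ) : ℝ) * t))) (by positivity) hμ1 hL' i le_rfl 0
    (by rw [Nat.sub_self, pow_zero, pow_zero, mul_one, div_one]; exact hL1)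
  rw [Nat.sub_self, pow_zero, pow_zero, mul_one, div_one, mul_one, div_one, Nat.cast_zero,
    mul_zero, sub_zero, hcast] at h2
  have hset : {n : ℤ | a ≤ n ∧ (n : ℝ) < a + L ∧ n ∈ FailS d m r ((i + 1) * t) J a L ((i + 1) * t) 0} =
      Bad d m r ((i + 1) * t) J a L := by
    unfold FailS Bad
    ext n
    simp only [Set.mem_ofPred_eq, zero_add]
  unfold sd at h2
  rw [hset, div_le_iff₀ hL0] at h2
  refine h2.trans (le_of_eq ?_)
  rw [mul_comm]
  congr 2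
  · obtain ⟨y, hy⟩ : ∃ y : ℝ, y = ((i + 1 : ℕ) : ℝ) * t := ⟨_, rfl⟩
    rw [← hy] at hkt ⊢
    unfold Pot
    rw [mul_zero, neg_zero, zero_add, ← two_mul]
    have e1 : 2 * (Real.exp (-(J / (2 * y) * J)) * (2 * Real.exp ((J / (2 * y)) ^ 2 * y))) =
        4 * Real.exp (-(J / (2 * y) * J) + (J / (2 * y)) ^ 2 * y) := by
      rw [Real.exp_add]
      ring
    rw [e1]
    congr 2
    field_simp
    ring
  · push_cast
    ring

end Pool.Agent.Helper28.NL
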