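import Pool.Agent.Helper28.NL.Loc

/-!
# NL1c': the location of the iterates, with a finite exceptional set
-/

set_option autoImplicit false

namespace Pool.Agent.Helper28.NL

open Pool.Agent.Helper68.Moeller Pool.Agent.Helper52.Tao Pool.Agent.Helper8.ND Pool.Agent.Helper28.BE
  Pool.Agent.Helper52.Moeller

variable {d m : ℕ} {r : ℤ → ℤ}

/-- The points which are not where they should be after `u` more steps, or in the finite set `V`. -/
def FailV (d m : ℕ) (r : ℤ → ℤ) (N : ℕ) (J a L : ℝ) (V : Finset ℤ) (u s : ℕ) : Set ℤ :=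
  {z : ℤ | z ∈ FailS d m r N J a L u s ∨ (T d m r)^[u] z ∈ V}

theorem failV_add (N : ℕ) (J a L : ℝ) (V : Finset ℤ) (u w s : ℕ) : FailV d m r N J a L V (u + w) s =
    {z | (T d m r)^[w] z ∈ FailV d m r N J a L V u (s + cnt d m r w z)} := by
  ext z
  unfold FailV
  rw [fail_add]
  simp only [Set.mem_ofPred_eq]
  rw [Function.iterate_add_apply]

/-- Few integers are sent to a small set. -/
theorem card_preV (hd : 2 ≤ d) (hm : 0 < m) (hr : Admissible d m r) (b : ℕ) (V : Finset ℤ) (α l : ℝ) :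
    ({z : ℤ | α ≤ z ∧ (z : ℝ) < α + l ∧ (T d m r)^[b] z ∈ V}.ncard : ℝ) ≤ V.card * (d : ℝ) ^ b := by
  classical
  have hfin : {z : ℤ | α ≤ z ∧ (z : ℝ) < α + l ∧ (T d m r)^[b] z ∈ V}.Finite :=
    (finite_Ico α (α + l)).subset fun z hz => ⟨hz.1, hz.2.1⟩
  have h1 : hfin.toFinset.card ≤ (V ×ˢ W d b).card := by
    refine Finset.card_le_card_of_injOn (fun z => ((T d m r)^[b] z, wd d m r b z)) ?_ ?_
    · intro z hz
      rw [Finset.mem_coe, Set.Finite.mem_toFinset] at hz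
      rw [Finset.mem_coe, Finset.mem_product]
      exact ⟨hz.2.2, wd_mem hd r b z⟩
    · intro z _ z' _ h
      rw [Prod.mk.injEq] at h
      have e1 := wd_spec hd hr b z
      have e2 := wd_spec hd hr b z'
      rw [h.1, h.2] at e1
      rw [e1] at e2
      have h3 : (m : ℤ) ^ sg (wd d m r b z') ≠ 0 := by positivity
      have h4 : (m : ℤ) ^ sg (wd d m r b z') * z = (m : ℤ) ^ sg (wd d m r b z') * z' := by linarith
      exact mul_left_cancel₀ h3 h4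
  rw [Set.ncard_eq_toFinset_card _ hfin]
  rw [Finset.card_product, card_W] at h1
  exact_mod_cast h1

/-- The last stage. -/
theorem failV_base (hd : 2 ≤ d) (hdm : d < m) (hco : Nat.Coprime m d) (hr : Admissible d m r) {B : ℕ}
    (hB : ∀ j : ℤ, 0 < j → j < (d : ℤ) → |r j| ≤ B) {t N : ℕ} (htN : t ≤ N) {J a L μ : ℝ}
    (hμ0 : 0 ≤ μ) (hμ : μ ≤ 1) (V : Finset ℤ) (s : ℕ)
    (hl : ((d : ℝ) * m) ^ (8 * t) ≤ L * (m : ℝ) ^ s / (d : ℝ) ^ (N - t)) :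
    sd (FailV d m r N J a L V t s) (a * (m : ℝ) ^ s / (d : ℝ) ^ (N - t)) (L * (m : ℝ) ^ s / (d : ℝ) ^ (N - t)) ≤
      2 * Pot J μ (s - ((d : ℝ) - 1) / d * (N - t : ℕ)) t + (2 * B + 2) * (9 / 10) ^ t +
        V.card / ((d : ℝ) * m) ^ t := by
  have hbase := fail_base (a := a) (J := J) hd hdm hco hr hB htN hμ0 hμ s hl
  obtain ⟨α, hα⟩ : ∃ α, α = a * (m : ℝ) ^ s / (d : ℝ) ^ (N - t) := ⟨_, rfl⟩
  obtain ⟨l, hll⟩ : ∃ l, l = L * (m : ℝ) ^ s / (d : ℝ) ^ (N - t) := ⟨_, rfl⟩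
  rw [← hα, ← hll] at hbase ⊢
  rw [← hll] at hl
  have hd1R : (1 : ℝ) ≤ d := by exact_mod_cast (by omega : 1 ≤ d)
  have hm1R : (1 : ℝ) ≤ m := by exact_mod_cast (by omega : 1 ≤ m)
  have hdm1 : (1 : ℝ) ≤ (d : ℝ) * m := one_le_mul_of_one_le_of_one_le hd1R hm1R
  have hl1 : 1 ≤ l := (one_le_pow₀ hdm1).trans hl
  have hl0 : 0 < l := by linarith
  have hsub : {z : ℤ | α ≤ z ∧ (z : ℝ) < α + l ∧ z ∈ FailV d m r N J a L V t s} ⊆
      {z : ℤ | α ≤ z ∧ (z : ℝ) < α + l ∧ z ∈ FailS d m r N J a L t s} ∪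
        {z : ℤ | α ≤ z ∧ (z : ℝ) < α + l ∧ (T d m r)^[t] z ∈ V} := by
    rintro z ⟨h1, h2, h3⟩
    rcases h3 with h3 | h3
    · exact Or.inl ⟨h1, h2, h3⟩
    · exact Or.inr ⟨h1, h2, h3⟩
  have hf1 : {z : ℤ | α ≤ z ∧ (z : ℝ) < α + l ∧ z ∈ FailS d m r N J a L t s}.Finite :=
    (finite_Ico α (α + l)).subset fun _ h => ⟨h.1, h.2.1⟩
  have hf2 : {z : ℤ | α ≤ z ∧ (z : ℝ) < α + l ∧ (T d m r)^[t] z ∈ V}.Finite :=
    (finite_Ico α (α + l)).subset fun _ h => ⟨h.1, h.2.1⟩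
  have hc1 := (Set.ncard_le_ncard hsub (hf1.union hf2)).trans (Set.ncard_union_le _ _)
  have hc1' : ({z : ℤ | α ≤ z ∧ (z : ℝ) < α + l ∧ z ∈ FailV d m r N J a L V t s}.ncard : ℝ) ≤
      ({z : ℤ | α ≤ z ∧ (z : ℝ) < α + l ∧ z ∈ FailS d m r N J a L t s}.ncard : ℝ) +
        ({z : ℤ | α ≤ z ∧ (z : ℝ) < α + l ∧ (T d m r)^[t] z ∈ V}.ncard : ℝ) := by exact_mod_cast hc1
  have hc2 := card_preV hd (by omega : 0 < m) hr t V α l
  have hc3 : (V.card : ℝ) * (d : ℝ) ^ t ≤ V.card / ((d : ℝ) * m) ^ t * l := by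
    have hp : (0 : ℝ) < ((d : ℝ) * m) ^ t := by positivity
    rw [div_mul_eq_mul_div, le_div_iff₀ hp, mul_assoc]
    refine mul_le_mul_of_nonneg_left (le_trans ?_ hl) (Nat.cast_nonneg _)
    have h1 : (d : ℝ) ^ t ≤ ((d : ℝ) * m) ^ t :=
      pow_le_pow_left₀ (by linarith) (le_mul_of_one_le_right (by linarith) hm1R) t
    calc (d : ℝ) ^ t * ((d : ℝ) * m) ^ t ≤ ((d : ℝ) * m) ^ t * ((d : ℝ) * m) ^ t :=
          mul_le_mul_of_nonneg_right h1 hp.le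
      _ = ((d : ℝ) * m) ^ (2 * t) := by rw [← pow_add, two_mul]
      _ ≤ ((d : ℝ) * m) ^ (8 * t) := pow_le_pow_right₀ hdm1 (by omega)
  unfold sd at hbase ⊢
  rw [div_le_iff₀ hl0] at hbase ⊢
  have e1 : (2 * Pot J μ (s - ((d : ℝ) - 1) / d * (N - t : ℕ)) t + (2 * B + 2) * (9 / 10) ^ t +
        V.card / ((d : ℝ) * m) ^ t) * l =
      (2 * Pot J μ (s - ((d : ℝ) - 1) / d * (N - t : ℕ)) t + (2 * B + 2) * (9 / 10) ^ t) * l +
        V.card / ((d : ℝ) * m) ^ t * l := by ring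
  rw [e1]
  linarith

/-- All stages. -/
theorem failV_ind (hd : 2 ≤ d) (hdm : d < m) (hco : Nat.Coprime m d) (hr : Admissible d m r)
    (hw : (m : ℝ) ≤ (d : ℝ) ^ ((d : ℝ) / ((d : ℝ) - 1))) (h1 : Mixing d m r) (A : ℝ) :
    ∃ C : ℝ, 1 ≤ C ∧ ∀ t : ℕ, 1 ≤ t → ∀ N : ℕ, ∀ J a L μ : ℝ, ∀ V : Finset ℤ, 0 ≤ μ → μ ≤ 1 →
      C * ((d : ℝ) * m) ^ (8 * t) * ((d : ℝ) ^ N * (m : ℝ) ^ (J - ((d : ℝ) - 1) / d * N)) ≤ L →
      ∀ i : ℕ, (i + 1) * t ≤ N → ∀ s : ℕ, 1 ≤ L * (m : ℝ) ^ s / (d : ℝ) ^ (N - (i + 1) * t) →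
        sd (FailV d m r N J a L V ((i + 1) * t) s) (a * (m : ℝ) ^ s / (d : ℝ) ^ (N - (i + 1) * t))
          (L * (m : ℝ) ^ s / (d : ℝ) ^ (N - (i + 1) * t)) ≤
        2 * Pot J μ (s - ((d : ℝ) - 1) / d * (N - (i + 1) * t : ℕ)) ((i + 1) * t : ℕ) +
          V.card / ((d : ℝ) * m) ^ t + (i + 1) * (C * (t : ℝ) ^ (-A)) := by
  obtain ⟨C1, hC1, hstep⟩ := short_step hd hdm hco hr h1 A
  obtain ⟨B, hB⟩ := FL_exists_B d r
  obtain ⟨C3, hC3, hexp⟩ := exists_C3 |A|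
  have hB0 : (0 : ℝ) ≤ (B : ℝ) := by positivity
  have hBC : 0 ≤ (2 * B + 2) * C3 := by positivity
  refine ⟨C1 + (2 * B + 2) * C3, by linarith, ?_⟩
  obtain ⟨C, hC⟩ : ∃ C, C = C1 + (2 * B + 2) * C3 := ⟨_, rfl⟩
  rw [← hC]
  have hCC1 : C1 ≤ C := by rw [hC]; linarith
  have hC1' : 1 ≤ C := hC1.trans hCC1
  intro t ht N J a L μ V hμ0 hμ hL
  have ht1 : (1 : ℝ) ≤ t := by exact_mod_cast ht
  have hm0 : 0 < m := by omega
  have hd1R : (1 : ℝ) ≤ d := by exact_mod_cast (by omega : 1 ≤ d)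
  have hm1R : (1 : ℝ) ≤ m := by exact_mod_cast (by omega : 1 ≤ m)
  have hdm1 : (1 : ℝ) ≤ (d : ℝ) * m := one_le_mul_of_one_le_of_one_le hd1R hm1R
  have hΛ1 : (1 : ℝ) ≤ ((d : ℝ) * m) ^ (8 * t) := one_le_pow₀ hdm1
  have hΛ0 : (0 : ℝ) ≤ C * ((d : ℝ) * m) ^ (8 * t) := by positivity
  have hTA : (t : ℝ) ^ (-|A|) ≤ (t : ℝ) ^ (-A) :=
    Real.rpow_le_rpow_of_exponent_le ht1 (neg_le_neg (le_abs_self A))
  have hTA0 : 0 < (t : ℝ) ^ (-A) := Real.rpow_pos_of_pos (by linarith) _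
  have hE0 : 0 ≤ C * (t : ℝ) ^ (-A) := by positivity
  have hμ' : |μ| ≤ 1 := by rw [abs_of_nonneg hμ0]; exact hμ
  obtain ⟨ν, hν⟩ : ∃ ν : ℝ, ν = V.card / ((d : ℝ) * m) ^ t := ⟨_, rfl⟩
  have hν0 : 0 ≤ ν := by rw [hν]; positivity
  rw [← hν]
  -- the points with a small level
  have hsmall : ∀ (u w s : ℕ) (x : ℝ), w ≤ N → 1 ≤ L * (m : ℝ) ^ s / (d : ℝ) ^ (N - w) →
      ¬ (C * ((d : ℝ) * m) ^ (8 * t) ≤ L * (m : ℝ) ^ s / (d : ℝ) ^ (N - w)) →
      sd (FailV d m r N J a L V u s) x (L * (m : ℝ) ^ s / (d : ℝ) ^ (N - w)) ≤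
        2 * Pot J μ (s - ((d : ℝ) - 1) / d * (N - w : ℕ)) w := by
    intro u w s x hwN h2 h3
    have h4 : s - ((d : ℝ) - 1) / d * (N - w : ℕ) < -J := by
      by_contra h5
      push Not at h5
      exact h3 (level_len hd hdm hw hwN hΛ0 hL h5)
    have h5 : 1 ≤ Pot J μ (s - ((d : ℝ) - 1) / d * (N - w : ℕ)) w := by
      refine pot_ge_one hμ0 (Nat.cast_nonneg _) ?_
      have := neg_abs_le (s - ((d : ℝ) - 1) / d * (N - w : ℕ))
      linarith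
    have h6 := sd_le (FailV d m r N J a L V u s) x h2
    linarith
  intro i
  induction i with
  | zero =>
    intro hN s hs
    rw [zero_add, one_mul] at hN hs ⊢
    by_cases h3 : C * ((d : ℝ) * m) ^ (8 * t) ≤ L * (m : ℝ) ^ s / (d : ℝ) ^ (N - t)
    · have h4 : ((d : ℝ) * m) ^ (8 * t) ≤ L * (m : ℝ) ^ s / (d : ℝ) ^ (N - t) :=
        le_trans (le_mul_of_one_le_left (by positivity) hC1') h3
      have h5 := failV_base (J := J) (a := a) hd hdm hco hr hB hN hμ0 hμ V s h4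
      have h6 : (2 * B + 2) * (9 / 10 : ℝ) ^ t ≤ C * (t : ℝ) ^ (-A) := by
        calc (2 * B + 2) * (9 / 10 : ℝ) ^ t ≤ (2 * B + 2) * (C3 * (t : ℝ) ^ (-A)) := by
              apply mul_le_mul_of_nonneg_left _ (by positivity)
              exact (hexp t ht).trans (mul_le_mul_of_nonneg_left hTA hC3.le)
          _ = ((2 * B + 2) * C3) * (t : ℝ) ^ (-A) := by ring
          _ ≤ C * (t : ℝ) ^ (-A) := by
              apply mul_le_mul_of_nonneg_right _ hTA0.le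
              rw [hC]
              linarith
      rw [← hν] at h5
      rw [Nat.cast_zero, zero_add, one_mul]
      linarith
    · have h4 := hsmall t t s (a * (m : ℝ) ^ s / (d : ℝ) ^ (N - t)) hN hs h3
      rw [Nat.cast_zero, zero_add, one_mul]
      linarith
  | succ i ih =>
    intro hN s hs
    by_cases h3 : C * ((d : ℝ) * m) ^ (8 * t) ≤
        L * (m : ℝ) ^ s / (d : ℝ) ^ (N - (i + 1 + 1) * t)
    · have e0 : (i + 1 + 1) * t = i * t + (t + t) := by ring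
      have e1 : (i + 1) * t = i * t + t := by ring
      have hN1 : (i + 1) * t ≤ N := by rw [e0] at hN; rw [e1]; omega
      have eN : N - (i + 1) * t = (N - (i + 1 + 1) * t) + t := by
        rw [e0] at hN ⊢
        rw [e1]
        omega
      have h4 : C1 * ((d : ℝ) * m) ^ (8 * t) ≤ L * (m : ℝ) ^ s / (d : ℝ) ^ (N - (i + 1 + 1) * t) :=
        le_trans (mul_le_mul_of_nonneg_right hCC1 (by positivity)) h3
      have h5 := hstep t ht (a * (m : ℝ) ^ s / (d : ℝ) ^ (N - (i + 1 + 1) * t)) _ h4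
        (fun c => FailV d m r N J a L V (i * t) (s + c))
      have e2 : {n : ℤ | (T d m r)^[t + t] n ∈
          (fun c => FailV d m r N J a L V (i * t) (s + c)) (cnt d m r (t + t) n)} =
          FailV d m r N J a L V ((i + 1 + 1) * t) s := by
        rw [e0, failV_add]
      have e3 : ∀ v : List ℕ, {n : ℤ | (T d m r)^[t] n ∈
          (fun c => FailV d m r N J a L V (i * t) (s + c)) (sg v + cnt d m r t n)} =
          FailV d m r N J a L V ((i + 1) * t) (s + sg v) := by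
        intro v
        rw [e1, failV_add]
        simp only [add_assoc]
      rw [e2] at h5
      simp only [e3] at h5
      refine h5.trans ?_
      have hd0 : (0 : ℝ) < (d : ℝ) ^ t := by positivity
      have e4 : ∀ (x : ℝ) (v : List ℕ), x * (m : ℝ) ^ s / (d : ℝ) ^ (N - (i + 1 + 1) * t) *
          (m : ℝ) ^ sg v / (d : ℝ) ^ t = x * (m : ℝ) ^ (s + sg v) / (d : ℝ) ^ (N - (i + 1) * t) := by
        intro x v
        rw [eN, pow_add, pow_add]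
        field_simp
      simp only [e4]
      have h6 : ∀ v ∈ W d t, sd (FailV d m r N J a L V ((i + 1) * t) (s + sg v))
          (a * (m : ℝ) ^ (s + sg v) / (d : ℝ) ^ (N - (i + 1) * t))
          (L * (m : ℝ) ^ (s + sg v) / (d : ℝ) ^ (N - (i + 1) * t)) ≤
          2 * Pot J μ (s - ((d : ℝ) - 1) / d * (N - (i + 1 + 1) * t : ℕ) +
            (sg v - ((d : ℝ) - 1) / d * t)) ((i + 1) * t : ℕ) + (ν + (i + 1) * (C * (t : ℝ) ^ (-A))) := by
        intro v _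
        have h7 : 1 ≤ L * (m : ℝ) ^ (s + sg v) / (d : ℝ) ^ (N - (i + 1) * t) := by
          rw [← e4 L v, one_le_div hd0]
          have h8 : (d : ℝ) ^ t ≤ ((d : ℝ) * m) ^ (8 * t) := by
            calc (d : ℝ) ^ t ≤ ((d : ℝ) * m) ^ t :=
                  pow_le_pow_left₀ (by linarith) (le_mul_of_one_le_right (by linarith) hm1R) t
              _ ≤ ((d : ℝ) * m) ^ (8 * t) := pow_le_pow_right₀ hdm1 (by omega)
          have h9 : (d : ℝ) ^ t ≤ L * (m : ℝ) ^ s / (d : ℝ) ^ (N - (i + 1 + 1) * t) :=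
            h8.trans (le_trans (le_mul_of_one_le_left (by positivity) hC1') h3)
          exact h9.trans (le_mul_of_one_le_right (le_trans hd0.le h9) (one_le_pow₀ hm1R))
        have h8 := ih hN1 (s + sg v) h7
        rw [add_assoc] at h8
        refine h8.trans (le_of_eq ?_)
        congr 3
        rw [eN]
        push_cast
        ring
      have h9 : (∑ v ∈ W d t, sd (FailV d m r N J a L V ((i + 1) * t) (s + sg v))
          (a * (m : ℝ) ^ (s + sg v) / (d : ℝ) ^ (N - (i + 1) * t))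
          (L * (m : ℝ) ^ (s + sg v) / (d : ℝ) ^ (N - (i + 1) * t))) / (d : ℝ) ^ t ≤
          2 * Pot J μ (s - ((d : ℝ) - 1) / d * (N - (i + 1 + 1) * t : ℕ)) ((i + 1 + 1) * t : ℕ) +
            (ν + (i + 1) * (C * (t : ℝ) ^ (-A))) := by
        have h10 := pot_step hd t (J := J) (δ := s - ((d : ℝ) - 1) / d * (N - (i + 1 + 1) * t : ℕ))
          (w := ((i + 1) * t : ℕ)) hμ'
        have e5 : (((i + 1) * t : ℕ) : ℝ) + t = (((i + 1 + 1) * t : ℕ) : ℝ) := by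
          push_cast
          ring
        rw [e5] at h10
        refine (div_le_div_of_nonneg_right (Finset.sum_le_sum h6) hd0.le).trans ?_
        rw [Finset.sum_add_distrib, Finset.sum_const, card_W, nsmul_eq_mul, ← Finset.mul_sum, add_div,
          mul_div_assoc]
        refine add_le_add (mul_le_mul_of_nonneg_left h10 (by norm_num)) (le_of_eq ?_)
        push_cast
        field_simp
      have h10 : C1 * (t : ℝ) ^ (-A) ≤ C * (t : ℝ) ^ (-A) := mul_le_mul_of_nonneg_right hCC1 hTA0.le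
      push_cast at h9 ⊢
      linarith
    · have h4 := hsmall ((i + 1 + 1) * t) ((i + 1 + 1) * t) s
        (a * (m : ℝ) ^ s / (d : ℝ) ^ (N - (i + 1 + 1) * t)) hN hs h3
      have h5 : 0 ≤ (((i + 1 : ℕ) : ℝ) + 1) * (C * (t : ℝ) ^ (-A)) := by positivity
      linarith

/-- (NL1), with the exceptional set `V`. -/
theorem locV (hd : 2 ≤ d) (hdm : d < m) (hco : Nat.Coprime m d) (hr : Admissible d m r)
    (hw : (m : ℝ) ≤ (d : ℝ) ^ ((d : ℝ) / ((d : ℝ) - 1))) (h1 : Mixing d m r) (A : ℝ) :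
    ∃ C : ℝ, 1 ≤ C ∧ ∀ t k : ℕ, 1 ≤ t → 1 ≤ k → ∀ J a L : ℝ, ∀ V : Finset ℤ, 0 ≤ J → J ≤ 2 * (k * t) →
    C * ((d : ℝ) * m) ^ (8 * t) * ((d : ℝ) ^ (k * t) * (m : ℝ) ^ (J - ((d : ℝ) - 1) / d * (k * t))) ≤ L →
      (({n : ℤ | a ≤ n ∧ (n : ℝ) < a + L ∧ (n ∈ Bad d m r (k * t) J a L ∨ (T d m r)^[k * t] n ∈ V)}).ncard : ℝ) ≤
        L * (4 * Real.exp (-J ^ 2 / (4 * (k * t))) + V.card / ((d : ℝ) * m) ^ t + k * (C * (t : ℝ) ^ (-A))) := by
  obtain ⟨C, hC1, h⟩ := failV_ind hd hdm hco hr hw h1 A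
  refine ⟨C, hC1, ?_⟩
  intro t k ht hk J a L V hJ hJ2 hL
  have ht1 : (1 : ℝ) ≤ t := by exact_mod_cast ht
  have hk1 : (1 : ℝ) ≤ k := by exact_mod_cast hk
  have hkt : (0 : ℝ) < k * t := by positivity
  have hd1R : (1 : ℝ) ≤ d := by exact_mod_cast (by omega : 1 ≤ d)
  have hm1R : (1 : ℝ) ≤ m := by exact_mod_cast (by omega : 1 ≤ m)
  obtain ⟨i, rfl⟩ : ∃ i, k = i + 1 := ⟨k - 1, by omega⟩
  have hμ1 : J / (2 * (((i + 1 : ℕ) : ℝ) * t)) ≤ 1 := by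
    rw [div_le_one (by positivity)]
    exact hJ2
  have hcast : (((i + 1) * t : ℕ) : ℝ) = ((i + 1 : ℕ) : ℝ) * t := by push_cast; ring
  have hL' : C * ((d : ℝ) * m) ^ (8 * t) * ((d : ℝ) ^ ((i + 1) * t) *
      (m : ℝ) ^ (J - ((d : ℝ) - 1) / d * ((i + 1) * t : ℕ))) ≤ L := by
    rw [hcast]
    exact hL
  have hlen := level_len (s := 0) (w := (i + 1) * t) hd hdm hw le_rfl (by positivity) hL' (by
    rw [Nat.sub_self, Nat.cast_zero, mul_zero, sub_zero]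
    linarith)
  rw [Nat.sub_self, pow_zero, pow_zero, mul_one, div_one] at hlen
  have hL1 : 1 ≤ L := by
    refine le_trans ?_ hlen
    exact one_le_mul_of_one_le_of_one_le hC1 (one_le_pow₀ (one_le_mul_of_one_le_of_one_le hd1R hm1R))
  have hL0 : 0 < L := by linarith
  have h2 := h t ht ((i + 1) * t) J a L (J / (2 * (((i + 1 : ℕ) : ℝ) * t))) V (by positivity) hμ1 hL' i le_rfl 0
    (by rw [Nat.sub_self, pow_zero, pow_zero, mul_one, div_one]; exact hL1)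
  rw [Nat.sub_self, pow_zero, pow_zero, mul_one, div_one, mul_one, div_one, Nat.cast_zero,
    mul_zero, sub_zero, hcast] at h2
  have hset : {n : ℤ | a ≤ n ∧ (n : ℝ) < a + L ∧ n ∈ FailV d m r ((i + 1) * t) J a L V ((i + 1) * t) 0} =
      {n : ℤ | a ≤ n ∧ (n : ℝ) < a + L ∧
        (n ∈ Bad d m r ((i + 1) * t) J a L ∨ (T d m r)^[(i + 1) * t] n ∈ V)} := by
    unfold FailV FailS Bad
    ext n
    simp only [Set.mem_ofPred_eq, zero_add]
    constructor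
    · rintro ⟨g1, g2, g3 | g3⟩
      · exact ⟨g1, g2, Or.inl ⟨g1, g2, g3⟩⟩
      · exact ⟨g1, g2, Or.inr g3⟩
    · rintro ⟨g1, g2, g3 | g3⟩
      · exact ⟨g1, g2, Or.inl g3.2.2⟩
      · exact ⟨g1, g2, Or.inr g3⟩
  unfold sd at h2
  rw [hset, div_le_iff₀ hL0] at h2
  refine h2.trans (le_of_eq ?_)
  have e2 : 2 * Pot J (J / (2 * (((i + 1 : ℕ) : ℝ) * t))) 0 (((i + 1 : ℕ) : ℝ) * t) =
      4 * Real.exp (-J ^ 2 / (4 * (((i + 1 : ℕ) : ℝ) * t))) := by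
    obtain ⟨y, hy⟩ : ∃ y : ℝ, y = ((i + 1 : ℕ) : ℝ) * t := ⟨_, rfl⟩
    rw [← hy] at hkt ⊢
    unfold Pot
    rw [mul_zero, neg_zero, zero_add, ← two_mul]
    have e1 : 2 * (Real.exp (-(J / (2 * y) * J)) * (2 * Real.exp ((J / (2 * y)) ^ 2 * y))) =
        4 * Real.exp (-(J / (2 * y) * J) + (J / (2 * y)) ^ 2 * y) := by
      rw [Real.exp_add]
      ring
    rw [e1]
    congr 2
    field_simp
    ring
  rw [e2]
  push_cast
  ring

end Pool.Agent.Helper28.NL
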