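import Pool.Agent.Helper28.NL.Win2
import Pool.Agent.Helper28.NL.LocV
import Pool.Agent.Helper28.NL.Def2
import Pool.Agent.Helper8.SI.M2

/-!
# NL3: the proof of `Near ρ`

A point `y ∈ G`, `y ≤ (2 - η / 8) Y`, in a good class modulo `2 ^ (K t₁) 3 ^ |ρ|` (level of distribution), `log Y ≍ J`; the interval
`[a, a + L)`, `a = y 2 ^ N / 3 ^ Sm`, is sent by `T^[N]` to the windows of `y` (`locV`, `mem_of_not_bad`).
-/

set_option autoImplicit false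

namespace Pool.Agent.Helper28.NL

open Pool.Agent.Helper68.Moeller Pool.Agent.Helper52.Tao Pool.Agent.Helper8.ND Pool.Agent.Helper8.CO
  Pool.Agent.Helper8.PW Pool.Agent.Helper28.POSB Pool.Agent.Helper8.SI Filter Topology

variable {ρ : ℤ}

/-- A point in a class. -/
theorem level_pt (hl : LevelD 2 3 (fun _ => ρ)) : ∃ θ₁ : ℝ, 0 < θ₁ ∧ θ₁ ≤ 1 / 2 ∧ ∀ z η : ℝ, 0 < η → ∃ X : ℝ,
    ∀ G : Set ℤ, TInv 2 3 (fun _ => ρ) G z → (∀ᶠ x in atTop, η ≤ fd G x) → ∀ Y : ℝ, X ≤ Y → ∀ i j : ℕ,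
      (2 : ℝ) ^ i * 3 ^ j ≤ Y ^ θ₁ → ∀ c : ℤ, ∃ y : ℤ, Y ≤ y ∧ (y : ℝ) ≤ (2 - η / 8) * Y ∧
        ((2 ^ i * 3 ^ j : ℕ) : ℤ) ∣ y - c ∧ y ∈ G := by
  obtain ⟨θ, hθ, hl⟩ := hl
  refine ⟨min θ (1 / 2), by positivity, min_le_right _ _, fun z η hη => ?_⟩
  obtain ⟨X₁, hX₁⟩ := hl z (η / 4) (by linarith)
  refine ⟨max X₁ (max 1 ((16 / η) ^ 2)), fun G hG hfd Y hY i j hij c => ?_⟩
  have hY1 : X₁ ≤ Y := (le_max_left _ _).trans hY
  have hY2 : 1 ≤ Y := ((le_max_left _ _).trans (le_max_right _ _)).trans hY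
  have hY3 : (16 / η) ^ 2 ≤ Y := ((le_max_right _ _).trans (le_max_right _ _)).trans hY
  have hY0 : 0 < Y := by linarith
  obtain ⟨D, hD0, hD⟩ := hX₁ G hG
  have hDη : η * (3 / 4) ≤ D := by
    obtain ⟨y, hy1, hy2⟩ := (hfd.and (eventually_ge_atTop X₁)).exists
    have := (abs_le.1 (hD y hy2).1).2
    linarith
  have hmodθ : ((2 : ℕ) : ℝ) ^ i * ((3 : ℕ) : ℝ) ^ j ≤ Y ^ θ := by
    push_cast
    exact hij.trans (Real.rpow_le_rpow_of_exponent_le hY2 (min_le_left _ _))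
  have hmodh : (2 : ℝ) ^ i * 3 ^ j ≤ Real.sqrt Y := by
    rw [Real.sqrt_eq_rpow]
    exact hij.trans (Real.rpow_le_rpow_of_exponent_le hY2 (min_le_right _ _))
  have hcl := (abs_le.1 ((hD Y hY1).2 i j hmodθ c)).1
  unfold fdc at hcl
  by_contra hcon
  push Not at hcon
  obtain ⟨M, hM⟩ : ∃ M : ℕ, M = 2 ^ i * 3 ^ j := ⟨_, rfl⟩
  rw [← hM] at hcl hcon
  have hM0 : 0 < M := by rw [hM]; positivity
  have hMR : (0 : ℝ) < M := by exact_mod_cast hM0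
  have hMY : (M : ℝ) ≤ Real.sqrt Y := by rw [hM]; push_cast; exact hmodh
  have hs0 : 0 < Real.sqrt Y := Real.sqrt_pos.2 hY0
  have hs : Real.sqrt Y * Real.sqrt Y = Y := Real.mul_self_sqrt hY0.le
  have hs16 : 16 / η ≤ Real.sqrt Y := Real.le_sqrt_of_sq_le hY3
  have hsub : {n : ℤ | Y ≤ n ∧ (n : ℝ) < 2 * Y ∧ (M : ℤ) ∣ n - c ∧ n ∈ G} ⊆
      {n : ℤ | (2 - η / 8) * Y ≤ n ∧ (n : ℝ) < (2 - η / 8) * Y + η / 8 * Y ∧ (M : ℤ) ∣ n - c} := by
    rintro n ⟨h1, h2, h3, h4⟩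
    refine ⟨?_, by linarith, h3⟩
    by_contra h5
    push Not at h5
    exact hcon n h1 h5.le h3 h4
  have hfin : {n : ℤ | (2 - η / 8) * Y ≤ n ∧ (n : ℝ) < (2 - η / 8) * Y + η / 8 * Y ∧ (M : ℤ) ∣ n - c}.Finite :=
    (finite_Ico ((2 - η / 8) * Y) ((2 - η / 8) * Y + η / 8 * Y)).subset fun _ h => ⟨h.1, h.2.1⟩
  have h1 : (({n : ℤ | Y ≤ n ∧ (n : ℝ) < 2 * Y ∧ (M : ℤ) ∣ n - c ∧ n ∈ G}.ncard : ℕ) : ℝ) ≤ η / 8 * Y / M + 1 := by
    have h2 := ncard_cls_le ((2 - η / 8) * Y) (δ := η / 8 * Y) (by positivity) (M := (M : ℤ)) (by exact_mod_cast hM0) c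
    have h3 : (({n : ℤ | Y ≤ n ∧ (n : ℝ) < 2 * Y ∧ (M : ℤ) ∣ n - c ∧ n ∈ G}.ncard : ℕ) : ℝ) ≤
        (({n : ℤ | (2 - η / 8) * Y ≤ n ∧ (n : ℝ) < (2 - η / 8) * Y + η / 8 * Y ∧ (M : ℤ) ∣ n - c}.ncard : ℕ) : ℝ) := by
      exact_mod_cast Set.ncard_le_ncard hsub hfin
    refine h3.trans (h2.trans (le_of_eq ?_))
    push_cast
    rfl
  have h2 : (η / 8 * Y / M + 1) * M = η / 8 * Y + M := by field_simp
  have h3 : ({n : ℤ | Y ≤ n ∧ (n : ℝ) < 2 * Y ∧ (M : ℤ) ∣ n - c ∧ n ∈ G}.ncard : ℝ) * M ≤ η / 8 * Y + M := by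
    rw [← h2]
    exact mul_le_mul_of_nonneg_right h1 hMR.le
  have h4 : η * (1 / 2) ≤ ({n : ℤ | Y ≤ n ∧ (n : ℝ) < 2 * Y ∧ (M : ℤ) ∣ n - c ∧ n ∈ G}.ncard : ℝ) * M / Y := by
    linarith
  rw [le_div_iff₀ hY0] at h4
  have h5 : 16 ≤ η * Real.sqrt Y := by
    rw [div_le_iff₀ hη] at hs16
    linarith
  have h6 : 16 * Real.sqrt Y ≤ η * Y := by
    have := mul_le_mul_of_nonneg_right h5 hs0.le
    rw [mul_assoc, hs] at this
    exact this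
  nlinarith

/-- The Chinese remainder theorem. -/
theorem crt23 (i j : ℕ) (a : ℤ) : ∃ c : ℤ, (2 : ℤ) ^ i ∣ c - a ∧ (3 : ℤ) ^ j ∣ c := by
  have h : IsCoprime ((2 : ℤ) ^ i) ((3 : ℤ) ^ j) := IsCoprime.pow ⟨-1, 1, by norm_num⟩
  obtain ⟨u, v, huv⟩ := h
  refine ⟨a * v * 3 ^ j, ⟨-(a * u), ?_⟩, ⟨a * v, by ring⟩⟩
  linear_combination a * huv

/-- The class modulo `ρ`. -/
theorem exists_cls (hρ0 : ρ ≠ 0) (S N : ℕ) {y : ℤ} (hy : (3 : ℤ) ^ ρ.natAbs ∣ y) :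
    ∃ b : ℤ, ρ ∣ 3 ^ S * b - 2 ^ N * y := by
  have hg := Int.gcd_eq_gcd_ab ((3 : ℤ) ^ S) ρ
  obtain ⟨g, hgd⟩ : ∃ g, g = Int.gcd ((3 : ℤ) ^ S) ρ := ⟨_, rfl⟩
  rw [← hgd] at hg
  have h1 : (g : ℤ) ∣ (3 : ℤ) ^ S := by rw [hgd]; exact Int.gcd_dvd_left ..
  have h2 : (g : ℤ) ∣ ρ := by rw [hgd]; exact Int.gcd_dvd_right ..
  have h3 : g ∣ 3 ^ S := by
    have : ((g : ℕ) : ℤ) ∣ ((3 ^ S : ℕ) : ℤ) := by push_cast; exact h1
    exact Int.natCast_dvd_natCast.1 this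
  obtain ⟨i, hi, hgi⟩ := (Nat.dvd_prime_pow Nat.prime_three).1 h3
  have h4 : g ≤ ρ.natAbs := Nat.le_of_dvd (Int.natAbs_pos.2 hρ0) (Int.natCast_dvd.1 h2)
  have h5 : i < g := by rw [hgi]; exact Nat.lt_pow_self (by norm_num)
  have h6 : (g : ℤ) ∣ y := by
    refine dvd_trans ?_ hy
    rw [hgi]
    push_cast
    exact pow_dvd_pow 3 (by omega)
  obtain ⟨y', hy'⟩ := h6
  refine ⟨2 ^ N * y' * Int.gcdA ((3 : ℤ) ^ S) ρ, ⟨-(2 ^ N * y' * Int.gcdB ((3 : ℤ) ^ S) ρ), ?_⟩⟩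
  rw [hy', hg]
  ring

/-- The parameters. -/
theorem params_near {c₃ C₂ x J : ℝ} (hc₃ : 0 ≤ c₃) (hC₂ : c₃ + 6 ≤ C₂) (hx : 0 < x) (hJ : 2 ≤ J)
    (hlx : C₂ * J ≤ Real.log x) : ∃ t k Sm : ℕ, 1 ≤ t ∧ 1 ≤ k ∧ J / 2 ≤ t ∧ (t : ℝ) ≤ J ∧ J ≤ 2 * (k * t) ∧
      (k : ℝ) * t ≤ 7 * Real.log x ∧ (Sm : ℝ) < (k * t) / 2 - J + 1 ∧ ((k : ℝ) * t) / 2 - J ≤ Sm ∧
      c₃ * J ≤ Real.log (x * 3 ^ Sm / 2 ^ (k * t)) ∧ Real.log (x * 3 ^ Sm / 2 ^ (k * t)) ≤ (c₃ + 3) * J ∧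
      lam * (k * t) ≤ Real.log x - (Real.log 3 + c₃) * J := by
  have hl3 := log3_lt
  have hl30 := log3_pos
  have hlam := lam_ge
  have hlam1 := lam_le
  have hJ0 : 0 < J := by linarith
  have hcJ : (c₃ + 6) * J ≤ Real.log x := (mul_le_mul_of_nonneg_right hC₂ hJ0.le).trans hlx
  obtain ⟨t, ht⟩ : ∃ t : ℕ, t = ⌊J⌋₊ := ⟨_, rfl⟩
  have a1 : (t : ℝ) ≤ J := by rw [ht]; exact Nat.floor_le hJ0.le
  have a2 : J < t + 1 := by rw [ht]; exact Nat.lt_floor_add_one J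
  have a3 : 1 ≤ t := by
    have : (0 : ℝ) < t := by linarith
    have : 0 < t := by exact_mod_cast this
    omega
  have ht0 : (0 : ℝ) < t := by exact_mod_cast a3
  have hlt0 : 0 < lam * t := by positivity
  obtain ⟨k, hk⟩ : ∃ k : ℕ, k = ⌊(Real.log x - (Real.log 3 + c₃) * J) / (lam * t)⌋₊ := ⟨_, rfl⟩
  have hnum : 0 ≤ Real.log x - (Real.log 3 + c₃) * J := by nlinarith
  have b1 : (k : ℝ) * (lam * t) ≤ Real.log x - (Real.log 3 + c₃) * J := by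
    rw [← le_div_iff₀ hlt0, hk]
    exact Nat.floor_le (by positivity)
  have b2 : Real.log x - (Real.log 3 + c₃) * J < (k + 1) * (lam * t) := by
    rw [← div_lt_iff₀ hlt0, hk]
    exact Nat.lt_floor_add_one _
  have b3 : (k : ℝ) * (lam * t) = lam * (k * t) := by ring
  have b4 : lam * (t : ℝ) ≤ J := by nlinarith
  have hkt0 : (0 : ℝ) ≤ k * t := by positivity
  have b5 : ((k : ℝ) + 1) * (lam * t) = lam * (k * t) + lam * t := by ring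
  have b6 : lam * ((k : ℝ) * t) ≤ 1 * (k * t) := mul_le_mul_of_nonneg_right hlam1 hkt0
  have b7 : 2 * J ≤ (k : ℝ) * t := by nlinarith
  have b8 : 1 / 7 * ((k : ℝ) * t) ≤ lam * (k * t) := mul_le_mul_of_nonneg_right hlam hkt0
  have hk1 : 1 ≤ k := by
    rcases Nat.eq_zero_or_pos k with h | h
    · rw [h, Nat.cast_zero, zero_mul] at b7
      linarith
    · exact h
  obtain ⟨Sm, hSm⟩ : ∃ Sm : ℕ, Sm = ⌈((k : ℝ) * t) / 2 - J⌉₊ := ⟨_, rfl⟩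
  have c1 : ((k : ℝ) * t) / 2 - J ≤ Sm := by rw [hSm]; exact Nat.le_ceil _
  have c2 : (Sm : ℝ) < (k * t) / 2 - J + 1 := by rw [hSm]; exact Nat.ceil_lt_add_one (by linarith)
  have e1 : Real.log (x * 3 ^ Sm / 2 ^ (k * t)) = Real.log x + Sm * Real.log 3 - (k * t) * Real.log 2 := by
    rw [Real.log_div (by positivity) (by positivity), Real.log_mul hx.ne' (by positivity), Real.log_pow, Real.log_pow]
    push_cast
    ring
  have e2 : lam * ((k : ℝ) * t) = (k * t) * Real.log 2 - (k * t) / 2 * Real.log 3 := by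
    unfold lam
    ring
  refine ⟨t, k, Sm, a3, hk1, by linarith, a1, by linarith, by nlinarith, c2, c1, ?_, ?_, by linarith⟩
  · rw [e1]
    have := mul_le_mul_of_nonneg_right c1 hl30.le
    nlinarith
  · rw [e1]
    have := mul_le_mul_of_nonneg_right c2.le hl30.le
    nlinarith

/-- The two conditions on the length. -/
theorem len_near {c₃ CA x J L : ℝ} {t k Sm : ℕ} (hCA : 1 ≤ CA) (hCAJ : CA ≤ J) (hx : 0 < x)
    (hL : L = x * Real.exp (-((c₃ - 16) * J))) (h1 : (t : ℝ) ≤ J)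
    (h2 : Real.log (x * 3 ^ Sm / 2 ^ (k * t)) ≤ (c₃ + 3) * J) (h3 : lam * (k * t) ≤ Real.log x - (Real.log 3 + c₃) * J) :
    CA * (((2 : ℕ) : ℝ) * ((3 : ℕ) : ℝ)) ^ (8 * t) * (((2 : ℕ) : ℝ) ^ (k * t) *
      ((3 : ℕ) : ℝ) ^ (J - (((2 : ℕ) : ℝ) - 1) / ((2 : ℕ) : ℝ) * (k * t))) ≤ L ∧
    ∀ j : ℕ, (j : ℝ) ≤ 2 * J → L * 3 ^ (Sm + j) / 2 ^ (k * t) ≤ Real.exp (24 * J) := by
  have hl3 := log3_lt
  have hl30 := log3_pos
  have hl2 := Real.log_two_lt_d9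
  have hl20 : 0 < Real.log 2 := Real.log_pos (by norm_num)
  have hJ0 : 0 < J := by linarith
  have hL0 : 0 < L := by rw [hL]; positivity
  have hlL : Real.log L = Real.log x - (c₃ - 16) * J := by
    rw [hL, Real.log_mul hx.ne' (Real.exp_pos _).ne', Real.log_exp]
    ring
  constructor
  · push_cast
    have e0 : ((2 : ℝ) - 1) / 2 * (k * t) = (k * t) / 2 := by ring
    rw [e0]
    rw [← Real.log_le_log_iff (by positivity) hL0, hlL, Real.log_mul (by positivity) (by positivity),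
      Real.log_mul (by positivity) (by positivity), Real.log_mul (by positivity) (by positivity), Real.log_pow, Real.log_pow,
      Real.log_rpow (by norm_num), Real.log_mul (by norm_num) (by norm_num)]
    push_cast
    have h4 : Real.log CA ≤ J := (Real.log_le_sub_one_of_pos (by linarith)).trans (by linarith)
    have h5 : (8 * (t : ℝ)) * (Real.log 2 + Real.log 3) ≤ 8 * J * (Real.log 2 + Real.log 3) :=
      mul_le_mul_of_nonneg_right (by linarith) (by linarith)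
    have h6 : 8 * J * (Real.log 2 + Real.log 3) ≤ 8 * J * 1.8 := mul_le_mul_of_nonneg_left (by linarith) (by linarith)
    have h7 : lam * ((k : ℝ) * t) = (k * t) * Real.log 2 - (k * t) / 2 * Real.log 3 := by
      unfold lam
      ring
    nlinarith
  · intro j hj
    rw [← Real.log_le_iff_le_exp (by positivity)]
    have e1 : L * 3 ^ (Sm + j) / 2 ^ (k * t) = x * 3 ^ Sm / 2 ^ (k * t) * (Real.exp (-((c₃ - 16) * J)) * 3 ^ j) := by
      rw [hL, pow_add]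
      ring
    rw [e1, Real.log_mul (by positivity) (by positivity), Real.log_mul (by positivity) (by positivity), Real.log_exp,
      Real.log_pow]
    have h4 : (j : ℝ) * Real.log 3 ≤ 2 * J * Real.log 3 := mul_le_mul_of_nonneg_right hj hl30.le
    have h5 : 2 * J * Real.log 3 ≤ 2 * J * 1.1 := mul_le_mul_of_nonneg_left (by linarith) (by linarith)
    linarith

/-- The error terms. -/
theorem err_near {A CA C₂ z x J : ℝ} {t k : ℕ} (hA : 0 ≤ A) (hCA : 1 ≤ CA) (hz : 0 ≤ z)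
    (hC₂ : 28 + 7 * CA * 2 ^ A + 1 ≤ C₂) (hJ : 1 ≤ J) (hlx : C₂ * J ≤ Real.log x) (ht : 1 ≤ t) (hk : 1 ≤ k)
    (h1 : J / 2 ≤ t) (h2 : (k : ℝ) * t ≤ 7 * Real.log x) (hzJ : 8 * z * J ^ A ≤ Real.exp (J / 2)) {v : ℝ}
    (hv : v ≤ z * (k * t + 1)) :
    4 * Real.exp (-J ^ 2 / (4 * (k * t))) + v / (((2 : ℕ) : ℝ) * ((3 : ℕ) : ℝ)) ^ t + k * (CA * (t : ℝ) ^ (-A)) ≤
      4 * Real.exp (-J ^ 2 / (C₂ * Real.log x)) + C₂ * Real.log x * J ^ (-A) := by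
  have hJ0 : 0 < J := by linarith
  have ht1 : (1 : ℝ) ≤ t := by exact_mod_cast ht
  have hk1 : (1 : ℝ) ≤ k := by exact_mod_cast hk
  have h2A : (0 : ℝ) < 2 ^ A := by positivity
  have hCA2 : 0 < 7 * CA * 2 ^ A := by positivity
  have hC₂0 : 28 ≤ C₂ := by linarith
  have hlx1 : 1 ≤ Real.log x := by nlinarith
  have hlx0 : 0 < Real.log x := by linarith
  have hkt : (0 : ℝ) < k * t := by positivity
  have hJA : 0 < J ^ (-A) := Real.rpow_pos_of_pos hJ0 _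
  have g1 : Real.exp (-J ^ 2 / (4 * (k * t))) ≤ Real.exp (-J ^ 2 / (C₂ * Real.log x)) := by
    apply Real.exp_le_exp.2
    rw [neg_div, neg_div]
    apply neg_le_neg
    apply div_le_div_of_nonneg_left (by positivity) (by positivity)
    nlinarith
  have g2 : v / (((2 : ℕ) : ℝ) * ((3 : ℕ) : ℝ)) ^ t ≤ Real.log x * J ^ (-A) := by
    push_cast
    have h3 : Real.exp (J / 2) ≤ ((2 : ℝ) * 3) ^ t := by
      have h4 : Real.exp 1 ≤ 2 * 3 := by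
        have := Real.exp_one_lt_d9
        linarith
      calc Real.exp (J / 2) ≤ Real.exp (t * 1) := Real.exp_le_exp.2 (by linarith)
        _ = Real.exp 1 ^ t := by rw [Real.exp_nat_mul]
        _ ≤ _ := pow_le_pow_left₀ (Real.exp_pos _).le h4 t
    rw [div_le_iff₀ (by positivity)]
    have h5 : z * (k * t + 1) ≤ z * (8 * Real.log x) := mul_le_mul_of_nonneg_left (by linarith) hz
    have h6 : J ^ A * J ^ (-A) = 1 := by rw [← Real.rpow_add hJ0, add_neg_cancel, Real.rpow_zero]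
    have h7 : Real.log x * J ^ (-A) * (8 * z * J ^ A) ≤ Real.log x * J ^ (-A) * ((2 : ℝ) * 3) ^ t :=
      mul_le_mul_of_nonneg_left (hzJ.trans h3) (by positivity)
    have h8 : Real.log x * J ^ (-A) * (8 * z * J ^ A) = z * (8 * Real.log x) * (J ^ A * J ^ (-A)) := by ring
    rw [h8, h6, mul_one] at h7
    linarith
  have g3 : k * (CA * (t : ℝ) ^ (-A)) ≤ 7 * CA * 2 ^ A * Real.log x * J ^ (-A) := by
    have h3 : (t : ℝ) ^ (-A) ≤ 2 ^ A * J ^ (-A) := by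
      calc (t : ℝ) ^ (-A) ≤ (J / 2) ^ (-A) := Real.rpow_le_rpow_of_nonpos (by positivity) h1 (by linarith)
        _ = 2 ^ A * J ^ (-A) := by
            rw [Real.div_rpow hJ0.le (by norm_num), Real.rpow_neg (by norm_num : (0 : ℝ) ≤ 2), div_inv_eq_mul]
            ring
    have h4 : (k : ℝ) ≤ 7 * Real.log x := by nlinarith
    calc k * (CA * (t : ℝ) ^ (-A)) ≤ (7 * Real.log x) * (CA * (2 ^ A * J ^ (-A))) := by
          apply mul_le_mul h4 _ (by positivity) (by positivity)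
          exact mul_le_mul_of_nonneg_left h3 (by linarith)
      _ = _ := by ring
  have g4 : (1 + 7 * CA * 2 ^ A) * (Real.log x * J ^ (-A)) ≤ C₂ * (Real.log x * J ^ (-A)) :=
    mul_le_mul_of_nonneg_right (by linarith) (by positivity)
  nlinarith

/-- (NL3) -/
theorem near (hρ : Odd ρ) (hs : SWLr ρ) (hl : LevelD 2 3 (fun _ => ρ)) (h : Std 2 3 (fun _ => ρ)) : Near ρ := by
  intro A hA
  obtain ⟨K, hK, hs⟩ := hs
  obtain ⟨θ₁, hθ₁0, hθ₁h, hpt⟩ := level_pt hl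
  obtain ⟨CA, hCA, hloc⟩ := locV h.hd h.hdm h.hco h.hr h.hw h.mix A
  have hρ0 : ρ ≠ 0 := by
    rintro rfl
    exact absurd hρ (by decide)
  have hK1 : (1 : ℝ) ≤ K := by exact_mod_cast hK
  have hK0 : (0 : ℝ) < K := by linarith
  obtain ⟨e₃, he₃⟩ : ∃ e₃ : ℕ, e₃ = ρ.natAbs := ⟨_, rfl⟩
  obtain ⟨c₂, hc₂⟩ : ∃ c₂ : ℝ, c₂ = 18 * K ^ 2 + 2 * e₃ := ⟨_, rfl⟩
  have hc₂0 : 0 < c₂ := by rw [hc₂]; positivity
  obtain ⟨c₃, hc₃⟩ : ∃ c₃ : ℝ, c₃ = c₂ / θ₁ + 20 := ⟨_, rfl⟩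
  have hc₂θ : 0 < c₂ / θ₁ := by positivity
  have h2A : (0 : ℝ) < 2 ^ A := by positivity
  have hCA2 : 0 < 7 * CA * 2 ^ A := by positivity
  obtain ⟨C₂, hC₂⟩ : ∃ C₂ : ℝ, C₂ = 28 + 7 * CA * 2 ^ A + 1 + c₃ + 6 := ⟨_, rfl⟩
  refine ⟨c₃ - 16, C₂, by linarith, by linarith, fun z η hz hη => ?_⟩
  obtain ⟨X, hX⟩ := hpt z η hη
  obtain ⟨T₀, hT₀⟩ := eventually_atTop.1 hs
  have hev : ∀ᶠ J : ℝ in atTop, 8 * z * J ^ A ≤ Real.exp (J / 2) := by
    have h1 := (isLittleO_rpow_exp_pos_mul_atTop A (show (0 : ℝ) < 1 / 2 by norm_num)).bound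
      (show (0 : ℝ) < 1 / (8 * z + 1) by positivity)
    filter_upwards [h1, eventually_ge_atTop 1] with J hJ hJ1
    have hJA : 0 < J ^ A := Real.rpow_pos_of_pos (by linarith) _
    rw [Real.norm_eq_abs, Real.norm_eq_abs, abs_of_pos hJA, abs_of_pos (Real.exp_pos _), one_div_mul_eq_div,
      le_div_iff₀ (by positivity)] at hJ
    have e : (1 / 2 : ℝ) * J = J / 2 := by ring
    rw [e] at hJ
    nlinarith
  obtain ⟨J₁, hJ₁⟩ := eventually_atTop.1 hev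
  obtain ⟨R, hR⟩ : ∃ R : ℝ, R = |(ρ : ℝ)| + z + 1 := ⟨_, rfl⟩
  have hR1 : 1 ≤ R := by
    have := abs_nonneg (ρ : ℝ)
    linarith
  have n1 := abs_nonneg J₁
  have n2 := abs_nonneg X
  have n3 : (0 : ℝ) ≤ T₀ := Nat.cast_nonneg _
  have n4 : 0 < 8 / η := by positivity
  refine ⟨|J₁| + |X| + T₀ + CA + R + 8 / η + 2, fun G hG hfd x J hx hJ hlx => ?_⟩
  have hJ2 : 2 ≤ J := by linarith
  have hJ0 : 0 < J := by linarith
  have hJJ₁ : J₁ ≤ J := by have := le_abs_self J₁; linarith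
  have hJX : X ≤ J := by have := le_abs_self X; linarith
  have hJT : (T₀ : ℝ) ≤ J := by linarith
  have hJCA : CA ≤ J := by linarith
  have hJR : R ≤ J := by linarith
  have hJη : 8 / η ≤ J := by linarith
  obtain ⟨t, k, Sm, p1, p2, p3, p4, p5, p6, p7, p8, p9, p10, p11⟩ :=
    params_near (c₃ := c₃) (C₂ := C₂) (by linarith) (by linarith) hx hJ2 hlx
  obtain ⟨L, hL⟩ : ∃ L : ℝ, L = x * Real.exp (-((c₃ - 16) * J)) := ⟨_, rfl⟩
  obtain ⟨l1, l2⟩ := len_near (CA := CA) hCA hJCA hx hL p4 p10 p11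
  rw [← hL]
  have hL0 : 0 < L := by rw [hL]; positivity
  obtain ⟨Y, hY⟩ : ∃ Y : ℝ, Y = x * 3 ^ Sm / 2 ^ (k * t) := ⟨_, rfl⟩
  rw [← hY] at p9 p10
  have hY0 : 0 < Y := by rw [hY]; positivity
  have hexpY : Real.exp (Real.log Y) = Y := Real.exp_log hY0
  -- the number of steps of the windows
  obtain ⟨t₁, ht₁⟩ : ∃ t₁ : ℕ, t₁ = ⌈24 * K * J⌉₊ := ⟨_, rfl⟩
  have q1 : 24 * K * J ≤ t₁ := by rw [ht₁]; exact Nat.le_ceil _
  have q2 : (t₁ : ℝ) < 24 * K * J + 1 := by rw [ht₁]; exact Nat.ceil_lt_add_one (by positivity)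
  have q3 : 24 * J ≤ (t₁ : ℝ) / K := by
    rw [le_div_iff₀ hK0]
    linarith
  have hKJ : J ≤ K * J := le_mul_of_one_le_left hJ0.le hK1
  have q5 : T₀ ≤ t₁ := by
    have : (T₀ : ℝ) ≤ t₁ := by linarith
    exact_mod_cast this
  have hl3 := log3_lt
  have hl30 := log3_pos
  have hl2 := Real.log_two_lt_d9
  have hl20 : 0 < Real.log 2 := Real.log_pos (by norm_num)
  have q4 : (K * t₁ : ℝ) * Real.log 2 + e₃ * Real.log 3 ≤ c₂ * J := by
    have h1 : (K * t₁ : ℝ) ≤ 25 * K ^ 2 * J := by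
      have h2 : (K * t₁ : ℝ) ≤ K * (24 * K * J + 1) := mul_le_mul_of_nonneg_left q2.le hK0.le
      have h3 : (K : ℝ) * 1 ≤ K * (K * J) := mul_le_mul_of_nonneg_left (by linarith) hK0.le
      nlinarith
    have h2 : (K * t₁ : ℝ) * Real.log 2 ≤ 25 * K ^ 2 * J * 0.7 := by
      apply mul_le_mul h1 (by linarith) hl20.le (by positivity)
    have h3 : (e₃ : ℝ) * Real.log 3 ≤ 2 * e₃ * J := by
      have h4 : (0 : ℝ) ≤ e₃ := Nat.cast_nonneg _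
      have h5 : (e₃ : ℝ) * Real.log 3 ≤ e₃ * 1.1 := mul_le_mul_of_nonneg_left (by linarith) h4
      have h6 : (e₃ : ℝ) * 1 ≤ e₃ * J := mul_le_mul_of_nonneg_left (by linarith) h4
      linarith
    have h4 : 0 ≤ (K : ℝ) ^ 2 * J := by positivity
    rw [hc₂]
    nlinarith
  have q6 : (2 : ℝ) ^ (K * t₁) * 3 ^ e₃ ≤ Y ^ θ₁ := by
    rw [← Real.log_le_log_iff (by positivity) (by positivity), Real.log_mul (by positivity) (by positivity),
      Real.log_pow, Real.log_pow, Real.log_rpow hY0]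
    push_cast
    refine q4.trans ?_
    have h1 : c₂ * J ≤ θ₁ * (c₃ * J) := by
      have h2 : θ₁ * c₃ = c₂ + θ₁ * 20 := by
        rw [hc₃]
        field_simp
      rw [← mul_assoc, h2]
      nlinarith
    exact h1.trans (mul_le_mul_of_nonneg_left p9 hθ₁0.le)
  have hJY : J ≤ Y := by
    rw [← hexpY]
    have h1 := Real.add_one_le_exp (Real.log Y)
    nlinarith
  obtain ⟨a₀, ha₀⟩ := hT₀ t₁ q5
  obtain ⟨c, hc1, hc2⟩ := crt23 (K * t₁) e₃ a₀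
  obtain ⟨y, hy1, hy2, hy3, hyG⟩ := hX G hG hfd Y (hJX.trans hJY) (K * t₁) e₃ q6 c
  push_cast at hy3
  have hy2a : ((2 ^ (K * t₁) : ℕ) : ℤ) ∣ y - a₀ := by
    push_cast
    have h1 : (2 : ℤ) ^ (K * t₁) ∣ y - c := (dvd_mul_right _ _).trans hy3
    have h2 := dvd_add h1 hc1
    have e : y - c + (c - a₀) = y - a₀ := by ring
    rwa [e] at h2
  have hy3a : (3 : ℤ) ^ ρ.natAbs ∣ y := by
    rw [← he₃]
    have h1 : (3 : ℤ) ^ e₃ ∣ y - c := (dvd_mul_left _ _).trans hy3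
    have h2 := dvd_add h1 hc2
    have e : y - c + c = y := by ring
    rwa [e] at h2
  obtain ⟨b, hb⟩ := exists_cls hρ0 Sm (k * t) hy3a
  obtain ⟨a, ha⟩ : ∃ a : ℝ, a = y * 2 ^ (k * t) / 3 ^ Sm := ⟨_, rfl⟩
  have hxY : Y * 2 ^ (k * t) / 3 ^ Sm = x := by
    rw [hY]
    field_simp
  have hp : (0 : ℝ) < 2 ^ (k * t) / 3 ^ Sm := by positivity
  have hxa : x ≤ a := by
    rw [ha, ← hxY, mul_div_assoc, mul_div_assoc]
    exact mul_le_mul_of_nonneg_right hy1 hp.le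
  have ha2 : a ≤ (2 - η / 8) * x := by
    rw [ha, ← hxY, mul_div_assoc, mul_div_assoc, ← mul_assoc]
    exact mul_le_mul_of_nonneg_right hy2 hp.le
  have hLη : L ≤ η / 8 * x := by
    rw [hL, mul_comm (η / 8)]
    refine mul_le_mul_of_nonneg_left ?_ hx.le
    rw [Real.exp_neg, inv_le_comm₀ (Real.exp_pos _) (by positivity), inv_div]
    have h1 := Real.add_one_le_exp ((c₃ - 16) * J)
    nlinarith
  refine ⟨a, b, hxa, by linarith, ?_⟩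
  -- the points in `G`
  have hJt : 2 * J ≤ (t₁ : ℝ) / K := by linarith
  have hW : ∀ j : ℕ, (j : ℝ) ≤ 2 * J → L * 3 ^ (Sm + j) / 2 ^ (k * t) ≤ Real.exp ((t₁ : ℝ) / K) := fun j hj =>
    (l2 j hj).trans (Real.exp_le_exp.2 q3)
  have hybig : (2 : ℝ) ^ (K * t₁) * (|(ρ : ℝ)| + z + 1) ≤ y := by
    rw [← hR]
    refine le_trans ?_ hy1
    have h1 : (2 : ℝ) ^ (K * t₁) ≤ Real.sqrt Y := by
      rw [Real.sqrt_eq_rpow]
      have h2 : (2 : ℝ) ^ (K * t₁) * 1 ≤ (2 : ℝ) ^ (K * t₁) * 3 ^ e₃ :=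
        mul_le_mul_of_nonneg_left (one_le_pow₀ (by norm_num)) (by positivity)
      rw [mul_one] at h2
      exact (h2.trans q6).trans (Real.rpow_le_rpow_of_exponent_le (by linarith) hθ₁h)
    have h3 : R ≤ Real.sqrt Y := by
      apply Real.le_sqrt_of_sq_le
      have h4 : R ^ 2 ≤ J ^ 2 := pow_le_pow_left₀ (by linarith) hJR 2
      have h5 : J ^ 2 ≤ Y := by
        rw [← hexpY]
        have h6 : Real.exp J ^ 2 ≤ Real.exp (Real.log Y) := by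
          rw [← Real.exp_nat_mul]
          apply Real.exp_le_exp.2
          push_cast
          nlinarith
        have h7 := Real.add_one_le_exp J
        have h8 : J ^ 2 ≤ Real.exp J ^ 2 := pow_le_pow_left₀ hJ0.le (by linarith) 2
        linarith
      linarith
    calc (2 : ℝ) ^ (K * t₁) * R ≤ Real.sqrt Y * Real.sqrt Y := mul_le_mul h1 h3 (by linarith) (Real.sqrt_nonneg Y)
      _ = Y := Real.mul_self_sqrt hY0.le
  have hsub : {n : ℤ | a ≤ n ∧ (n : ℝ) < a + L ∧ ρ ∣ n - b ∧ n ∉ G} ⊆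
      {n : ℤ | a ≤ n ∧ (n : ℝ) < a + L ∧ (n ∈ Bad 2 3 (fun _ => ρ) (k * t) J a L ∨
        (T 2 3 (fun _ => ρ))^[k * t] n ∈ small (fun _ => ρ) z (k * t))} := by
    rintro n ⟨h1, h2, h3, h4⟩
    refine ⟨h1, h2, ?_⟩
    by_contra hcon
    rw [not_or] at hcon
    apply h4
    refine mem_of_not_bad hρ ha₀ hz hG hy2a hyG hybig ha hJt hW ?_ ?_ h1 h2 ?_ hcon.1 hcon.2
    · push_cast
      exact p7
    · push_cast
      exact p8
    · have h5 : (3 : ℤ) ^ Sm * n - 2 ^ (k * t) * y = 3 ^ Sm * (n - b) + (3 ^ Sm * b - 2 ^ (k * t) * y) := by ring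
      rw [h5]
      exact dvd_add (h3.mul_left _) hb
  have hfin : {n : ℤ | a ≤ n ∧ (n : ℝ) < a + L ∧ (n ∈ Bad 2 3 (fun _ => ρ) (k * t) J a L ∨
        (T 2 3 (fun _ => ρ))^[k * t] n ∈ small (fun _ => ρ) z (k * t))}.Finite :=
    (finite_Ico a (a + L)).subset fun _ h => ⟨h.1, h.2.1⟩
  have hcard : (({n : ℤ | a ≤ n ∧ (n : ℝ) < a + L ∧ ρ ∣ n - b ∧ n ∉ G}.ncard : ℕ) : ℝ) ≤
      (({n : ℤ | a ≤ n ∧ (n : ℝ) < a + L ∧ (n ∈ Bad 2 3 (fun _ => ρ) (k * t) J a L ∨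
        (T 2 3 (fun _ => ρ))^[k * t] n ∈ small (fun _ => ρ) z (k * t))}.ncard : ℕ) : ℝ) := by
    exact_mod_cast Set.ncard_le_ncard hsub hfin
  have hmain := hloc t k p1 p2 J a L (small (fun _ => ρ) z (k * t)) hJ0.le p5 l1
  refine hcard.trans (hmain.trans ?_)
  refine mul_le_mul_of_nonneg_left ?_ hL0.le
  have hv := small_card (fun _ => ρ) hz (k * t)
  push_cast at hv
  exact err_near hA hCA hz (by linarith) (by linarith) hlx p1 p2 p3 p6 (hJ₁ J hJJ₁) hv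

end Pool.Agent.Helper28.NL
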