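import Pool.Agent.Helper28.NL.Def
import Pool.Agent.Helper8.CO.Prt
import Pool.Agent.Helper85.PW.S8

/-!
# NL2: multi-level windows, the statements

Particles `(l + cnt t (3 ^ l n + ρ j), T^[t] (3 ^ l n + ρ j))`, `0 ≤ l ≤ L`, `0 ≤ j ≤ J`; `off` as in `CO/Prt`.

* `SS2_le` (Prt2, helper28): `SS2 ρ L J t ≤ 2 ^ t (C (t + L + 1) + C (L + 1) (J + 1) ^ 2 (98 / 100) ^ t)`.
* `Start2` (S8b, helper33): as `Start` in `Helper85/PW`, with `L = t`.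
* `SWL` (S9b, helper85).
-/

set_option autoImplicit false

namespace Pool.Agent.Helper28.NL

open Pool.Agent.Helper68.Moeller Pool.Agent.Helper8.CO Pool.Agent.Helper8.PW Pool.Agent.Helper85.PW Finset Classical

/-- The distinct particles of the multi-level window. -/
noncomputable def Part2 (ρ : ℤ) (L J t : ℕ) (n : ℤ) : Finset (ℕ × ℤ) :=
  (range (L + 1) ×ˢ range (J + 1)).image (fun q : ℕ × ℕ =>
    (q.1 + cnt 2 3 (fun _ => ρ) t (3 ^ q.1 * n + ρ * q.2), (T 2 3 (fun _ => ρ))^[t] (3 ^ q.1 * n + ρ * q.2)))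

/-- The weighted number of the particles, summed over the classes modulo `2 ^ t`. -/
noncomputable def SS2 (ρ : ℤ) (L J t : ℕ) : ℝ :=
  ∑ n ∈ range (2 ^ t), ∑ p ∈ Part2 ρ L J t (n : ℤ), (1 + Real.sqrt |off t (n : ℤ) p|)

/-- (Prt2) -/
def SS2Le (ρ : ℤ) : Prop := ∃ C : ℝ, 0 < C ∧ ∀ L J t : ℕ,
  SS2 ρ L J t ≤ 2 ^ t * (C * (t + L + 1) + C * ((L : ℝ) + 1) * ((J : ℝ) + 1) ^ 2 * (98 / 100) ^ t)

/-- (Prt2) -/
def Part2Shift (ρ : ℤ) : Prop := ∀ (L J t : ℕ) (n j : ℤ),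
  Part2 ρ L J t (n + 2 ^ t * j) = (Part2 ρ L J t n).image (fun p => (p.1, p.2 + 3 ^ p.1 * j))

/-- (S8b) After `t + t` steps with suitable digits the particles are few. -/
def Start2 (ρ : ℤ) : Prop := ∃ C : ℝ, 1 ≤ C ∧ ∀ t J : ℕ, 1 ≤ t →
  ((t : ℝ) + 1) * ((J : ℝ) + 1) ^ 2 * (98 / 100) ^ t ≤ 1 →
    ∃ a : ℤ, ((Part2 ρ t J (t + t) a).card : ℝ) ≤ C * (t : ℝ) ^ (3 / 5 : ℝ) ∧
      QQ ρ (Part2 ρ t J (t + t) a) ≤ C * (t : ℝ) ^ 2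

end Pool.Agent.Helper28.NL
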