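import Pool.Agent.Helper28.NL.Step

/-!
# NL1c: the potential, and the last stage
-/

set_option autoImplicit false

namespace Pool.Agent.Helper28.NL

open Pool.Agent.Helper68.Moeller Pool.Agent.Helper52.Tao Pool.Agent.Helper8.ND Pool.Agent.Helper28.BE

variable {d m : ℕ} {r : ℤ → ℤ}

/-- The exponential moment. -/
theorem exp_mom (hd : 2 ≤ d) (t : ℕ) {μ : ℝ} (hμ : |μ| ≤ 1) :
    (∑ v ∈ W d t, Real.exp (μ * (sg v - ((d : ℝ) - 1) / d * t))) / (d : ℝ) ^ t ≤ Real.exp (μ ^ 2 * t) := by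
  have hd' : (2 : ℝ) ≤ d := by exact_mod_cast hd
  have hd0 : (0 : ℝ) < d := by linarith
  obtain ⟨p, hp⟩ : ∃ p : ℝ, p = ((d : ℝ) - 1) / d := ⟨_, rfl⟩
  have hpd : p * d = (d : ℝ) - 1 := by rw [hp]; field_simp
  have hp0 : 0 ≤ p := by rw [hp]; apply div_nonneg <;> linarith
  have hp1 : p ≤ 1 := by rw [hp, div_le_one hd0]; linarith
  rw [← hp]
  have h1 : ∑ v ∈ W d t, Real.exp (μ * (sg v - p * t)) =
      ((1 + ((d : ℝ) - 1) * Real.exp μ) * Real.exp (-(μ * p))) ^ t := by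
    rw [mul_pow, ← sum_pow_sg d t _ (by omega), Finset.sum_mul]
    refine Finset.sum_congr rfl fun v _ => ?_
    rw [← Real.exp_nat_mul, ← Real.exp_nat_mul, ← Real.exp_add]
    congr 1
    ring
  rw [h1, ← div_pow, mul_comm (μ ^ 2), Real.exp_nat_mul]
  have habs := abs_le.1 hμ
  have hq1 : |-(μ * p)| ≤ 1 := by
    rw [abs_neg, abs_mul, abs_of_nonneg hp0]
    calc |μ| * p ≤ 1 * 1 := mul_le_mul hμ hp1 hp0 zero_le_one
      _ = 1 := one_mul 1
  have hq2 : |μ * (1 - p)| ≤ 1 := by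
    rw [abs_mul, abs_of_nonneg (by linarith : 0 ≤ 1 - p)]
    calc |μ| * (1 - p) ≤ 1 * 1 := mul_le_mul hμ (by linarith) (by linarith) zero_le_one
      _ = 1 := one_mul 1
  have b1 := (abs_le.1 (Real.abs_exp_sub_one_sub_id_le hq1)).2
  have b2 := (abs_le.1 (Real.abs_exp_sub_one_sub_id_le hq2)).2
  refine pow_le_pow_left₀ (by
    apply div_nonneg _ hd0.le
    apply mul_nonneg _ (Real.exp_pos _).le
    have := mul_nonneg (by linarith : (0 : ℝ) ≤ (d : ℝ) - 1) (Real.exp_pos μ).le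
    linarith) ?_ t
  have e1 : (1 + ((d : ℝ) - 1) * Real.exp μ) * Real.exp (-(μ * p)) / d =
      (1 - p) * Real.exp (-(μ * p)) + p * Real.exp (μ * (1 - p)) := by
    have e2 : Real.exp (μ * (1 - p)) = Real.exp μ * Real.exp (-(μ * p)) := by
      rw [← Real.exp_add]; congr 1; ring
    rw [e2, ← hpd, div_eq_iff hd0.ne']
    have e3 : (1 - p) * d = 1 := by linarith
    linear_combination (-Real.exp (-(μ * p))) * e3
  rw [e1]
  have h2 : (1 - p) * Real.exp (-(μ * p)) + p * Real.exp (μ * (1 - p)) ≤ 1 + μ ^ 2 := by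
    have h3 : (1 - p) * Real.exp (-(μ * p)) ≤ (1 - p) * (1 + -(μ * p) + (-(μ * p)) ^ 2) :=
      mul_le_mul_of_nonneg_left (by linarith) (by linarith)
    have h4 : p * Real.exp (μ * (1 - p)) ≤ p * (1 + μ * (1 - p) + (μ * (1 - p)) ^ 2) :=
      mul_le_mul_of_nonneg_left (by linarith) hp0
    have h5 : (1 - p) * (1 + -(μ * p) + (-(μ * p)) ^ 2) + p * (1 + μ * (1 - p) + (μ * (1 - p)) ^ 2) =
        1 + μ ^ 2 * (p * (1 - p)) := by ring
    have h6 : p * (1 - p) ≤ 1 := by nlinarith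
    have h7 : μ ^ 2 * (p * (1 - p)) ≤ μ ^ 2 * 1 := mul_le_mul_of_nonneg_left h6 (sq_nonneg _)
    linarith
  refine h2.trans ?_
  have := Real.add_one_le_exp (μ ^ 2)
  linarith

/-- The potential. -/
noncomputable def Pot (J μ δ w : ℝ) : ℝ :=
  Real.exp (-(μ * J)) * (Real.exp (μ * δ + μ ^ 2 * w) + Real.exp (-(μ * δ) + μ ^ 2 * w))

theorem pot_pos (J μ δ w : ℝ) : 0 < Pot J μ δ w := by unfold Pot; positivity

theorem pot_ge_one {J μ δ w : ℝ} (hμ : 0 ≤ μ) (hw : 0 ≤ w) (h : J < |δ|) : 1 ≤ Pot J μ δ w := by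
  unfold Pot
  rw [mul_add, ← Real.exp_add, ← Real.exp_add]
  have h1 := mul_nonneg (sq_nonneg μ) hw
  rcases le_total 0 δ with h0 | h0
  · rw [abs_of_nonneg h0] at h
    have h2 : 0 ≤ μ * (δ - J) := mul_nonneg hμ (by linarith)
    have h3 : 1 ≤ Real.exp (-(μ * J) + (μ * δ + μ ^ 2 * w)) := Real.one_le_exp (by nlinarith)
    linarith [Real.exp_pos (-(μ * J) + (-(μ * δ) + μ ^ 2 * w))]
  · rw [abs_of_nonpos h0] at h
    have h2 : 0 ≤ μ * (-δ - J) := mul_nonneg hμ (by linarith)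
    have h3 : 1 ≤ Real.exp (-(μ * J) + (-(μ * δ) + μ ^ 2 * w)) := Real.one_le_exp (by nlinarith)
    linarith [Real.exp_pos (-(μ * J) + (μ * δ + μ ^ 2 * w))]

theorem pot_step (hd : 2 ≤ d) (t : ℕ) {J μ δ w : ℝ} (hμ : |μ| ≤ 1) :
    (∑ v ∈ W d t, Pot J μ (δ + (sg v - ((d : ℝ) - 1) / d * t)) w) / (d : ℝ) ^ t ≤ Pot J μ δ (w + t) := by
  have h1 := exp_mom hd t hμ
  have h2 := exp_mom hd t (μ := -μ) (by rwa [abs_neg])
  rw [neg_sq] at h2
  have e1 : ∑ v ∈ W d t, Pot J μ (δ + (sg v - ((d : ℝ) - 1) / d * t)) w =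
      Real.exp (-(μ * J)) * (Real.exp (μ * δ + μ ^ 2 * w) *
        ∑ v ∈ W d t, Real.exp (μ * (sg v - ((d : ℝ) - 1) / d * t)) +
        Real.exp (-(μ * δ) + μ ^ 2 * w) *
        ∑ v ∈ W d t, Real.exp (-μ * (sg v - ((d : ℝ) - 1) / d * t))) := by
    rw [Finset.mul_sum, Finset.mul_sum, ← Finset.sum_add_distrib, Finset.mul_sum]
    refine Finset.sum_congr rfl fun v _ => ?_
    unfold Pot
    rw [← Real.exp_add, ← Real.exp_add]
    congr 3 <;> ring
  rw [e1]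
  have e2 : Pot J μ δ (w + t) = Real.exp (-(μ * J)) * (Real.exp (μ * δ + μ ^ 2 * w) * Real.exp (μ ^ 2 * t) +
      Real.exp (-(μ * δ) + μ ^ 2 * w) * Real.exp (μ ^ 2 * t)) := by
    unfold Pot
    rw [← Real.exp_add, ← Real.exp_add]
    congr 3 <;> ring
  rw [e2, mul_div_assoc]
  apply mul_le_mul_of_nonneg_left _ (Real.exp_pos _).le
  rw [add_div, mul_div_assoc, mul_div_assoc]
  exact add_le_add (mul_le_mul_of_nonneg_left h1 (Real.exp_pos _).le)
    (mul_le_mul_of_nonneg_left h2 (Real.exp_pos _).le)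

/-- The integers of a residue class in an interval. -/
theorem ncard_cls_le (x : ℝ) {δ : ℝ} (hδ : 0 ≤ δ) {M : ℤ} (hM : 0 < M) (c : ℤ) :
    (({y : ℤ | x ≤ y ∧ (y : ℝ) < x + δ ∧ M ∣ y - c}.ncard : ℕ) : ℝ) ≤ δ / M + 1 := by
  have hMR : (0 : ℝ) < (M : ℝ) := by exact_mod_cast hM
  have h1 : {y : ℤ | x ≤ y ∧ (y : ℝ) < x + δ ∧ M ∣ y - c} ⊆
      (fun q : ℤ => M * q + c) '' {q : ℤ | (x - c) / M ≤ q ∧ (q : ℝ) < (x - c) / M + δ / M} := by
    rintro y ⟨h1, h2, q, hq⟩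
    refine ⟨q, ⟨?_, ?_⟩, by simp only; linarith⟩
    · rw [div_le_iff₀ hMR]
      have : (y : ℝ) - c = M * q := by exact_mod_cast hq
      linarith
    · rw [← add_div, lt_div_iff₀ hMR]
      have : (y : ℝ) - c = M * q := by exact_mod_cast hq
      linarith
  have hf := finite_Ico ((x - c) / M) ((x - c) / M + δ / M)
  have h2 := Set.ncard_le_ncard h1 (hf.image _)
  have h3 := Set.ncard_image_le (f := fun q : ℤ => M * q + c) hf
  have h4 := ncard_Ico_le ((x - c) / M) (δ := δ / M) (by positivity)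
  have h5 : (({y : ℤ | x ≤ y ∧ (y : ℝ) < x + δ ∧ M ∣ y - c}.ncard : ℕ) : ℝ) ≤
      (({q : ℤ | (x - c) / M ≤ q ∧ (q : ℝ) < (x - c) / M + δ / M}.ncard : ℕ) : ℝ) := by
    exact_mod_cast h2.trans h3
  linarith

/-- Points with the same word are congruent. -/
theorem wd_cong (hd : 2 ≤ d) (hco : Nat.Coprime m d) (hr : Admissible d m r) {t : ℕ} {n n' : ℤ}
    (h : wd d m r t n = wd d m r t n') : (d : ℤ) ^ t ∣ n - n' := by
  have h1 := wd_spec hd hr t n
  have h2 := wd_spec hd hr t n'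
  rw [h] at h1
  have h3 : (d : ℤ) ^ t ∣ (m : ℤ) ^ sg (wd d m r t n') * (n - n') :=
    ⟨(T d m r)^[t] n - (T d m r)^[t] n', by linear_combination h2 - h1⟩
  have h4 : IsCoprime ((d : ℤ) ^ t) ((m : ℤ) ^ sg (wd d m r t n')) := by
    apply IsCoprime.pow
    exact (Nat.isCoprime_iff_coprime.mpr hco).symm
  exact h4.dvd_of_dvd_mul_left h3

/-- Counting by words. -/
theorem count_words (hd : 2 ≤ d) (hco : Nat.Coprime m d) (hr : Admissible d m r) (t : ℕ)
    (x : ℝ) {δ : ℝ} (hδ : 0 ≤ δ) (f : ℕ → ℝ) (hf : ∀ k, 0 ≤ f k) (S : Set ℕ)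
    (hS : ∀ k ∈ S, 1 ≤ f k) :
    ({n : ℤ | x ≤ n ∧ (n : ℝ) < x + δ ∧ cnt d m r t n ∈ S}.ncard : ℝ) ≤
      (δ / (d : ℝ) ^ t + 1) * ∑ v ∈ W d t, f (sg v) := by
  classical
  have hfin : {n : ℤ | x ≤ n ∧ (n : ℝ) < x + δ ∧ cnt d m r t n ∈ S}.Finite :=
    (finite_Ico x (x + δ)).subset fun _ h => ⟨h.1, h.2.1⟩
  rw [Set.ncard_eq_toFinset_card _ hfin]
  rw [Finset.card_eq_sum_card_fiberwise (f := wd d m r t) (t := W d t) (fun n _ => wd_mem hd r t n)]
  push_cast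
  rw [Finset.mul_sum]
  refine Finset.sum_le_sum fun v hv => ?_
  by_cases hvS : sg v ∈ S
  · have h1 : ((hfin.toFinset.filter (fun n => wd d m r t n = v)).card : ℝ) ≤ δ / (d : ℝ) ^ t + 1 := by
      rcases (hfin.toFinset.filter (fun n => wd d m r t n = v)).eq_empty_or_nonempty with h0 | ⟨c, hc⟩
      · rw [h0, Finset.card_empty, Nat.cast_zero]
        positivity
      · have hcv := (Finset.mem_filter.1 hc).2
        have h2 := ncard_cls_le x hδ (M := (d : ℤ) ^ t) (by positivity) c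
        push_cast at h2
        refine le_trans ?_ h2
        have hf2 : {y : ℤ | x ≤ y ∧ (y : ℝ) < x + δ ∧ (d : ℤ) ^ t ∣ y - c}.Finite :=
          (finite_Ico x (x + δ)).subset fun _ h => ⟨h.1, h.2.1⟩
        rw [Set.ncard_eq_toFinset_card _ hf2]
        have hsub : hfin.toFinset.filter (fun n => wd d m r t n = v) ⊆ hf2.toFinset := by
          intro n hn
          obtain ⟨h3, h4⟩ := Finset.mem_filter.1 hn
          rw [Set.Finite.mem_toFinset] at h3 ⊢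
          exact ⟨h3.1, h3.2.1, wd_cong hd hco hr (h4.trans hcv.symm)⟩
        exact_mod_cast Finset.card_le_card hsub
    exact h1.trans (le_mul_of_one_le_right (by positivity) (hS _ hvS))
  · have h1 : hfin.toFinset.filter (fun n => wd d m r t n = v) = ∅ := by
      rw [Finset.filter_eq_empty_iff]
      intro n hn h2
      apply hvS
      rw [Set.Finite.mem_toFinset] at hn
      have h3 := hn.2.2
      rw [fb_cnt_eq hd, h2] at h3
      exact h3
    rw [h1, Finset.card_empty, Nat.cast_zero]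
    have := hf (sg v)
    positivity

end Pool.Agent.Helper28.NL
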