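import Pool.Agent.Helper28.NL.Part2

/-!
# NL2, Prt2: the number of the distinct particles of a multi-level window

Adapted from `Helper8/CO/Prt` (the levels are `0, …, L + t` instead of `0, …, t`).
-/

set_option autoImplicit false

namespace Pool.Agent.Helper28.NL

open Pool.Agent.Helper68.Moeller Pool.Agent.Helper8.CO Finset Classical

variable {ρ : ℤ}

theorem Part2_shift (hρ : Odd ρ) : Part2Shift ρ := by
  intro L J t n j
  unfold Part2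
  rw [Finset.image_image]
  refine Finset.image_congr fun q _ => ?_
  have e : (3 : ℤ) ^ q.1 * (n + 2 ^ t * j) + ρ * (q.2 : ℤ) = (3 ^ q.1 * n + ρ * q.2) + 2 ^ t * (3 ^ q.1 * j) := by
    ring
  obtain ⟨h1, h2⟩ := iter_add hρ t (3 ^ q.1 * n + ρ * q.2) (3 ^ q.1 * j)
  simp only [Function.comp]
  rw [e, h1, h2, pow_add]
  ext
  · rfl
  · simp only
    ring

theorem fst_le_of_mem2 {L J t : ℕ} {n : ℤ} {p : ℕ × ℤ} (hp : p ∈ Part2 ρ L J t n) : p.1 ≤ L + t := by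
  have hc : ∀ (k : ℕ) (x : ℤ), cnt 2 3 (fun _ => ρ) k x ≤ k := by
    intro k
    induction k with
    | zero => intro x; exact le_refl _
    | succ k ih =>
      intro x
      have h1 : cnt 2 3 (fun _ => ρ) (k + 1) x =
          (if ((2 : ℕ) : ℤ) ∣ x then 0 else 1) + cnt 2 3 (fun _ => ρ) k (T 2 3 (fun _ => ρ) x) := rfl
      have h2 := ih (T 2 3 (fun _ => ρ) x)
      rw [h1]
      split_ifs <;> omega
  unfold Part2 at hp
  obtain ⟨q, hq, rfl⟩ := mem_image.1 hp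
  rw [mem_product, mem_range, mem_range] at hq
  have := hc t (3 ^ q.1 * n + ρ * q.2)
  simp only
  omega

/-- One step of a particle. -/
private noncomputable def stp2 (ρ : ℤ) (p : ℕ × ℤ) : ℕ × ℤ :=
  (p.1 + (if ((2 : ℕ) : ℤ) ∣ p.2 then 0 else 1), T 2 3 (fun _ => ρ) p.2)

/-- The shift of a particle. -/
private def shf2 (p : ℕ × ℤ) : ℕ × ℤ := (p.1, p.2 + 3 ^ p.1 * 1)

private noncomputable def ph2 (y : ℝ) : ℝ := 1 + Real.sqrt y

private theorem ph2_mono {x y : ℝ} (h : x ≤ y) : ph2 x ≤ ph2 y := by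
  unfold ph2
  linarith [Real.sqrt_le_sqrt h]

private theorem ph2_nonneg (x : ℝ) : 0 ≤ ph2 x := by
  unfold ph2
  positivity

private theorem cnt_end2 (t : ℕ) (x : ℤ) : cnt 2 3 (fun _ => ρ) (t + 1) x =
    cnt 2 3 (fun _ => ρ) t x + (if ((2 : ℕ) : ℤ) ∣ (T 2 3 (fun _ => ρ))^[t] x then 0 else 1) := by
  induction t generalizing x with
  | zero => simp [cnt]
  | succ t ih =>
    have h1 : cnt 2 3 (fun _ => ρ) (t + 1 + 1) x =
        (if ((2 : ℕ) : ℤ) ∣ x then 0 else 1) + cnt 2 3 (fun _ => ρ) (t + 1) (T 2 3 (fun _ => ρ) x) := rfl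
    have h2 : cnt 2 3 (fun _ => ρ) (t + 1) x =
        (if ((2 : ℕ) : ℤ) ∣ x then 0 else 1) + cnt 2 3 (fun _ => ρ) t (T 2 3 (fun _ => ρ) x) := rfl
    rw [h1, h2, ih (T 2 3 (fun _ => ρ) x), Function.iterate_succ_apply]
    omega

private theorem Part2_succ (L J t : ℕ) (n : ℤ) : Part2 ρ L J (t + 1) n = (Part2 ρ L J t n).image (stp2 ρ) := by
  unfold Part2
  rw [Finset.image_image]
  refine Finset.image_congr fun j _ => ?_
  simp only [Function.comp, stp2]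
  rw [cnt_end2, Function.iterate_succ_apply', add_assoc]

private theorem adm_odd2 (hρ : Odd ρ) : Admissible 2 3 (fun _ => ρ) := by
  intro j h1 h2
  have h3 : j = 1 := by
    have : j < 2 := h2
    omega
  subst h3
  obtain ⟨r, rfl⟩ := hρ
  change 2 * r + 1 ≡ (3 : ℤ) * 1 [ZMOD (2 : ℤ)]
  rw [Int.modEq_iff_dvd]
  exact ⟨1 - r, by ring⟩

private theorem off2_even (t : ℕ) (n : ℤ) (p : ℕ × ℤ) (h : ((2 : ℕ) : ℤ) ∣ p.2) :
    off (t + 1) n (stp2 ρ p) = off t n p / 2 := by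
  have h1 : ((2 : ℕ) : ℤ) * T 2 3 (fun _ => ρ) p.2 = p.2 := d_mul_T_of_dvd h
  have h2 : (2 : ℝ) * (T 2 3 (fun _ => ρ) p.2 : ℝ) = p.2 := by exact_mod_cast h1
  unfold off stp2
  simp only [if_pos h, add_zero]
  rw [← h2, pow_succ]
  field_simp

private theorem off2_odd (hρ : Odd ρ) (t : ℕ) (n : ℤ) (p : ℕ × ℤ) (h : ¬ ((2 : ℕ) : ℤ) ∣ p.2) :
    off (t + 1) n (stp2 ρ p) = (3 * off t n p - ρ) / 2 := by
  have h1 : ((2 : ℕ) : ℤ) * T 2 3 (fun _ => ρ) p.2 = ((3 : ℕ) : ℤ) * p.2 - ρ :=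
    d_mul_T_of_not_dvd (adm_odd2 hρ) le_rfl h
  have h2 : (2 : ℝ) * (T 2 3 (fun _ => ρ) p.2 : ℝ) = 3 * p.2 - ρ := by exact_mod_cast h1
  have h3 : (T 2 3 (fun _ => ρ) p.2 : ℝ) = (3 * p.2 - ρ) / 2 := by linarith
  unfold off stp2
  simp only [if_neg h]
  rw [h3, pow_succ, pow_succ]
  field_simp
  ring

private theorem off2_bound (hρ : Odd ρ) (t : ℕ) (n : ℤ) (p : ℕ × ℤ) :
    |off (t + 1) n (stp2 ρ p)| ≤ (3 * |off t n p| + |(ρ : ℝ)|) / 2 := by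
  by_cases h : ((2 : ℕ) : ℤ) ∣ p.2
  · rw [off2_even t n p h, abs_div, abs_of_pos (by norm_num : (0 : ℝ) < 2)]
    have h1 := abs_nonneg (off t n p)
    have h2 := abs_nonneg (ρ : ℝ)
    linarith
  · rw [off2_odd hρ t n p h, abs_div, abs_of_pos (by norm_num : (0 : ℝ) < 2)]
    have h1 : |3 * off t n p - ρ| ≤ |3 * off t n p| + |(ρ : ℝ)| := abs_sub _ _
    rw [abs_mul, abs_of_pos (by norm_num : (0 : ℝ) < 3)] at h1
    linarith

private theorem off2_shift (t : ℕ) (n : ℤ) (p : ℕ × ℤ) : off t (n + 2 ^ t * 1) (shf2 p) = off t n p := by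
  unfold off shf2
  push_cast
  have h : (2 : ℝ) ^ t ≠ 0 := by positivity
  field_simp
  ring

private theorem few2 (L J t : ℕ) (n : ℤ) (V : ℝ) (hV : 0 ≤ V) :
    (((Part2 ρ L J t n).filter (fun p => |off t n p| ≤ V)).card : ℝ) ≤ ((t : ℝ) + L + 1) * (2 * V + 1) := by
  have h1 : (Part2 ρ L J t n).filter (fun p => |off t n p| ≤ V) ⊆
      (range (t + L + 1)).biUnion (fun κ => (Icc ⌈3 ^ κ * (n : ℝ) / 2 ^ t - V⌉ ⌊3 ^ κ * (n : ℝ) / 2 ^ t + V⌋).image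
        (fun v => (κ, v))) := by
    rintro ⟨κ, v⟩ hp
    obtain ⟨hp1, hp2⟩ := mem_filter.1 hp
    rw [mem_biUnion]
    have hκ : κ ≤ L + t := fst_le_of_mem2 hp1
    refine ⟨κ, mem_range.2 (by omega), mem_image.2 ⟨v, ?_, rfl⟩⟩
    have h2 : |(v : ℝ) - 3 ^ κ * (n : ℝ) / 2 ^ t| ≤ V := hp2
    rw [abs_le] at h2
    rw [mem_Icc]
    constructor
    · exact Int.ceil_le.2 (by linarith [h2.1])
    · exact Int.le_floor.2 (by linarith [h2.2])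
  have h2 : ∀ κ : ℕ, ((((Icc ⌈3 ^ κ * (n : ℝ) / 2 ^ t - V⌉ ⌊3 ^ κ * (n : ℝ) / 2 ^ t + V⌋).image
        (fun v => (κ, v))).card : ℕ) : ℝ) ≤ 2 * V + 1 := by
    intro κ
    have h3 : (((Icc ⌈3 ^ κ * (n : ℝ) / 2 ^ t - V⌉ ⌊3 ^ κ * (n : ℝ) / 2 ^ t + V⌋).image
        (fun v => (κ, v))).card : ℝ) ≤
        ((Icc ⌈3 ^ κ * (n : ℝ) / 2 ^ t - V⌉ ⌊3 ^ κ * (n : ℝ) / 2 ^ t + V⌋).card : ℝ) := by
      exact_mod_cast card_image_le
    refine h3.trans ?_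
    rw [Int.card_Icc]
    rcases le_or_gt 0 (⌊3 ^ κ * (n : ℝ) / 2 ^ t + V⌋ + 1 - ⌈3 ^ κ * (n : ℝ) / 2 ^ t - V⌉) with h4 | h4
    · have h5 : (((⌊3 ^ κ * (n : ℝ) / 2 ^ t + V⌋ + 1 - ⌈3 ^ κ * (n : ℝ) / 2 ^ t - V⌉).toNat : ℕ) : ℝ) =
          ((⌊3 ^ κ * (n : ℝ) / 2 ^ t + V⌋ + 1 - ⌈3 ^ κ * (n : ℝ) / 2 ^ t - V⌉ : ℤ) : ℝ) := by
        exact_mod_cast congrArg (Int.cast : ℤ → ℝ) (Int.toNat_of_nonneg h4)
      rw [h5]
      push_cast
      have h6 := Int.floor_le (3 ^ κ * (n : ℝ) / 2 ^ t + V)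
      have h7 := Int.le_ceil (3 ^ κ * (n : ℝ) / 2 ^ t - V)
      linarith
    · rw [Int.toNat_of_nonpos h4.le]
      push_cast
      linarith
  calc (((Part2 ρ L J t n).filter (fun p => |off t n p| ≤ V)).card : ℝ)
      ≤ (((range (t + L + 1)).biUnion (fun κ =>
          (Icc ⌈3 ^ κ * (n : ℝ) / 2 ^ t - V⌉ ⌊3 ^ κ * (n : ℝ) / 2 ^ t + V⌋).image (fun v => (κ, v)))).card : ℝ) := by
        exact_mod_cast card_le_card h1
    _ ≤ ((∑ κ ∈ range (t + L + 1),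
          ((Icc ⌈3 ^ κ * (n : ℝ) / 2 ^ t - V⌉ ⌊3 ^ κ * (n : ℝ) / 2 ^ t + V⌋).image (fun v => (κ, v))).card : ℕ) : ℝ) := by
        exact_mod_cast card_biUnion_le
    _ ≤ ∑ _κ ∈ range (t + L + 1), (2 * V + 1) := by
        push_cast
        exact Finset.sum_le_sum fun κ _ => h2 κ
    _ = ((t : ℝ) + L + 1) * (2 * V + 1) := by
        rw [Finset.sum_const, card_range, nsmul_eq_mul]
        push_cast
        ring

private theorem sum_image_le2 {α β : Type*} [DecidableEq β] (s : Finset α) (g : α → β) (f : β → ℝ)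
    (hf : ∀ b, 0 ≤ f b) : ∑ y ∈ s.image g, f y ≤ ∑ x ∈ s, f (g x) := by
  rw [← Finset.sum_fiberwise_of_maps_to (g := g) (t := s.image g) (fun x hx => mem_image_of_mem g hx)]
  refine Finset.sum_le_sum fun y hy => ?_
  obtain ⟨x, hx, rfl⟩ := mem_image.1 hy
  exact Finset.single_le_sum (f := fun x => f (g x)) (fun _ _ => hf _) (mem_filter.2 ⟨hx, rfl⟩)

/-- The contraction of the weights. -/
private theorem ph2_contr (r y : ℝ) (hr : 0 ≤ r) (hy : (100 * (1 + r)) ^ 2 < y) :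
    ph2 (y / 2) + ph2 ((3 * y + r) / 2) ≤ 196 / 100 * ph2 y := by
  have hy0 : 0 ≤ y := (sq_nonneg _).trans hy.le
  obtain ⟨s, hs⟩ : ∃ s, s = Real.sqrt y := ⟨_, rfl⟩
  have hs0 : 0 ≤ s := hs ▸ Real.sqrt_nonneg y
  have hsy : s ^ 2 = y := by rw [hs, Real.sq_sqrt hy0]
  have hs100 : 100 * (1 + r) < s := by
    rw [← hsy] at hy
    exact lt_of_pow_lt_pow_left₀ 2 hs0 hy
  have h1 : Real.sqrt (y / 2) ≤ 7072 / 10000 * s := by
    rw [Real.sqrt_le_left (by positivity)]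
    rw [← hsy]
    nlinarith [sq_nonneg s]
  have h2 : Real.sqrt ((3 * y + r) / 2) ≤ 12275 / 10000 * s := by
    rw [Real.sqrt_le_left (by positivity)]
    rw [← hsy]
    nlinarith [sq_nonneg s, mul_nonneg hr hs0]
  unfold ph2
  rw [← hs]
  linarith

private theorem per_n2 (hρ : Odd ρ) (L J t : ℕ) (n : ℤ) (V₁ : ℝ) (hV₁ : 0 ≤ V₁) :
    ∑ p ∈ Part2 ρ L J (t + 1) n, ph2 |off (t + 1) n p| ≤
      ((t : ℝ) + L + 2) * (2 * ((3 * V₁ + |(ρ : ℝ)|) / 2) + 1) * ph2 ((3 * V₁ + |(ρ : ℝ)|) / 2) +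
      ∑ p ∈ Part2 ρ L J t n, if V₁ < |off t n p| then ph2 |off (t + 1) n (stp2 ρ p)| else 0 := by
  obtain ⟨V₀, hV₀⟩ : ∃ V₀, V₀ = (3 * V₁ + |(ρ : ℝ)|) / 2 := ⟨_, rfl⟩
  have hρ0 := abs_nonneg (ρ : ℝ)
  have hV₀0 : 0 ≤ V₀ := by rw [hV₀]; positivity
  rw [← hV₀, ← Finset.sum_filter_add_sum_filter_not (Part2 ρ L J (t + 1) n) (fun p => |off (t + 1) n p| ≤ V₀)]
  refine add_le_add ?_ ?_
  · calc ∑ p ∈ (Part2 ρ L J (t + 1) n).filter (fun p => |off (t + 1) n p| ≤ V₀), ph2 |off (t + 1) n p|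
        ≤ ∑ _p ∈ (Part2 ρ L J (t + 1) n).filter (fun p => |off (t + 1) n p| ≤ V₀), ph2 V₀ :=
          Finset.sum_le_sum fun p hp => ph2_mono (mem_filter.1 hp).2
      _ = (((Part2 ρ L J (t + 1) n).filter (fun p => |off (t + 1) n p| ≤ V₀)).card : ℝ) * ph2 V₀ := by
          rw [Finset.sum_const, nsmul_eq_mul]
      _ ≤ ((t : ℝ) + L + 2) * (2 * V₀ + 1) * ph2 V₀ := by
          refine mul_le_mul_of_nonneg_right ?_ (ph2_nonneg _)
          have h := few2 (ρ := ρ) L J (t + 1) n V₀ hV₀0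
          push_cast at h
          have e : (t : ℝ) + 1 + L + 1 = t + L + 2 := by ring
          rw [e] at h
          exact h
  · have hsub : (Part2 ρ L J (t + 1) n).filter (fun p => ¬ |off (t + 1) n p| ≤ V₀) ⊆
        ((Part2 ρ L J t n).filter (fun p => V₁ < |off t n p|)).image (stp2 ρ) := by
      intro p' hp'
      obtain ⟨h1, h2⟩ := mem_filter.1 hp'
      rw [Part2_succ] at h1
      obtain ⟨p, hp, rfl⟩ := mem_image.1 h1
      refine mem_image.2 ⟨p, mem_filter.2 ⟨hp, ?_⟩, rfl⟩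
      by_contra h3
      apply h2
      have h4 := off2_bound hρ t n p
      rw [hV₀]
      linarith [not_lt.1 h3]
    calc ∑ p ∈ (Part2 ρ L J (t + 1) n).filter (fun p => ¬ |off (t + 1) n p| ≤ V₀), ph2 |off (t + 1) n p|
        ≤ ∑ p ∈ ((Part2 ρ L J t n).filter (fun p => V₁ < |off t n p|)).image (stp2 ρ), ph2 |off (t + 1) n p| :=
          Finset.sum_le_sum_of_subset_of_nonneg hsub fun _ _ _ => ph2_nonneg _
      _ ≤ ∑ p ∈ (Part2 ρ L J t n).filter (fun p => V₁ < |off t n p|), ph2 |off (t + 1) n (stp2 ρ p)| :=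
          sum_image_le2 _ _ (fun p => ph2 |off (t + 1) n p|) fun _ => ph2_nonneg _
      _ = _ := by rw [Finset.sum_filter]

/-- The pair of the classes `n`, `n + 2 ^ t`. -/
private theorem pair_n2 (hρ : Odd ρ) (L J t : ℕ) (n : ℤ) (V₁ : ℝ) (hV₁ : V₁ = (100 * (1 + |(ρ : ℝ)|)) ^ 2) :
    (∑ p ∈ Part2 ρ L J t n, if V₁ < |off t n p| then ph2 |off (t + 1) n (stp2 ρ p)| else 0) +
    (∑ p ∈ Part2 ρ L J t (n + 2 ^ t * 1), if V₁ < |off t (n + 2 ^ t * 1) p| then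
      ph2 |off (t + 1) (n + 2 ^ t * 1) (stp2 ρ p)| else 0) ≤
      196 / 100 * ∑ p ∈ Part2 ρ L J t n, ph2 |off t n p| := by
  have hinj : Set.InjOn shf2 (Part2 ρ L J t n : Set (ℕ × ℤ)) := by
    rintro ⟨κ, v⟩ _ ⟨κ', v'⟩ _ h
    unfold shf2 at h
    simp only [Prod.mk.injEq] at h
    obtain ⟨rfl, h2⟩ := h
    have : v = v' := by linarith
    rw [this]
  have h1 : Part2 ρ L J t (n + 2 ^ t * 1) = (Part2 ρ L J t n).image shf2 := Part2_shift hρ L J t n 1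
  rw [h1, Finset.sum_image hinj, ← Finset.sum_add_distrib, Finset.mul_sum]
  refine Finset.sum_le_sum fun p _ => ?_
  rw [off2_shift]
  by_cases h : V₁ < |off t n p|
  · rw [if_pos h, if_pos h]
    rw [hV₁] at h
    refine le_trans ?_ (ph2_contr _ _ (abs_nonneg (ρ : ℝ)) h)
    have hodd3 : ¬ ((2 : ℕ) : ℤ) ∣ (3 : ℤ) ^ p.1 := by
      have h3 : Odd ((3 : ℤ) ^ p.1) := Odd.pow (by decide)
      intro h4
      exact (Int.not_even_iff_odd.2 h3) (even_iff_two_dvd.2 h4)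
    have b1 : ∀ ξ : ℝ, |ξ / 2| = |ξ| / 2 := fun ξ => by
      rw [abs_div, abs_of_pos (by norm_num : (0 : ℝ) < 2)]
    have b2 : ∀ ξ : ℝ, |(3 * ξ - ρ) / 2| ≤ (3 * |ξ| + |(ρ : ℝ)|) / 2 := fun ξ => by
      rw [b1]
      have h1 : |3 * ξ - ρ| ≤ |3 * ξ| + |(ρ : ℝ)| := abs_sub _ _
      rw [abs_mul, abs_of_pos (by norm_num : (0 : ℝ) < 3)] at h1
      linarith
    by_cases hv : ((2 : ℕ) : ℤ) ∣ p.2
    · have hv' : ¬ ((2 : ℕ) : ℤ) ∣ (shf2 p).2 := by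
        intro h4
        apply hodd3
        unfold shf2 at h4
        simp only [mul_one] at h4
        exact (Int.dvd_add_right hv).1 h4
      rw [off2_even t n p hv, off2_odd hρ t _ (shf2 p) hv', off2_shift, b1 (off t n p)]
      exact add_le_add le_rfl (ph2_mono (b2 _))
    · have hv' : ((2 : ℕ) : ℤ) ∣ (shf2 p).2 := by
        unfold shf2
        simp only [mul_one]
        have e1 : Odd p.2 := Int.not_even_iff_odd.1 fun h5 => hv (even_iff_two_dvd.1 h5)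
        have e2 : Odd ((3 : ℤ) ^ p.1) := Odd.pow (by decide)
        exact even_iff_two_dvd.1 (e1.add_odd e2)
      rw [off2_odd hρ t n p hv, off2_even t _ (shf2 p) hv', off2_shift, b1 (off t n p), add_comm]
      exact add_le_add le_rfl (ph2_mono (b2 _))
  · rw [if_neg h, if_neg h, add_zero]
    have := ph2_nonneg |off t n p|
    positivity

private theorem SS2_succ (hρ : Odd ρ) (L J t : ℕ) (V₁ : ℝ) (hV₁ : V₁ = (100 * (1 + |(ρ : ℝ)|)) ^ 2) :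
    SS2 ρ L J (t + 1) ≤ 196 / 100 * SS2 ρ L J t +
      2 ^ (t + 1) * (((t : ℝ) + L + 2) * ((2 * ((3 * V₁ + |(ρ : ℝ)|) / 2) + 1) * ph2 ((3 * V₁ + |(ρ : ℝ)|) / 2))) := by
  have hV₁0 : 0 ≤ V₁ := by rw [hV₁]; positivity
  obtain ⟨c, hc⟩ : ∃ c, c = ((2 * ((3 * V₁ + |(ρ : ℝ)|) / 2) + 1) * ph2 ((3 * V₁ + |(ρ : ℝ)|) / 2)) := ⟨_, rfl⟩
  have hSS : ∀ t, SS2 ρ L J t = ∑ n ∈ range (2 ^ t), ∑ p ∈ Part2 ρ L J t (n : ℤ), ph2 |off t (n : ℤ) p| := fun _ => rfl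
  rw [hSS, hSS, ← hc]
  have h1 : ∀ n : ℕ, ∑ p ∈ Part2 ρ L J (t + 1) (n : ℤ), ph2 |off (t + 1) (n : ℤ) p| ≤
      ((t : ℝ) + L + 2) * c +
      ∑ p ∈ Part2 ρ L J t (n : ℤ), if V₁ < |off t (n : ℤ) p| then ph2 |off (t + 1) (n : ℤ) (stp2 ρ p)| else 0 := by
    intro n
    have h := per_n2 hρ L J t (n : ℤ) V₁ hV₁0
    rw [mul_assoc, ← hc] at h
    exact h
  refine (Finset.sum_le_sum fun n _ => h1 n).trans ?_
  rw [Finset.sum_add_distrib, Finset.sum_const, card_range, nsmul_eq_mul, add_comm]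
  refine add_le_add ?_ (le_of_eq (by push_cast; ring))
  rw [show 2 ^ (t + 1) = 2 ^ t + 2 ^ t by ring, Finset.sum_range_add, ← Finset.sum_add_distrib, Finset.mul_sum]
  refine Finset.sum_le_sum fun n _ => ?_
  have e : (((2 ^ t + n : ℕ)) : ℤ) = (n : ℤ) + 2 ^ t * 1 := by push_cast; ring
  rw [e]
  exact pair_n2 hρ L J t (n : ℤ) V₁ hV₁

private theorem SS2_zero (L J : ℕ) : SS2 ρ L J 0 ≤ (2 + |(ρ : ℝ)|) * ((L : ℝ) + 1) * ((J : ℝ) + 1) ^ 2 := by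
  have h1 : SS2 ρ L J 0 = ∑ p ∈ Part2 ρ L J 0 0, ph2 |off 0 0 p| := by
    unfold SS2
    rw [pow_zero, Finset.sum_range_one]
    rfl
  rw [h1]
  have h2 := sum_image_le2 (range (L + 1) ×ˢ range (J + 1)) (fun q : ℕ × ℕ =>
    (q.1 + cnt 2 3 (fun _ => ρ) 0 (3 ^ q.1 * (0 : ℤ) + ρ * q.2), (T 2 3 (fun _ => ρ))^[0] (3 ^ q.1 * (0 : ℤ) + ρ * q.2)))
    (fun p => ph2 |off 0 0 p|) (fun _ => ph2_nonneg _)
  refine h2.trans ?_
  have hρ0 := abs_nonneg (ρ : ℝ)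
  have h3 : ∀ q ∈ range (L + 1) ×ˢ range (J + 1), ph2 |off 0 0 (q.1 + cnt 2 3 (fun _ => ρ) 0 (3 ^ q.1 * (0 : ℤ) + ρ * (q.2 : ℤ)),
      (T 2 3 (fun _ => ρ))^[0] (3 ^ q.1 * (0 : ℤ) + ρ * (q.2 : ℤ)))| ≤ (2 + |(ρ : ℝ)|) * ((J : ℝ) + 1) := by
    intro q hq
    rw [mem_product] at hq
    have hj1 : (q.2 : ℝ) ≤ J := by
      have := Nat.lt_succ_iff.1 (mem_range.1 hq.2)
      exact_mod_cast this
    have hj0 : (0 : ℝ) ≤ q.2 := Nat.cast_nonneg _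
    have e : off 0 0 (q.1 + cnt 2 3 (fun _ => ρ) 0 (3 ^ q.1 * (0 : ℤ) + ρ * (q.2 : ℤ)),
        (T 2 3 (fun _ => ρ))^[0] (3 ^ q.1 * (0 : ℤ) + ρ * (q.2 : ℤ))) = (ρ : ℝ) * q.2 := by
      unfold off
      simp
    rw [e, abs_mul, abs_of_nonneg hj0]
    unfold ph2
    have h4 : Real.sqrt (|(ρ : ℝ)| * q.2) ≤ 1 + |(ρ : ℝ)| * q.2 := by
      have h5 : 0 ≤ |(ρ : ℝ)| * q.2 := by positivity
      rw [Real.sqrt_le_left (by positivity)]
      nlinarith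
    nlinarith [mul_le_mul_of_nonneg_left hj1 hρ0]
  calc ∑ q ∈ range (L + 1) ×ˢ range (J + 1),
        ph2 |off 0 0 (q.1 + cnt 2 3 (fun _ => ρ) 0 (3 ^ q.1 * (0 : ℤ) + ρ * (q.2 : ℤ)),
      (T 2 3 (fun _ => ρ))^[0] (3 ^ q.1 * (0 : ℤ) + ρ * (q.2 : ℤ)))|
      ≤ ∑ _q ∈ range (L + 1) ×ˢ range (J + 1), (2 + |(ρ : ℝ)|) * ((J : ℝ) + 1) := Finset.sum_le_sum h3
    _ = (2 + |(ρ : ℝ)|) * ((L : ℝ) + 1) * ((J : ℝ) + 1) ^ 2 := by
        rw [Finset.sum_const, card_product, card_range, card_range, nsmul_eq_mul]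
        push_cast
        ring

theorem SS2_le (hρ : Odd ρ) : SS2Le ρ := by
  obtain ⟨V₁, hV₁⟩ : ∃ V₁ : ℝ, V₁ = (100 * (1 + |(ρ : ℝ)|)) ^ 2 := ⟨_, rfl⟩
  obtain ⟨c, hc⟩ : ∃ c, c = ((2 * ((3 * V₁ + |(ρ : ℝ)|) / 2) + 1) * ph2 ((3 * V₁ + |(ρ : ℝ)|) / 2)) := ⟨_, rfl⟩
  have hρ0 := abs_nonneg (ρ : ℝ)
  have hV₁0 : 0 ≤ V₁ := by rw [hV₁]; positivity
  have hc0 : 0 ≤ c := by
    rw [hc]
    exact mul_nonneg (by positivity) (ph2_nonneg _)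
  refine ⟨50 * c + (2 + |(ρ : ℝ)|), by positivity, fun L J t => ?_⟩
  have hL0 : (0 : ℝ) ≤ L := Nat.cast_nonneg L
  have key : ∀ t : ℕ, SS2 ρ L J t ≤ 2 ^ t * (50 * c * (t + L + 1) +
      (2 + |(ρ : ℝ)|) * ((L : ℝ) + 1) * ((J : ℝ) + 1) ^ 2 * (98 / 100) ^ t) := by
    intro t
    induction t with
    | zero =>
      have h := SS2_zero (ρ := ρ) L J
      have h2 : 0 ≤ 50 * c * (L + 1) := by positivity
      simp only [pow_zero, one_mul, Nat.cast_zero, zero_add, mul_one]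
      linarith
    | succ t ih =>
      have h := SS2_succ hρ L J t V₁ hV₁
      rw [← hc] at h
      refine h.trans ?_
      have h3 : (0 : ℝ) < 2 ^ t := by positivity
      have h4 : (0 : ℝ) ≤ t := Nat.cast_nonneg t
      have h5 : 196 / 100 * SS2 ρ L J t ≤ 196 / 100 *
          (2 ^ t * (50 * c * (t + L + 1) + (2 + |(ρ : ℝ)|) * ((L : ℝ) + 1) * ((J : ℝ) + 1) ^ 2 * (98 / 100) ^ t)) :=
        mul_le_mul_of_nonneg_left ih (by norm_num)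
      refine (add_le_add h5 le_rfl).trans ?_
      push_cast
      have e1 : 196 / 100 * (2 ^ t * (50 * c * ((t : ℝ) + L + 1) +
          (2 + |(ρ : ℝ)|) * ((L : ℝ) + 1) * ((J : ℝ) + 1) ^ 2 * (98 / 100) ^ t)) + 2 ^ (t + 1) * (((t : ℝ) + L + 2) * c) =
          2 ^ (t + 1) * (98 / 100 * (50 * c * (t + L + 1)) + (t + L + 2) * c +
            (2 + |(ρ : ℝ)|) * ((L : ℝ) + 1) * ((J : ℝ) + 1) ^ 2 * (98 / 100) ^ (t + 1)) := by
        rw [pow_succ, pow_succ]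
        ring
      rw [e1]
      refine mul_le_mul_of_nonneg_left ?_ (by positivity)
      have h6 : 98 / 100 * (50 * c * ((t : ℝ) + L + 1)) + (t + L + 2) * c ≤ 50 * c * (t + 1 + L + 1) := by
        nlinarith [mul_nonneg hc0 h4, mul_nonneg hc0 hL0]
      linarith
  refine (key t).trans ?_
  refine mul_le_mul_of_nonneg_left ?_ (by positivity)
  have h1 : (0 : ℝ) ≤ t := Nat.cast_nonneg t
  have h3 : (0 : ℝ) ≤ ((L : ℝ) + 1) * ((J : ℝ) + 1) ^ 2 * (98 / 100) ^ t := by positivity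
  have e1 : 50 * c * ((t : ℝ) + L + 1) ≤ (50 * c + (2 + |(ρ : ℝ)|)) * (t + L + 1) := by
    have : 0 ≤ (2 + |(ρ : ℝ)|) * ((t : ℝ) + L + 1) := by positivity
    linarith
  have e2 : (2 + |(ρ : ℝ)|) * ((L : ℝ) + 1) * ((J : ℝ) + 1) ^ 2 * (98 / 100) ^ t ≤
      (50 * c + (2 + |(ρ : ℝ)|)) * ((L : ℝ) + 1) * ((J : ℝ) + 1) ^ 2 * (98 / 100) ^ t := by
    have e3 : (2 + |(ρ : ℝ)|) * ((L : ℝ) + 1) * ((J : ℝ) + 1) ^ 2 * (98 / 100) ^ t =
        (2 + |(ρ : ℝ)|) * (((L : ℝ) + 1) * ((J : ℝ) + 1) ^ 2 * (98 / 100) ^ t) := by ring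
    have e4 : (50 * c + (2 + |(ρ : ℝ)|)) * ((L : ℝ) + 1) * ((J : ℝ) + 1) ^ 2 * (98 / 100) ^ t =
        (50 * c + (2 + |(ρ : ℝ)|)) * (((L : ℝ) + 1) * ((J : ℝ) + 1) ^ 2 * (98 / 100) ^ t) := by ring
    rw [e3, e4]
    exact mul_le_mul_of_nonneg_right (by linarith) h3
  linarith

end Pool.Agent.Helper28.NL
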