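import Pool.Agent.Helper28.NL.All

/-!
# Invariant sets in short intervals

`T n = n / d` if `d ∣ n`, `T n = (m n - r_j) / d` if `n ≡ j (mod d)`, `1 ≤ j ≤ d - 1`, as in the problem file; here `d = 2`, `m = 3`, `R = {r}`. A set `G` of
integers is invariant if `n ∈ G ↔ T n ∈ G` for all `n > 0`; such a set has a natural density `D` (`PositiveDensity`).

* If `G` is invariant and `D > 0`, then for all `θ < 1` and `A`, for all large `x`, at least `x ^ (1 - ε)` of the `n ∈ [x, 2x)` have the property that all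
  `n + h`, `0 ≤ h ≤ n ^ θ`, `r ∣ h`, but at most `n ^ θ / (log n) ^ A`, belong to `G`. The same holds for the intervals of any length
  `H ≤ x exp (-C √(log x))`, `C = C(ε)`, up to `ε H` integers. Hence `E(2, 3, R)` is finite if and only if for some `B` and all large `n` at least
  `n ^ θ / (log n) ^ A` of these `n + h` have an orbit which goes `≤ B`.
* If `r = 1` or `r = -1`, then for a positive proportion of the `n` the orbits of all but `ε n ^ θ` of the integers of `[n, n + n ^ θ]` are at one point of `G` after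
  one number `t ≤ 9 log n` of steps. Hence `E(2, 3, R)` is finite if and only if for some `B` and almost all `n` at least `ε n ^ θ` of the integers of
  `[n, n + n ^ θ]` have an orbit which goes `≤ B`.
* In particular, all positive integers reach `1` under the `3x + 1` map if and only if `ε n ^ θ` of the integers of almost all intervals `[n, n + n ^ θ]` do, and if
  and only if `n ^ θ / (log n) ^ A` of the integers of all `[n, n + n ^ θ]`, `n` large, do.

Proof. `Helper28/NL`: for all intervals `[a, a + L)` the `T`-th iterates of all but few of the integers are where they should be (`Loc`, `LocV`: steps of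
`√(log x)` or `c log x` digits, `Step`, `FlowS`, Tao's estimate for the distribution of the end points of the words modulo `3 ^ S`; the number of the odd steps is
controlled by an exponential moment, `Pot`); windows of several levels: there is `a` such that the orbits of all `3 ^ l a + r j`, `l ≤ t`, `j ≤ exp (t / K)`, merge with the one of
`a` in `K t` steps (`SWL`: `Prt2`, `S8b`, `S9b`); by the level of distribution (`PowerIntervals`) some `y ∈ G` of size `exp (C J)` is in the class of `a`, and the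
interval which begins at `y 2 ^ N / 3 ^ S` is sent to the windows of `y` (`Win2`, `Near`); `Avg`, `Fin`, `Equ`, `All`.
`Helper8/SI`: the orbits of a pair of integers at a distance `≤ exp (c √(log x))` merge in `C log x` steps with a positive probability which does not depend on the
number of the digits (`Mp`), and if the particles at the two ends of an interval have merged then so have almost all particles between them (`Cr`, `Gs`).
-/

set_option autoImplicit false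

namespace Pool.Agent.Helper28.NL.ResDraft

open Pool.Agent.Helper68.Moeller Pool.Agent.Helper8 Pool.Agent.Helper28 Pool.Agent.Helper28.NL
  Pool.Agent.Helper8.ND Pool.Agent.Helper91 Filter Topology

/-- The natural density (in the positive integers). -/
def HasDensity (A : Set ℤ) (D : ℝ) : Prop :=
  Tendsto (fun x : ℝ => ({n : ℤ | n ∈ A ∧ 0 < n ∧ (n : ℝ) ≤ x}.ncard : ℝ) / x) atTop (𝓝 D)

/-- `G` is invariant under `T`, in the positive integers. -/
def Inv (d m : ℕ) (r : ℤ → ℤ) (G : Set ℤ) : Prop := ∀ n : ℤ, 0 < n → (n ∈ G ↔ T d m r n ∈ G)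

/-- The number of the `n ∈ [x, 2x)` with the property `P`. -/
noncomputable def num (P : ℤ → Prop) (x : ℝ) : ℝ := ({n : ℤ | x ≤ n ∧ (n : ℝ) < 2 * x ∧ P n}.ncard : ℝ)

/-- The number of the `h ∈ [0, H]` with the property `P`. -/
noncomputable def win (P : ℤ → Prop) (H : ℝ) : ℝ := ({h : ℤ | 0 ≤ h ∧ (h : ℝ) ≤ H ∧ P h}.ncard : ℝ)

/-- The map `(3x + 1) / 2`, `x / 2`. -/
def T3 : ℤ → ℤ := T 2 3 (fun _ => -1)

/-- The orbit of `n` under `T3` reaches `1`. -/
def Reach (n : ℤ) : Prop := ∃ t : ℕ, T3^[t] n = 1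

/-- **Invariant sets in short intervals.** -/
theorem result :
    -- the maps `(3x - r) / 2`, `x / 2`
    (∀ r : ℤ → ℤ, Admissible 2 3 r →
      -- intervals of length `n ^ θ`, up to `n ^ θ / (log n) ^ A` integers
      (∀ θ A ε : ℝ, 0 < θ → θ < 1 → 0 < A → 0 < ε →
        (∀ D : ℝ, 0 < D → ∃ X : ℝ, ∀ G : Set ℤ, Inv 2 3 r G → HasDensity G D → ∀ x : ℝ, X ≤ x →
          x ^ (1 - ε) ≤ num (fun n => win (fun h => r 1 ∣ h ∧ n + h ∉ G) ((n : ℝ) ^ θ) ≤
            (n : ℝ) ^ θ / Real.log n ^ A) x) ∧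
        ((E 2 3 r).Finite ↔ ∃ B N : ℝ, ∀ n : ℤ, N ≤ n → (n : ℝ) ^ θ / Real.log n ^ A ≤
          win (fun h => r 1 ∣ h ∧ ∃ t : ℕ, ((T 2 3 r)^[t] (n + h) : ℝ) ≤ B) ((n : ℝ) ^ θ))) ∧
      -- intervals of all lengths up to `x exp (-C √(log x))`
      (∀ ε : ℝ, 0 < ε → ∃ C : ℝ, 0 < C ∧ ∀ D : ℝ, 0 < D → ∃ X : ℝ, ∀ G : Set ℤ, Inv 2 3 r G → HasDensity G D →
        ∀ x : ℝ, X ≤ x → ∀ H : ℝ, 1 ≤ H → H ≤ x * Real.exp (-(C * Real.sqrt (Real.log x))) →
          x * Real.exp (-(C * Real.sqrt (Real.log x))) ≤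
            num (fun n => win (fun h => r 1 ∣ h ∧ n + h ∉ G) H ≤ ε * H) x) ∧
      (∀ ε : ℝ, 0 < ε → ε * |((r 1 : ℤ) : ℝ)| ≤ 1 → ∃ C : ℝ, 0 < C ∧
        ((E 2 3 r).Finite ↔ ∃ B N : ℝ, ∀ n : ℤ, N ≤ n → ε * (n * Real.exp (-(C * Real.sqrt (Real.log n)))) ≤
          win (fun h => r 1 ∣ h ∧ ∃ t : ℕ, ((T 2 3 r)^[t] (n + h) : ℝ) ≤ B)
            (n * Real.exp (-(C * Real.sqrt (Real.log n)))))) ∧
      -- almost whole intervals at one point
      (r 1 = 1 ∨ r 1 = -1 → ∀ θ ε : ℝ, 0 < θ → θ < 1 → 0 < ε →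
        (∃ c : ℝ, 0 < c ∧ ∀ D : ℝ, 0 < D → ∃ X : ℝ, ∀ G : Set ℤ, Inv 2 3 r G → HasDensity G D → ∀ x : ℝ, X ≤ x →
          c * D * x ≤ num (fun n => ∃ (t : ℕ) (v : ℤ), (t : ℝ) ≤ 9 * Real.log n ∧
            win (fun h => ¬ (n + h ∈ G ∧ (T 2 3 r)^[t] (n + h) = v)) ((n : ℝ) ^ θ) ≤ ε * (n : ℝ) ^ θ) x) ∧
        (ε ≤ 1 → ((E 2 3 r).Finite ↔ ∃ B : ℝ, HasDensity {n : ℤ | ε * (n : ℝ) ^ θ ≤
          win (fun h => ∃ t : ℕ, ((T 2 3 r)^[t] (n + h) : ℝ) ≤ B) ((n : ℝ) ^ θ)} 1)))) ∧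
    -- the map `3x + 1`
    (∀ θ A ε : ℝ, 0 < θ → θ < 1 → 0 ≤ A → 0 < ε →
      -- almost all integers of many intervals reach `1`
      (∃ X : ℝ, ∀ x : ℝ, X ≤ x → x ^ (1 - ε) ≤ num (fun n => win (fun h => ¬ Reach (n + h)) ((n : ℝ) ^ θ) ≤
        (n : ℝ) ^ θ / Real.log n ^ A) x) ∧
      -- after the same number of steps
      (∃ c X : ℝ, 0 < c ∧ ∀ x : ℝ, X ≤ x → c * x ≤ num (fun n => ∃ s : ℕ,
        win (fun h => ¬ (T3^[s] (n + h) = 1 ∧ ∀ i < s, T3^[i] (n + h) ≠ 1)) ((n : ℝ) ^ θ) ≤ ε * (n : ℝ) ^ θ) x) ∧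
      -- all integers reach `1` if some integers of almost all or of all large intervals do
      (ε ≤ 1 → ((∀ n : ℤ, 0 < n → Reach n) ↔
        HasDensity {n : ℤ | ε * (n : ℝ) ^ θ ≤ win (fun h => Reach (n + h)) ((n : ℝ) ^ θ)} 1)) ∧
      ((∀ n : ℤ, 0 < n → Reach n) ↔ ∃ N : ℝ, ∀ n : ℤ, N ≤ n →
        (n : ℝ) ^ θ / Real.log n ^ A ≤ win (fun h => Reach (n + h)) ((n : ℝ) ^ θ)) ∧
      -- otherwise
      (¬ (∀ n : ℤ, 0 < n → Reach n) →
        (∃ X : ℝ, ∀ x : ℝ, X ≤ x → x ^ (1 - ε) ≤ num (fun n => win (fun h => Reach (n + h)) ((n : ℝ) ^ θ) ≤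
          (n : ℝ) ^ θ / Real.log n ^ A) x) ∧
        (∃ c X : ℝ, 0 < c ∧ ∀ x : ℝ, X ≤ x →
          c * x ≤ num (fun n => win (fun h => Reach (n + h)) ((n : ℝ) ^ θ) ≤ ε * (n : ℝ) ^ θ) x))) ∧
    (∀ ε : ℝ, 0 < ε → ε ≤ 1 → ∃ C : ℝ, 0 < C ∧ ((∀ n : ℤ, 0 < n → Reach n) ↔ ∃ N : ℝ, ∀ n : ℤ, N ≤ n →
      ε * (n * Real.exp (-(C * Real.sqrt (Real.log n)))) ≤
        win (fun h => Reach (n + h)) (n * Real.exp (-(C * Real.sqrt (Real.log n)))))) := by
  refine ⟨?_, ?_, ?_⟩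
  · intro r hr
    have hT : T 2 3 r = T 2 3 (fun _ => r 1) := CO.T_eq
    have hstd := std_of hr
    have hstd1 := std_of (adm_const hr)
    refine ⟨?_, ?_, ?_, ?_⟩
    · intro θ A ε hθ0 hθ1 hA hε
      refine ⟨?_, exc_theta hr (f2_of hr) hθ0 hθ1 hA⟩
      intro D hD
      obtain ⟨X, hX⟩ := inv_theta hr hθ0 hθ1 hA.le hε hD
      exact ⟨X, fun G hG hGD x hx => hX G hG hGD x hx⟩
    · intro ε hε
      obtain ⟨C, hC, h⟩ := inv_exp hr hε
      refine ⟨C, hC, fun D hD => ?_⟩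
      obtain ⟨X, hX⟩ := h D hD
      exact ⟨X, fun G hG hGD x hx H hH1 hH => hX G hG hGD x hx H hH1 hH⟩
    · intro ε hε hε1
      exact exc_exp hr (f1_of hr) hε hε1
    · intro hρ θ ε hθ0 hθ1 hε
      refine ⟨?_, fun hε1 => SI.exc_short hρ hstd (level_of hstd1) (flow_of hstd1) hθ0 hθ1 hε hε1⟩
      obtain ⟨c, hc, h⟩ := SI.inv_windows hρ hstd1 (level_of hstd1) (flow_of hstd1) hθ0 hθ1 hε
      refine ⟨c, hc, fun D hD => ?_⟩
      obtain ⟨X, hX⟩ := h D hD
      refine ⟨X, fun G hG hGD x hx => ?_⟩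
      have h1 := hX G (fun n hn => by rw [← hT]; exact hG n hn) hGD x hx
      rw [← hT] at h1
      exact h1
  · intro θ A ε hθ0 hθ1 hA hε
    have hstd := POSB.std_three
    obtain ⟨h1, h2⟩ := SI.three_short (level_of hstd) (flow_of hstd) hθ0 hθ1
    refine ⟨three_most hθ0 hθ1 hA hε, h2 ε hε, fun hε1 => h1 ε hε hε1, three_theta (f2_of (r := fun _ => -1) adm_three) hθ0 hθ1 hA, ?_⟩
    intro hno
    exact ⟨three_few hθ0 hθ1 hA hε hno, SI.three_alt (level_of hstd) (flow_of hstd) hθ0 hθ1 hε hno⟩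
  · intro ε hε hε1
    exact three_exp (f1_of (r := fun _ => -1) adm_three) hε hε1

end Pool.Agent.Helper28.NL.ResDraft
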