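import Pool.Agent.Helper28.NL.FlowS
import Pool.Agent.Helper28.BE.FinalBeyond

/-!
# NL1b: one step in a short interval
-/

set_option autoImplicit false

namespace Pool.Agent.Helper28.NL

open Pool.Agent.Helper68.Moeller Pool.Agent.Helper52.Tao Pool.Agent.Helper8.ND Pool.Agent.Helper28.BE

variable {d m : ℕ} {r : ℤ → ℤ}

/-- Shifts by multiples of `d ^ t`. -/
theorem iter_shift (hd : 2 ≤ d) (hco : Nat.Coprime m d) (hr : Admissible d m r) (t : ℕ) (n j : ℤ) :
    (T d m r)^[t] (n + (d : ℤ) ^ t * j) = (T d m r)^[t] n + (m : ℤ) ^ cnt d m r t n * j ∧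
    cnt d m r t (n + (d : ℤ) ^ t * j) = cnt d m r t n := by
  rw [fb_cnt_eq hd, fb_cnt_eq hd]
  have h1 := wd_unique hd hco hr (wd_mem (m := m) hd r t n) (n := n + (d : ℤ) ^ t * j)
    (y := (T d m r)^[t] n + (m : ℤ) ^ sg (wd d m r t n) * j) (by
      have h := wd_spec hd hr t n
      linear_combination -h)
  exact ⟨h1.2, by rw [h1.1]⟩

/-- The location of the iterates. -/
theorem iter_near (hd : 2 ≤ d) (hdm : d < m) (hr : Admissible d m r) {B : ℕ}
    (hB : ∀ j : ℤ, 0 < j → j < (d : ℤ) → |r j| ≤ B) (t : ℕ) (n : ℤ) :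
    |((T d m r)^[t] n : ℝ) - n * (m : ℝ) ^ cnt d m r t n / (d : ℝ) ^ t| ≤ B * (m : ℝ) ^ t := by
  have hd0 : (0 : ℝ) < (d : ℝ) ^ t := by
    have : 0 < d := by omega
    positivity
  have hd1 : (1 : ℝ) ≤ (d : ℝ) ^ t := one_le_pow₀ (by exact_mod_cast (by omega : 1 ≤ d))
  rw [fb_cnt_eq hd]
  have h1 := wd_spec hd hr t n
  have h2 := abs_Off_le hd hdm hB (wd_mem (m := m) hd r t n)
  have h3 : (d : ℝ) ^ t * ((T d m r)^[t] n : ℝ) =
      (m : ℝ) ^ sg (wd d m r t n) * n - (Off d m r (wd d m r t n) : ℝ) := by exact_mod_cast h1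
  have h4 : |(Off d m r (wd d m r t n) : ℝ)| ≤ B * (m : ℝ) ^ t := by exact_mod_cast h2
  have h5 : ((T d m r)^[t] n : ℝ) - n * (m : ℝ) ^ sg (wd d m r t n) / (d : ℝ) ^ t =
      -(Off d m r (wd d m r t n) : ℝ) / (d : ℝ) ^ t := by
    field_simp
    linear_combination h3
  rw [h5, abs_div, abs_neg, abs_of_pos hd0, div_le_iff₀ hd0]
  have h6 : (0 : ℝ) ≤ B * (m : ℝ) ^ t := by positivity
  nlinarith

theorem sd_fin (G : Set ℤ) (a L : ℝ) : {n : ℤ | a ≤ n ∧ (n : ℝ) < a + L ∧ n ∈ G}.Finite :=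
  (finite_Ico a (a + L)).subset fun _ h => ⟨h.1, h.2.1⟩

theorem sd_nonneg (G : Set ℤ) (a : ℝ) {L : ℝ} (hL : 0 ≤ L) : 0 ≤ sd G a L := by
  unfold sd
  positivity

theorem sd_le (G : Set ℤ) (a : ℝ) {L : ℝ} (hL : 1 ≤ L) : sd G a L ≤ 2 := by
  unfold sd
  rw [div_le_iff₀ (by linarith)]
  have h1 : {n : ℤ | a ≤ n ∧ (n : ℝ) < a + L ∧ n ∈ G} ⊆ {n : ℤ | a ≤ n ∧ (n : ℝ) < a + L} :=
    fun _ h => ⟨h.1, h.2.1⟩
  have h2 := Set.ncard_le_ncard h1 (finite_Ico a (a + L))
  have h3 := ncard_Ico_le a (δ := L) (by linarith)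
  have h4 : ({n : ℤ | a ≤ n ∧ (n : ℝ) < a + L ∧ n ∈ G}.ncard : ℝ) ≤
      ({n : ℤ | a ≤ n ∧ (n : ℝ) < a + L}.ncard : ℝ) := by exact_mod_cast h2
  linarith

/-- Translation and a slightly larger interval. -/
theorem ncard_shift_le (P Q : Set ℤ) {b : ℤ} {x y x' y' z E : ℝ} (hE : 0 ≤ E)
    (h : ∀ n : ℤ, x ≤ n → (n : ℝ) < y → n ∈ P →
      (x' ≤ ((n + b : ℤ) : ℝ) ∧ ((n + b : ℤ) : ℝ) < y' ∧ n + b ∈ Q) ∨
      (z ≤ ((n + b : ℤ) : ℝ) ∧ ((n + b : ℤ) : ℝ) < z + E)) :
    ({n : ℤ | x ≤ n ∧ (n : ℝ) < y ∧ n ∈ P}.ncard : ℝ) ≤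
      ({n : ℤ | x' ≤ n ∧ (n : ℝ) < y' ∧ n ∈ Q}.ncard : ℝ) + (E + 1) := by
  have hf1 : {n : ℤ | x' ≤ n ∧ (n : ℝ) < y' ∧ n ∈ Q}.Finite :=
    (finite_Ico x' y').subset fun _ h => ⟨h.1, h.2.1⟩
  have hf2 := finite_Ico z (z + E)
  have hmap : Set.MapsTo (fun n : ℤ => n + b) {n : ℤ | x ≤ n ∧ (n : ℝ) < y ∧ n ∈ P}
      ({n : ℤ | x' ≤ n ∧ (n : ℝ) < y' ∧ n ∈ Q} ∪ {n : ℤ | z ≤ n ∧ (n : ℝ) < z + E}) := by
    rintro n ⟨h1, h2, h3⟩
    exact h n h1 h2 h3
  have h1 := Set.ncard_le_ncard_of_injOn _ hmap (fun _ _ _ _ h => add_right_cancel h) (hf1.union hf2)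
  have h2 := Set.ncard_union_le {n : ℤ | x' ≤ n ∧ (n : ℝ) < y' ∧ n ∈ Q}
    {n : ℤ | z ≤ n ∧ (n : ℝ) < z + E}
  have h3 := ncard_Ico_le z hE
  have h4 : ({n : ℤ | x ≤ n ∧ (n : ℝ) < y ∧ n ∈ P}.ncard : ℝ) ≤
      ({n : ℤ | x' ≤ n ∧ (n : ℝ) < y' ∧ n ∈ Q}.ncard : ℝ) +
        ({n : ℤ | z ≤ n ∧ (n : ℝ) < z + E}.ncard : ℝ) := by exact_mod_cast h1.trans h2
  linarith

/-- Which level. -/
private theorem level_unique {m : ℝ} (hm : 3 ≤ m) {x E : ℝ} (hx : 2 * E < x) (hE : 0 ≤ E) {s s' : ℕ}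
    {z : ℝ} (h1 : x * m ^ s - E ≤ z) (h2 : z < 2 * (x * m ^ s') + E) : s ≤ s' := by
  by_contra hcon
  push Not at hcon
  have h3 : m ^ (s' + 1) ≤ m ^ s := pow_le_pow_right₀ (by linarith) hcon
  have h4 : 1 ≤ m ^ s' := one_le_pow₀ (by linarith)
  have hx0 : 0 < x := by linarith
  have h5 : x * m ^ (s' + 1) ≤ x * m ^ s := mul_le_mul_of_nonneg_left h3 hx0.le
  have h6 : x * (3 * m ^ s') ≤ x * m ^ (s' + 1) := by
    rw [pow_succ, mul_comm (m ^ s') m]
    exact mul_le_mul_of_nonneg_left (mul_le_mul_of_nonneg_right hm (by linarith)) hx0.le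
  have h7 : x * 1 ≤ x * m ^ s' := mul_le_mul_of_nonneg_left h4 hx0.le
  linarith

theorem short_step (hd : 2 ≤ d) (hdm : d < m) (hco : Nat.Coprime m d) (hr : Admissible d m r)
    (h1 : Mixing d m r) (A : ℝ) :
    ∃ C : ℝ, 1 ≤ C ∧ ∀ t : ℕ, 1 ≤ t → ∀ a L : ℝ, C * ((d : ℝ) * m) ^ (8 * t) ≤ L → ∀ G : ℕ → Set ℤ,
      sd {n | (T d m r)^[t + t] n ∈ G (cnt d m r (t + t) n)} a L ≤
        (∑ v ∈ W d t, sd {n | (T d m r)^[t] n ∈ G (sg v + cnt d m r t n)}
          (a * (m : ℝ) ^ sg v / (d : ℝ) ^ t) (L * (m : ℝ) ^ sg v / (d : ℝ) ^ t)) / (d : ℝ) ^ t +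
        C * (t : ℝ) ^ (-A) := by
  obtain ⟨C0, hC0, hflow⟩ := flowS hd hdm hco hr h1 A
  obtain ⟨B, hB⟩ := FL_exists_B d r
  obtain ⟨C3, hC3, hexp⟩ := exists_C3 |A|
  have hB0 : (0 : ℝ) ≤ (B : ℝ) := by positivity
  refine ⟨C0 + 5 * C3 + 4 * B + 4, by linarith, ?_⟩
  obtain ⟨C, hC⟩ : ∃ C, C = C0 + 5 * C3 + 4 * B + 4 := ⟨_, rfl⟩
  rw [← hC]
  intro t ht a L hL G
  have ht1 : (1 : ℝ) ≤ t := by exact_mod_cast ht
  have hm3 : 3 ≤ m := by omega
  have hd1R : (1 : ℝ) ≤ d := by exact_mod_cast (by omega : 1 ≤ d)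
  have hm1R : (1 : ℝ) ≤ m := by exact_mod_cast (by omega : 1 ≤ m)
  have hd2R : (2 : ℝ) ≤ d := by exact_mod_cast hd
  have hm2R : (2 : ℝ) ≤ m := by exact_mod_cast (by omega : 2 ≤ m)
  have hm3R : (3 : ℝ) ≤ m := by exact_mod_cast hm3
  obtain ⟨D, hD⟩ : ∃ D : ℝ, D = (d : ℝ) ^ t := ⟨_, rfl⟩
  obtain ⟨M, hM⟩ : ∃ M : ℝ, M = (m : ℝ) ^ t := ⟨_, rfl⟩
  have hD1 : 1 ≤ D := hD ▸ one_le_pow₀ hd1R
  have hM1 : 1 ≤ M := hM ▸ one_le_pow₀ hm1R
  have hD0 : 0 < D := by linarith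
  have hM0 : 0 < M := by linarith
  have hDM1 : 1 ≤ D * M := one_le_mul_of_one_le_of_one_le hD1 hM1
  have hDM0 : 0 < D * M := by positivity
  have hC1 : 1 ≤ C := by rw [hC]; linarith
  have hP8 : ((d : ℝ) * m) ^ (8 * t) = (D * M) ^ 8 := by
    rw [hD, hM, ← mul_pow, ← pow_mul, mul_comm 8 t]
  have hDD : (d : ℝ) ^ (t + t) = D * D := by rw [hD, pow_add]
  have hMM : (m : ℝ) ^ (t + t) = M * M := by rw [hM, pow_add]
  have hLC0 : C0 * ((d : ℝ) * m) ^ (8 * t) ≤ L := by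
    refine le_trans ?_ hL
    apply mul_le_mul_of_nonneg_right _ (by positivity)
    rw [hC]; linarith
  rw [hP8] at hL
  have hL3 : C * (D * M) ^ 3 ≤ L := by
    refine le_trans ?_ hL
    exact mul_le_mul_of_nonneg_left (pow_le_pow_right₀ hDM1 (by norm_num)) (by linarith)
  have hL4 : C * (D * M) ^ 4 ≤ L := by
    refine le_trans ?_ hL
    exact mul_le_mul_of_nonneg_left (pow_le_pow_right₀ hDM1 (by norm_num)) (by linarith)
  have hL1 : 1 ≤ L := by
    refine le_trans ?_ hL4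
    exact one_le_mul_of_one_le_of_one_le hC1 (one_le_pow₀ hDM1)
  have hL0 : 0 < L := by linarith
  obtain ⟨q, hq⟩ : ∃ q : ℤ, q = ⌊(a - L) / (D * D)⌋ := ⟨_, rfl⟩
  have hDD0 : 0 < D * D := by positivity
  have hq1 : (D * D) * q ≤ a - L := by
    have := Int.floor_le ((a - L) / (D * D))
    rw [← hq, le_div_iff₀ hDD0] at this
    linarith
  have hq2 : a - L < (D * D) * q + D * D := by
    have := Int.lt_floor_add_one ((a - L) / (D * D))
    rw [← hq, div_lt_iff₀ hDD0] at this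
    linarith
  -- the sets
  obtain ⟨E, hE⟩ : ∃ E : ℝ, E = B * (M * M) := ⟨_, rfl⟩
  have hE0 : 0 ≤ E := by rw [hE]; positivity
  obtain ⟨G', hG'⟩ : ∃ G' : Set ℤ, G' = {z : ℤ | ∃ s : ℕ, L * (m : ℝ) ^ s / (D * D) - E ≤ z ∧
    (z : ℝ) < 2 * (L * (m : ℝ) ^ s / (D * D)) + E ∧ z + (m : ℤ) ^ s * q ∈ G s} := ⟨_, rfl⟩
  have hfl := hflow t ht L hLC0 G'
  rw [← hD] at hfl ⊢
  -- the left side
  have hleft : sd {n | (T d m r)^[t + t] n ∈ G (cnt d m r (t + t) n)} a L ≤
      fd {n | (T d m r)^[t + t] n ∈ G'} L + (D * D + 1) / L := by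
    unfold sd fd
    rw [← add_div]
    apply div_le_div_of_nonneg_right _ hL0.le
    have h2 : ({n : ℤ | a ≤ n ∧ (n : ℝ) < a + L ∧
        n ∈ {n | (T d m r)^[t + t] n ∈ G (cnt d m r (t + t) n)}}.ncard : ℝ) ≤
        ({n : ℤ | L ≤ n ∧ (n : ℝ) < 2 * L ∧ n ∈ {n | (T d m r)^[t + t] n ∈ G'}}.ncard : ℝ) +
          (D * D + 1) := by
      refine ncard_shift_le _ _ (b := -((d : ℤ) ^ (t + t) * q)) (z := 2 * L) hDD0.le ?_
      intro n hn1 hn2 hn3
      have e1 : ((n + -((d : ℤ) ^ (t + t) * q) : ℤ) : ℝ) = n - D * D * q := by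
        push_cast
        rw [hDD]
        ring
      rcases lt_or_ge ((n : ℝ) - D * D * q) (2 * L) with h3 | h3
      · left
        rw [e1]
        refine ⟨by linarith, h3, ?_⟩
        obtain ⟨u, hu⟩ : ∃ u : ℤ, u = n + -((d : ℤ) ^ (t + t) * q) := ⟨_, rfl⟩
        rw [← hu] at e1 ⊢
        have hun : n = u + (d : ℤ) ^ (t + t) * q := by rw [hu]; ring
        obtain ⟨h4, h5⟩ := iter_shift hd hco hr (t + t) u q
        rw [← hun] at h4 h5
        change (T d m r)^[t + t] n ∈ G (cnt d m r (t + t) n) at hn3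
        rw [h4, h5] at hn3
        change (T d m r)^[t + t] u ∈ G'
        rw [hG']
        refine ⟨cnt d m r (t + t) u, ?_, ?_, hn3⟩
        · have h6 := (abs_le.1 (iter_near hd hdm hr hB (t + t) u)).1
          rw [hDD, hMM, ← hE] at h6
          have h7 : L * (m : ℝ) ^ cnt d m r (t + t) u / (D * D) ≤
              u * (m : ℝ) ^ cnt d m r (t + t) u / (D * D) := by
            apply div_le_div_of_nonneg_right _ hDD0.le
            exact mul_le_mul_of_nonneg_right (by rw [e1]; linarith) (by positivity)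
          linarith
        · have h6 := (abs_le.1 (iter_near hd hdm hr hB (t + t) u)).2
          rw [hDD, hMM, ← hE] at h6
          have h7 : u * (m : ℝ) ^ cnt d m r (t + t) u / (D * D) <
              2 * (L * (m : ℝ) ^ cnt d m r (t + t) u / (D * D)) := by
            rw [← mul_div_assoc, div_lt_div_iff_of_pos_right hDD0, ← mul_assoc]
            exact mul_lt_mul_of_pos_right (by rw [e1]; linarith) (by positivity)
          linarith
      · right
        rw [e1]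
        exact ⟨h3, by linarith⟩
    exact h2
  -- the right side
  have hright : ∀ v : List ℕ, fd {n | (T d m r)^[t] n ∈ G'} (L * (m : ℝ) ^ sg v / D) ≤
      sd {n | (T d m r)^[t] n ∈ G (sg v + cnt d m r t n)} (a * (m : ℝ) ^ sg v / D)
        (L * (m : ℝ) ^ sg v / D) + 2 * (D * D) / L := by
    intro v
    obtain ⟨p, hp⟩ : ∃ p : ℝ, p = (m : ℝ) ^ sg v := ⟨_, rfl⟩
    have hp1 : 1 ≤ p := by rw [hp]; exact one_le_pow₀ hm1R
    have hp0 : 0 < p := by linarith
    rw [← hp]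
    have hα0 : 0 < L * p / D := by positivity
    have hmain : fd {n | (T d m r)^[t] n ∈ G'} (L * p / D) ≤
        sd {n | (T d m r)^[t] n ∈ G (sg v + cnt d m r t n)} (a * p / D) (L * p / D) +
          (D * p + 1) / (L * p / D) := by
      unfold sd fd
      rw [← add_div]
      apply div_le_div_of_nonneg_right _ hα0.le
      refine ncard_shift_le _ _ (b := (d : ℤ) ^ t * ((m : ℤ) ^ sg v * q)) (z := a * p / D - D * p)
        (by positivity) ?_
      intro y hy1 hy2 hy3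
      have e1 : ((y + (d : ℤ) ^ t * ((m : ℤ) ^ sg v * q) : ℤ) : ℝ) = y + D * (p * q) := by
        push_cast
        rw [hD, hp]
      have e2 : L * p / D + D * (p * q) = (L + D * D * q) * p / D := by
        field_simp
      have e3 : a * p / D - D * p = (a - D * D) * p / D := by
        field_simp
      have e4 : 2 * (L * p / D) + D * (p * q) = (2 * L + D * D * q) * p / D := by
        field_simp
      have e5 : a * p / D + L * p / D = (a + L) * p / D := by
        field_simp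
      have hlow : a * p / D - D * p ≤ y + D * (p * q) := by
        rw [e3]
        have h3 : (a - D * D) * p / D ≤ (L + D * D * q) * p / D := by
          apply div_le_div_of_nonneg_right _ hD0.le
          exact mul_le_mul_of_nonneg_right (by linarith) hp0.le
        linarith
      have hupp : y + D * (p * q) < a * p / D + L * p / D := by
        rw [e5]
        have h3 : (2 * L + D * D * q) * p / D ≤ (a + L) * p / D := by
          apply div_le_div_of_nonneg_right _ hD0.le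
          exact mul_le_mul_of_nonneg_right (by linarith) hp0.le
        linarith
      rcases lt_or_ge ((y : ℝ) + D * (p * q)) (a * p / D) with h3 | h3
      · right
        rw [e1]
        exact ⟨hlow, by linarith⟩
      · left
        rw [e1]
        refine ⟨h3, hupp, ?_⟩
        obtain ⟨h4, h5⟩ := iter_shift hd hco hr t y ((m : ℤ) ^ sg v * q)
        change (T d m r)^[t] (y + (d : ℤ) ^ t * ((m : ℤ) ^ sg v * q)) ∈
          G (sg v + cnt d m r t (y + (d : ℤ) ^ t * ((m : ℤ) ^ sg v * q)))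
        rw [h4, h5]
        change (T d m r)^[t] y ∈ G' at hy3
        rw [hG'] at hy3
        obtain ⟨s, hs1, hs2, hs3⟩ := hy3
        have hnear := abs_le.1 (iter_near hd hdm hr hB t y)
        rw [← hD, ← hM] at hnear
        have hBE : B * M ≤ E := by
          rw [hE]
          exact mul_le_mul_of_nonneg_left (le_mul_of_one_le_left hM0.le hM1) hB0
        have hx : 2 * E < L / (D * D) := by
          rw [lt_div_iff₀ hDD0, hE]
          have h6 : 2 * (B * (M * M)) * (D * D) < C * (D * M) ^ 2 := by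
            have h7 : 2 * (B * (M * M)) * (D * D) = 2 * B * (D * M) ^ 2 := by ring
            rw [h7]
            apply mul_lt_mul_of_pos_right _ (by positivity)
            rw [hC]
            linarith
          have h8 : C * (D * M) ^ 2 ≤ C * (D * M) ^ 3 :=
            mul_le_mul_of_nonneg_left (pow_le_pow_right₀ hDM1 (by norm_num)) (by linarith)
          linarith
        have e6 : ∀ k : ℕ, L * (m : ℝ) ^ k / (D * D) = L / (D * D) * (m : ℝ) ^ k := fun k => by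
          field_simp
        have e7 : L * p / D * (m : ℝ) ^ cnt d m r t y / D =
            L / (D * D) * (m : ℝ) ^ (sg v + cnt d m r t y) := by
          rw [hp, pow_add]
          field_simp
        have hz1 : L / (D * D) * (m : ℝ) ^ (sg v + cnt d m r t y) - E ≤ ((T d m r)^[t] y : ℝ) := by
          rw [← e7]
          have h6 : L * p / D * (m : ℝ) ^ cnt d m r t y / D ≤ y * (m : ℝ) ^ cnt d m r t y / D := by
            apply div_le_div_of_nonneg_right _ hD0.le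
            exact mul_le_mul_of_nonneg_right hy1 (by positivity)
          linarith [hnear.1]
        have hz2 : ((T d m r)^[t] y : ℝ) < 2 * (L / (D * D) * (m : ℝ) ^ (sg v + cnt d m r t y)) + E := by
          rw [← e7]
          have h6 : y * (m : ℝ) ^ cnt d m r t y / D < 2 * (L * p / D * (m : ℝ) ^ cnt d m r t y / D) := by
            rw [← mul_div_assoc, div_lt_div_iff_of_pos_right hD0, ← mul_assoc]
            exact mul_lt_mul_of_pos_right hy2 (by positivity)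
          linarith [hnear.2]
        rw [e6] at hs1 hs2
        have hs : s = sg v + cnt d m r t y :=
          le_antisymm (level_unique hm3R hx hE0 hs1 hz2) (level_unique hm3R hx hE0 hz1 hs2)
        rw [hs, pow_add] at hs3
        have e8 : (m : ℤ) ^ cnt d m r t y * ((m : ℤ) ^ sg v * q) =
            (m : ℤ) ^ sg v * (m : ℤ) ^ cnt d m r t y * q := by ring
        rw [e8]
        exact hs3
    refine hmain.trans (add_le_add le_rfl ?_)
    rw [div_le_div_iff₀ hα0 hL0]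
    have h3 : 2 * (D * D) * (L * p / D) = 2 * D * (L * p) := by field_simp
    rw [h3]
    have h4 : 1 ≤ D * p := one_le_mul_of_one_le_of_one_le hD1 hp1
    calc (D * p + 1) * L ≤ (D * p + D * p) * L :=
          mul_le_mul_of_nonneg_right (by linarith) hL0.le
      _ = 2 * D * (L * p) := by ring
  -- summation
  have hsum : (∑ v ∈ W d t, fd {n | (T d m r)^[t] n ∈ G'} (L * (m : ℝ) ^ sg v / D)) / D ≤
      (∑ v ∈ W d t, sd {n | (T d m r)^[t] n ∈ G (sg v + cnt d m r t n)} (a * (m : ℝ) ^ sg v / D)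
        (L * (m : ℝ) ^ sg v / D)) / D + 2 * (D * D) / L := by
    rw [div_add' _ _ _ hD0.ne']
    apply div_le_div_of_nonneg_right _ hD0.le
    refine (Finset.sum_le_sum fun v _ => hright v).trans (le_of_eq ?_)
    rw [Finset.sum_add_distrib, Finset.sum_const, card_W, nsmul_eq_mul]
    push_cast
    rw [← hD]
    ring
  -- the errors
  have herr : (D * D + 1) / L + 2 * (D * D) / L ≤ 4 * (9 / 10) ^ t := by
    rw [← add_div, div_le_iff₀ hL0]
    have h3 : 1 ≤ (9 / 10 : ℝ) ^ t * (D * M) := by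
      rw [hD, hM, ← mul_pow, ← mul_pow]
      apply one_le_pow₀
      exact one_le_nine_tenths hd2R hm2R
    have h4 : D * D ≤ (D * M) ^ 2 := by
      rw [mul_pow, sq D]
      exact le_mul_of_one_le_right hDD0.le (one_le_pow₀ hM1)
    have h5 : (D * M) ^ 3 ≤ L := le_trans (le_mul_of_one_le_left (by positivity) hC1) hL3
    have h6 : 1 ≤ D * D := one_le_mul_of_one_le_of_one_le hD1 hD1
    have h9 : (0 : ℝ) < (9 / 10) ^ t := by positivity
    calc D * D + 1 + 2 * (D * D) ≤ 4 * (D * M) ^ 2 := by linarith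
      _ ≤ 4 * ((D * M) ^ 2 * ((9 / 10 : ℝ) ^ t * (D * M))) := by
          apply mul_le_mul_of_nonneg_left _ (by norm_num)
          exact le_mul_of_one_le_right (by positivity) h3
      _ = 4 * (9 / 10) ^ t * (D * M) ^ 3 := by ring
      _ ≤ 4 * (9 / 10) ^ t * L := mul_le_mul_of_nonneg_left h5 (by positivity)
  have hTA : (t : ℝ) ^ (-|A|) ≤ (t : ℝ) ^ (-A) :=
    Real.rpow_le_rpow_of_exponent_le ht1 (neg_le_neg (le_abs_self A))
  have hTA0 : 0 < (t : ℝ) ^ (-A) := Real.rpow_pos_of_pos (by linarith) _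
  have h10 : 4 * (9 / 10 : ℝ) ^ t ≤ 4 * (C3 * (t : ℝ) ^ (-A)) := by
    apply mul_le_mul_of_nonneg_left _ (by norm_num)
    exact (hexp t ht).trans (mul_le_mul_of_nonneg_left hTA hC3.le)
  have h11 : C0 * (t : ℝ) ^ (-A) + 4 * (C3 * (t : ℝ) ^ (-A)) ≤ C * (t : ℝ) ^ (-A) := by
    have : C0 * (t : ℝ) ^ (-A) + 4 * (C3 * (t : ℝ) ^ (-A)) = (C0 + 4 * C3) * (t : ℝ) ^ (-A) := by ring
    rw [this]
    apply mul_le_mul_of_nonneg_right _ hTA0.le
    rw [hC]
    linarith
  linarith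

end Pool.Agent.Helper28.NL
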