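import Pool.Agent.Helper28.NL.Def
import Pool.Agent.Helper8.PW.Fin
import Pool.Agent.Helper8.SI.M5
import Pool.Agent.Helper85.PW.S1

/-!
# NL3a: multi-level windows to the right; membership
-/

set_option autoImplicit false

namespace Pool.Agent.Helper28.NL

open Pool.Agent.Helper68.Moeller Pool.Agent.Helper52.Tao Pool.Agent.Helper8.ND Pool.Agent.Helper8.CO
  Pool.Agent.Helper8.PW Pool.Agent.Helper85.PW Filter Topology

variable {ρ : ℤ}

/-- Multi-level windows to the right. -/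
def SWLr (ρ : ℤ) : Prop := ∃ K : ℕ, 0 < K ∧ ∀ᶠ t : ℕ in atTop, ∃ a : ℤ, ∀ (l : ℕ) (h : ℤ), (l : ℝ) ≤ t / K →
  0 ≤ h → ρ ∣ h → (h : ℝ) ≤ Real.exp (t / K) → MM ρ (K * t) l a (3 ^ l * a + h)

theorem swlr (hρ : Odd ρ) (hs : SWL ρ) : SWLr ρ := by
  obtain ⟨K, hK, hev⟩ := hs
  refine ⟨4 * K, by omega, hev.mono ?_⟩
  rintro t ⟨a, ha⟩
  have hρ0 : ρ ≠ 0 := by
    rintro rfl
    exact absurd hρ (by decide)
  have hKR : (0 : ℝ) < K := by exact_mod_cast hK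
  have hK1 : (1 : ℝ) ≤ K := by exact_mod_cast hK
  have ht0 : (0 : ℝ) ≤ t := Nat.cast_nonneg t
  have hsteps : K * t ≤ 4 * K * t := Nat.mul_le_mul_right t (by omega)
  have hcast : ((4 * K : ℕ) : ℝ) = 4 * K := by push_cast; ring
  rw [hcast]
  have htK : (t : ℝ) / (4 * K) ≤ t / K := by
    apply div_le_div_of_nonneg_left ht0 hKR
    linarith
  have hlt : ∀ l : ℕ, (l : ℝ) ≤ t / (4 * K) → l ≤ t := by
    intro l hl
    have h1 : (t : ℝ) / (4 * K) ≤ t := div_le_self ht0 (by linarith)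
    exact_mod_cast hl.trans h1
  rcases lt_or_gt_of_ne hρ0 with hneg | hpos
  · set J : ℕ := ⌊Real.exp ((t : ℝ) / (4 * K))⌋₊ with hJ
    have hJle : (J : ℝ) ≤ Real.exp ((t : ℝ) / (4 * K)) := Nat.floor_le (Real.exp_pos _).le
    refine ⟨a + ρ * J, ?_⟩
    rintro l h hl hh ⟨e, rfl⟩ hle
    have he : e ≤ 0 := by
      by_contra hcon
      push Not at hcon
      nlinarith
    obtain ⟨i, hi⟩ := Int.eq_ofNat_of_zero_le (neg_nonneg.mpr he)
    have e1 : e = -(i : ℤ) := by omega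
    subst e1
    have hi1 : (i : ℝ) ≤ ((ρ * -(i : ℤ) : ℤ) : ℝ) := by
      have h1 : (i : ℤ) ≤ ρ * -(i : ℤ) := by
        have : (0 : ℤ) ≤ i := Int.natCast_nonneg i
        nlinarith
      exact_mod_cast h1
    have hi2 : i ≤ J := Nat.le_floor (hi1.trans hle)
    have hi3 : i ≤ 3 ^ l * J := hi2.trans (Nat.le_mul_of_pos_left J (by positivity))
    have hbound : ((3 ^ l * J : ℕ) : ℝ) ≤ Real.exp ((t : ℝ) / K) := by
      push_cast
      have h3 : (3 : ℝ) ^ l ≤ Real.exp (2 * (t / (4 * K))) := by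
        have h4 : (3 : ℝ) ≤ Real.exp 2 := by
          have := Real.add_one_le_exp (2 : ℝ)
          linarith
        calc (3 : ℝ) ^ l ≤ Real.exp 2 ^ l := pow_le_pow_left₀ (by norm_num) h4 l
          _ = Real.exp (l * 2) := by rw [← Real.exp_nat_mul]
          _ ≤ _ := Real.exp_le_exp.2 (by linarith)
      calc (3 : ℝ) ^ l * J ≤ Real.exp (2 * (t / (4 * K))) * Real.exp (t / (4 * K)) :=
            mul_le_mul h3 hJle (Nat.cast_nonneg _) (Real.exp_pos _).le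
        _ = Real.exp (3 * (t / (4 * K))) := by
            rw [← Real.exp_add]
            congr 1
            ring
        _ ≤ Real.exp (t / K) := by
            apply Real.exp_le_exp.2
            have e : (t : ℝ) / K = 4 * (t / (4 * K)) := by field_simp
            rw [e]
            have : 0 ≤ (t : ℝ) / (4 * K) := by positivity
            linarith
    have hJ2 : (J : ℝ) ≤ Real.exp ((t : ℝ) / K) := hJle.trans (Real.exp_le_exp.2 htK)
    have h1 := ha 0 J (Nat.zero_le _) hJ2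
    have h2 := ha l (3 ^ l * J - i) (hlt l hl) (by
      have : ((3 ^ l * J - i : ℕ) : ℝ) ≤ ((3 ^ l * J : ℕ) : ℝ) := by exact_mod_cast Nat.sub_le _ _
      linarith)
    rw [pow_zero, one_mul] at h1
    rw [Nat.cast_sub hi3] at h2
    have e2 : (3 : ℤ) ^ l * (a + ρ * J) + ρ * -(i : ℤ) = 3 ^ l * a + ρ * (((3 ^ l * J : ℕ) : ℤ) - i) := by
      push_cast
      ring
    rw [e2]
    refine MM_mono hsteps ?_
    exact ⟨h1.1.symm.trans h2.1, by
      have g1 := h1.2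
      have g2 := h2.2
      omega⟩
  · refine ⟨a, ?_⟩
    rintro l h hl hh ⟨e, rfl⟩ hle
    have he : 0 ≤ e := by
      by_contra hcon
      push Not at hcon
      nlinarith
    obtain ⟨i, rfl⟩ := Int.eq_ofNat_of_zero_le he
    have hi1 : (i : ℝ) ≤ ((ρ * (i : ℤ) : ℤ) : ℝ) := by
      have h1 : (i : ℤ) ≤ ρ * (i : ℤ) := by nlinarith
      exact_mod_cast h1
    exact MM_mono hsteps (ha l i (hlt l hl) ((hi1.trans hle).trans (Real.exp_le_exp.2 htK)))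

/-- Membership through windows of different levels. -/
theorem MM_memL (hρ : Odd ρ) {G : Set ℤ} {z : ℝ} (hz : 0 ≤ z) (hG : TInv 2 3 (fun _ => ρ) G z)
    {k l : ℕ} {y h : ℤ} (hy : (2 : ℝ) ^ k * (|(ρ : ℝ)| + z + 1) ≤ y) (hh : 0 ≤ h)
    (h' : MM ρ k l y (3 ^ l * y + h)) : y ∈ G ↔ 3 ^ l * y + h ∈ G := by
  have hy0 : (0 : ℝ) ≤ y := by
    have := abs_nonneg (ρ : ℝ)
    have : (0 : ℝ) ≤ (2 : ℝ) ^ k * (|(ρ : ℝ)| + z + 1) := by positivity
    linarith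
  have hn' : (2 : ℝ) ^ k * (|(ρ : ℝ)| + z + 1) ≤ ((3 ^ l * y + h : ℤ) : ℝ) := by
    have h1 : (0 : ℝ) ≤ h := by exact_mod_cast hh
    have h2 : (1 : ℝ) ≤ 3 ^ l := one_le_pow₀ (by norm_num)
    have h3 : (y : ℝ) ≤ 3 ^ l * y := le_mul_of_one_le_left hy0 h2
    push_cast
    linarith
  rw [mem_iterz hρ hz hG hy, mem_iterz hρ hz hG hn', h'.1]

/-- `2 ^ N T^[N] n ≡ 3 ^ cnt n (mod ρ)`. -/
theorem res_iter (hρ : Odd ρ) (N : ℕ) (n : ℤ) :
    ρ ∣ 2 ^ N * (T 2 3 (fun _ => ρ))^[N] n - 3 ^ cnt 2 3 (fun _ => ρ) N n * n := by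
  have hadm : Admissible 2 3 (fun _ => ρ) := by
    intro j h1 h2
    have h3 : j = 1 := by
      have : j < 2 := h2
      omega
    subst h3
    obtain ⟨r, rfl⟩ := hρ
    change 2 * r + 1 ≡ (3 : ℤ) * 1 [ZMOD (2 : ℤ)]
    rw [Int.modEq_iff_dvd]
    exact ⟨1 - r, by ring⟩
  induction N generalizing n with
  | zero => simp [cnt]
  | succ N ih =>
    have h1 : cnt 2 3 (fun _ => ρ) (N + 1) n =
        (if ((2 : ℕ) : ℤ) ∣ n then 0 else 1) + cnt 2 3 (fun _ => ρ) N (T 2 3 (fun _ => ρ) n) := rfl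
    rw [h1, Function.iterate_succ_apply]
    obtain ⟨q, hq⟩ := ih (T 2 3 (fun _ => ρ) n)
    by_cases h : ((2 : ℕ) : ℤ) ∣ n
    · rw [if_pos h, zero_add]
      have h2 : ((2 : ℕ) : ℤ) * T 2 3 (fun _ => ρ) n = n := d_mul_T_of_dvd h
      push_cast at h2
      refine ⟨2 * q, ?_⟩
      have h3 : (2 : ℤ) ^ (N + 1) = 2 * 2 ^ N := by ring
      rw [h3]
      linear_combination 2 * hq + 3 ^ cnt 2 3 (fun _ => ρ) N (T 2 3 (fun _ => ρ) n) * h2
    · rw [if_neg h]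
      have h2 : ((2 : ℕ) : ℤ) * T 2 3 (fun _ => ρ) n = ((3 : ℕ) : ℤ) * n - ρ :=
        d_mul_T_of_not_dvd hadm le_rfl h
      push_cast at h2
      refine ⟨2 * q - 3 ^ cnt 2 3 (fun _ => ρ) N (T 2 3 (fun _ => ρ) n), ?_⟩
      have h3 : (2 : ℤ) ^ (N + 1) = 2 * 2 ^ N := by ring
      rw [h3, pow_add]
      linear_combination 2 * hq + 3 ^ cnt 2 3 (fun _ => ρ) N (T 2 3 (fun _ => ρ) n) * h2

/-- Membership in `G` backwards, outside of the orbits of the small integers. -/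
theorem mem_back (hρ : Odd ρ) {G : Set ℤ} {z : ℝ} (hG : TInv 2 3 (fun _ => ρ) G z) {N : ℕ} {n : ℤ} (hn : 0 < n)
    (hv : 0 < (T 2 3 (fun _ => ρ))^[N] n) (hV : (T 2 3 (fun _ => ρ))^[N] n ∉ Pool.Agent.Helper8.SI.small (fun _ => ρ) z N) :
    n ∈ G ↔ (T 2 3 (fun _ => ρ))^[N] n ∈ G := by
  have hadm : Admissible 2 3 (fun _ => ρ) := by
    intro j h1 h2
    have h3 : j = 1 := by
      have : j < 2 := h2
      omega
    subst h3
    obtain ⟨r, rfl⟩ := hρ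
    change 2 * r + 1 ≡ (3 : ℤ) * 1 [ZMOD (2 : ℤ)]
    rw [Int.modEq_iff_dvd]
    exact ⟨1 - r, by ring⟩
  have hT : ∀ u : ℤ, 2 * T 2 3 (fun _ => ρ) u = u ∨ 2 * T 2 3 (fun _ => ρ) u = 3 * u - ρ := by
    intro u
    by_cases h : ((2 : ℕ) : ℤ) ∣ u
    · left
      have h2 : ((2 : ℕ) : ℤ) * T 2 3 (fun _ => ρ) u = u := d_mul_T_of_dvd h
      push_cast at h2
      exact h2
    · right
      have h2 : ((2 : ℕ) : ℤ) * T 2 3 (fun _ => ρ) u = ((3 : ℕ) : ℤ) * u - ρ :=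
        d_mul_T_of_not_dvd hadm le_rfl h
      push_cast at h2
      exact h2
  have hρ0 : ρ ≠ 0 := by
    rintro rfl
    exact absurd hρ (by decide)
  have key : ∀ i, i ≤ N → z < ((T 2 3 (fun _ => ρ))^[i] n : ℝ) := by
    intro i hi
    by_contra hcon
    push Not at hcon
    have e : (T 2 3 (fun _ => ρ))^[N] n = (T 2 3 (fun _ => ρ))^[N - i] ((T 2 3 (fun _ => ρ))^[i] n) := by
      rw [← Function.iterate_add_apply]
      congr 2
      omega
    rcases lt_or_ge 0 ((T 2 3 (fun _ => ρ))^[i] n) with hpos | hneg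
    · apply hV
      rw [e]
      exact Pool.Agent.Helper8.SI.mem_small hpos hcon (Nat.sub_le _ _)
    · rcases lt_or_gt_of_ne hρ0 with h1 | h1
      · have h2 : ∀ k : ℕ, 0 < (T 2 3 (fun _ => ρ))^[k] n := by
          intro k
          induction k with
          | zero => exact hn
          | succ k ih =>
            rw [Function.iterate_succ_apply']
            rcases hT ((T 2 3 (fun _ => ρ))^[k] n) with h | h <;> omega
        exact absurd (h2 i) (not_lt.2 hneg)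
      · have h2 : ∀ k : ℕ, (T 2 3 (fun _ => ρ))^[k] ((T 2 3 (fun _ => ρ))^[i] n) ≤ 0 := by
          intro k
          induction k with
          | zero => exact hneg
          | succ k ih =>
            rw [Function.iterate_succ_apply']
            rcases hT ((T 2 3 (fun _ => ρ))^[k] ((T 2 3 (fun _ => ρ))^[i] n)) with h | h <;> omega
        have := h2 (N - i)
        rw [← e] at this
        exact absurd hv (not_lt.2 this)
  have h1 : ∀ i, i ≤ N → (n ∈ G ↔ (T 2 3 (fun _ => ρ))^[i] n ∈ G) := by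
    intro i
    induction i with
    | zero => intro _; rfl
    | succ i ih =>
      intro hi
      rw [ih (by omega), Function.iterate_succ', Function.comp_apply]
      exact hG _ (key i (by omega))
  exact h1 N le_rfl

/-- A point of the interval whose orbit is where it should be belongs to `G`. -/
theorem mem_of_not_bad (hρ : Odd ρ) {K t₁ : ℕ} {a₀ : ℤ}
    (hwin : ∀ (l : ℕ) (h : ℤ), (l : ℝ) ≤ (t₁ : ℝ) / K → 0 ≤ h → ρ ∣ h → (h : ℝ) ≤ Real.exp ((t₁ : ℝ) / K) →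
      MM ρ (K * t₁) l a₀ (3 ^ l * a₀ + h))
    {G : Set ℤ} {z : ℝ} (hz : 0 ≤ z) (hG : TInv 2 3 (fun _ => ρ) G z) {y : ℤ}
    (hy : ((2 ^ (K * t₁) : ℕ) : ℤ) ∣ y - a₀) (hyG : y ∈ G) (hybig : (2 : ℝ) ^ (K * t₁) * (|(ρ : ℝ)| + z + 1) ≤ y)
    {N Sm : ℕ} {J a L : ℝ} (ha : a = y * 2 ^ N / 3 ^ Sm)
    (hJt : 2 * J ≤ (t₁ : ℝ) / K) (hW : ∀ j : ℕ, (j : ℝ) ≤ 2 * J → L * 3 ^ (Sm + j) / 2 ^ N ≤ Real.exp ((t₁ : ℝ) / K))
    (hSm : (Sm : ℝ) < N / 2 - J + 1) (hSm2 : (N : ℝ) / 2 - J ≤ Sm)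
    {n : ℤ} (h1 : a ≤ n) (h2 : (n : ℝ) < a + L) (hres : ρ ∣ 3 ^ Sm * n - 2 ^ N * y)
    (hn : n ∉ Bad 2 3 (fun _ => ρ) N J a L)
    (hV : (T 2 3 (fun _ => ρ))^[N] n ∉ Pool.Agent.Helper8.SI.small (fun _ => ρ) z N) : n ∈ G := by
  have hodd3 : IsCoprime (2 : ℤ) ρ := by
    obtain ⟨r, rfl⟩ := hρ
    exact ⟨-r, 1, by ring⟩
  have hy0 : (0 : ℝ) < y := by
    have := abs_nonneg (ρ : ℝ)
    have : (0 : ℝ) < (2 : ℝ) ^ (K * t₁) * (|(ρ : ℝ)| + z + 1) := by positivity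
    linarith
  have hn' : |(cnt 2 3 (fun _ => ρ) N n : ℝ) - (((2 : ℕ) : ℝ) - 1) / (2 : ℕ) * N| ≤ J ∧
    a * ((3 : ℕ) : ℝ) ^ cnt 2 3 (fun _ => ρ) N n / ((2 : ℕ) : ℝ) ^ N ≤ ((T 2 3 (fun _ => ρ))^[N] n : ℝ) ∧
    ((T 2 3 (fun _ => ρ))^[N] n : ℝ) < (a + L) * ((3 : ℕ) : ℝ) ^ cnt 2 3 (fun _ => ρ) N n / ((2 : ℕ) : ℝ) ^ N := by
    by_contra hcon
    exact hn ⟨h1, h2, hcon⟩
  obtain ⟨h3, h4, h5⟩ := hn'
  obtain ⟨S, hS⟩ : ∃ S, S = cnt 2 3 (fun _ => ρ) N n := ⟨_, rfl⟩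
  obtain ⟨v, hv⟩ : ∃ v, v = (T 2 3 (fun _ => ρ))^[N] n := ⟨_, rfl⟩
  have hresn := res_iter hρ N n
  rw [← hS, ← hv] at hresn
  rw [← hS] at h3 h4 h5
  rw [← hv] at h4 h5
  push_cast at h3 h4 h5
  have e0 : ((2 : ℝ) - 1) / 2 * N = N / 2 := by ring
  rw [e0] at h3
  have h3' := abs_le.1 h3
  have hSSm : Sm ≤ S := by
    have h6 : (Sm : ℝ) < S + 1 := by linarith
    have h7 : Sm < S + 1 := by exact_mod_cast h6
    omega
  obtain ⟨j, rfl⟩ := Nat.exists_eq_add_of_le hSSm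
  have hj : (j : ℝ) ≤ 2 * J := by
    push_cast at h3'
    linarith
  have hp3 : (0 : ℝ) < 3 ^ Sm := by positivity
  have hp2 : (0 : ℝ) < 2 ^ N := by positivity
  have e1 : a * 3 ^ (Sm + j) / 2 ^ N = 3 ^ j * (y : ℝ) := by
    rw [ha, pow_add]
    field_simp
  have e2 : (a + L) * 3 ^ (Sm + j) / 2 ^ N = 3 ^ j * (y : ℝ) + L * 3 ^ (Sm + j) / 2 ^ N := by
    rw [← e1]
    ring
  rw [e1] at h4
  rw [e2] at h5
  have hh0 : 0 ≤ v - 3 ^ j * y := by
    have : ((3 ^ j * y : ℤ) : ℝ) ≤ (v : ℝ) := by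
      push_cast
      exact h4
    have h6 : 3 ^ j * y ≤ v := by exact_mod_cast this
    linarith
  have hhW : ((v - 3 ^ j * y : ℤ) : ℝ) ≤ Real.exp ((t₁ : ℝ) / K) := by
    push_cast
    have := hW j hj
    linarith
  have hdvd : ρ ∣ v - 3 ^ j * y := by
    have h6 : ρ ∣ 2 ^ N * (v - 3 ^ j * y) := by
      have h7 : (2 : ℤ) ^ N * (v - 3 ^ j * y) = (2 ^ N * v - 3 ^ (Sm + j) * n) + 3 ^ j * (3 ^ Sm * n - 2 ^ N * y) := by
        rw [pow_add]
        ring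
      rw [h7]
      exact dvd_add hresn (hres.mul_left _)
    exact (IsCoprime.pow_left hodd3).symm.dvd_of_dvd_mul_left h6
  have hMM := hwin j (v - 3 ^ j * y) (hj.trans hJt) hh0 hdvd hhW
  obtain ⟨β, hβ⟩ := hdvd
  obtain ⟨q, hq⟩ := hy
  have hMM2 : MM ρ (K * t₁) j y (3 ^ j * y + (v - 3 ^ j * y)) := by
    have e3 : a₀ + 2 ^ (K * t₁) * q = y := by
      push_cast at hq
      linarith
    rw [hβ] at hMM ⊢
    have := (MM_periodic hρ (K * t₁) j β a₀ q).2 hMM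
    rwa [e3] at this
  have h6 := (MM_memL hρ hz hG hybig hh0 hMM2).1 hyG
  have e4 : 3 ^ j * y + (v - 3 ^ j * y) = v := by ring
  rw [e4] at h6
  have ha0 : 0 < a := by rw [ha]; positivity
  have hn0 : 0 < n := by
    have : (0 : ℝ) < n := lt_of_lt_of_le ha0 h1
    exact_mod_cast this
  have hv0 : 0 < v := by
    have hyz : 0 < y := by exact_mod_cast hy0
    have : 0 < 3 ^ j * y := by positivity
    linarith
  rw [hv] at h6 hv0
  exact (mem_back hρ hG hn0 hv0 hV).2 h6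

end Pool.Agent.Helper28.NL
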